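import Pool.Agent.H45.F80.QDefs
/-! Part C of MP_80e906_al: definitions. -/
open Module
namespace F80

section
variable (k : Type*) [Field k] {L : Type*} [LieRing L] [LieAlgebra k L]

/-- The element `w` acts diagonalisably with rational eigenvalues. -/
def Diag [CharZero k] (w : L) : Prop := (⨆ q : ℚ, gr k w q) = ⊤

/-- The centraliser of `s`, as a submodule. -/
def cen (s : L) : Submodule k L := LinearMap.ker (LieAlgebra.ad k L s : Module.End k L)

theorem mem_cen {s v : L} : v ∈ cen k s ↔ ⁅s, v⁆ = 0 := by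
  rw [cen, LinearMap.mem_ker, LieAlgebra.ad_apply]

/-- The bicentraliser of `s`. -/
def bic (s : L) : Submodule k L where
  carrier := {z | ∀ v : L, ⁅s, v⁆ = 0 → ⁅z, v⁆ = 0}
  add_mem' := by
    intro x y hx hy v hv
    rw [add_lie, hx v hv, hy v hv, add_zero]
  zero_mem' := by
    intro v _
    simp
  smul_mem' := by
    intro c x hx v hv
    rw [smul_lie, hx v hv, smul_zero]

theorem mem_bic {s z : L} : z ∈ bic k s ↔ ∀ v : L, ⁅s, v⁆ = 0 → ⁅z, v⁆ = 0 := Iff.rfl

end

end F80
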