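import Pool.Agent.H42.C80.IX
import Pool.Agent.H45.F80.Q9
/-! Part C: conclusion. -/
open Module
universe u
namespace F80

/-- Output of part C. -/
theorem good_of_idx' {k : Type u} [Field k] [CharZero k] [IsAlgClosed k] {g : Type u}
    [LieRing g] [LieAlgebra k g] [FiniteDimensional k g] (I : LieIdeal k g)
    (hI : IsCompl (LieAlgebra.center k g) I) [LieAlgebra.IsKilling k I]
    {h r : LieSubalgebra k g} (hc : IsCompl h.toSubmodule r.toSubmodule)
    (hidx : idx (contr h.toSubmodule r.toSubmodule hc) = LieAlgebra.rank k g) :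
    ∃ w : I, RR k w ∧ (h.map (prI I hI)).toSubmodule ⊔ bor k w = ⊤ := by
  obtain ⟨x, hx, y, hxy⟩ := exists_PF_of_idx I hI hc hidx
  obtain ⟨x', h1, h2, h3, h4⟩ := exists_good_x _ hx hxy
  exact exists_good _ x' h1 h2 h3 h4

end F80
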