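import Pool.Agent.H45.F80.BG0
import Pool.Agent.H42.C80.Defs
/-! Part C, module GD: gradings given by a diagonalisable element. -/
open Module
namespace F80

section lin
variable {k : Type*} [Field k] {V : Type*} [AddCommGroup V] [Module k V]

/-- an element of a supremum of subspaces is a finite sum -/
theorem GD.exists_sum_iSup (G : ℚ → Submodule k V) {x : V} (hx : x ∈ ⨆ q, G q) :
    ∃ (s : Finset ℚ) (f : ℚ → V), (∀ q, f q ∈ G q) ∧ x = ∑ q ∈ s, f q := by
  rw [Submodule.mem_iSup_iff_exists_finsupp] at hx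
  obtain ⟨f, hf, rfl⟩ := hx
  exact ⟨f.support, f, hf, rfl⟩

/-- A filtered map has rank at least that of its leading term. -/
theorem GD.rank_le_of_graded [FiniteDimensional k V] (G : ℚ → Submodule k V)
    (hind : ∀ q : ℚ, Disjoint (G q) (⨆ p ∈ {p : ℚ | q < p}, G p)) (htop : (⨆ q, G q) = ⊤)
    (φ ψ : Module.End k V) (hφ : ∀ q, ∀ v ∈ G q, φ v ∈ G q)
    (hψ : ∀ q, ∀ v ∈ G q, ψ v - φ v ∈ ⨆ p ∈ {p : ℚ | q < p}, G p) :
    finrank k (LinearMap.range φ) ≤ finrank k (LinearMap.range ψ) := by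
  classical
  -- complements
  have hW : ∀ q, ∃ W : Submodule k V, W ≤ G q ∧ G q ≤ W ⊔ LinearMap.ker φ ∧
      Disjoint W (LinearMap.ker φ) := by
    intro q
    obtain ⟨C, hC⟩ := Submodule.exists_isCompl (G q ⊓ LinearMap.ker φ)
    refine ⟨G q ⊓ C, inf_le_left, ?_, ?_⟩
    · intro x hx
      have hx' : x ∈ (G q ⊓ LinearMap.ker φ) ⊔ C := by rw [hC.sup_eq_top]; trivial
      obtain ⟨a, ha, c, hc, rfl⟩ := Submodule.mem_sup.1 hx'
      refine Submodule.mem_sup.2 ⟨c, ⟨?_, hc⟩, a, ha.2, add_comm _ _⟩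
      have := sub_mem hx ha.1
      simpa using this
    · rw [Submodule.disjoint_def]
      intro x hx hk
      exact (Submodule.disjoint_def.1 hC.disjoint) x ⟨hx.1, hk⟩ hx.2
  choose W hWG hWsup hWdis using hW
  let WW : Submodule k V := ⨆ q, W q
  have hup : ∀ {q q0 : ℚ}, q0 < q → (⨆ p ∈ {p : ℚ | q < p}, G p) ≤ ⨆ p ∈ {p : ℚ | q0 < p}, G p := by
    intro q q0 h
    exact iSup₂_le fun p hp => le_iSup₂_of_le p (h.trans hp) le_rfl
  -- injectivity on WW
  have key : ∀ x ∈ WW, (ψ x = 0 ∨ φ x = 0) → x = 0 := by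
    intro x hx h0
    obtain ⟨s, f, hf, rfl⟩ := GD.exists_sum_iSup W hx
    by_contra hne
    let s' := s.filter (fun q => f q ≠ 0)
    have hs' : ∑ q ∈ s, f q = ∑ q ∈ s', f q := by
      rw [Finset.sum_filter_ne_zero]
    have hnon : s'.Nonempty := by
      rw [Finset.nonempty_iff_ne_empty]
      intro h
      rw [hs', h, Finset.sum_empty] at hne
      exact hne rfl
    let q0 := s'.min' hnon
    have hq0 : q0 ∈ s' := s'.min'_mem hnon
    have hq0n : f q0 ≠ 0 := (Finset.mem_filter.1 hq0).2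
    have hsplit : ∑ q ∈ s, f q = f q0 + ∑ q ∈ s'.erase q0, f q := by
      rw [hs', Finset.add_sum_erase _ _ hq0]
    have hlt : ∀ q ∈ s'.erase q0, q0 < q := by
      intro q hq
      have h1 := s'.min'_le q (Finset.mem_of_mem_erase hq)
      exact lt_of_le_of_ne h1 (Finset.ne_of_mem_erase hq).symm
    have hφrest : φ (∑ q ∈ s'.erase q0, f q) ∈ ⨆ p ∈ {p : ℚ | q0 < p}, G p := by
      rw [map_sum]
      refine sum_mem fun q hq => ?_
      have h1 := hφ q _ (hWG q (hf q))
      exact (le_iSup₂_of_le q (hlt q hq) le_rfl : G q ≤ _) h1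
    have hψrest : ψ (∑ q ∈ s'.erase q0, f q) ∈ ⨆ p ∈ {p : ℚ | q0 < p}, G p := by
      rw [map_sum]
      refine sum_mem fun q hq => ?_
      have h1 := hφ q _ (hWG q (hf q))
      have h2 : φ (f q) ∈ ⨆ p ∈ {p : ℚ | q0 < p}, G p :=
        (le_iSup₂_of_le q (hlt q hq) le_rfl : G q ≤ _) h1
      have h3 := hup (hlt q hq) (hψ q _ (hWG q (hf q)))
      have := add_mem h3 h2
      simpa using this
    have hmain : φ (f q0) ∈ ⨆ p ∈ {p : ℚ | q0 < p}, G p := by
      rcases h0 with h0 | h0
      · rw [hsplit, map_add] at h0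
        have h1 : ψ (f q0) = -ψ (∑ q ∈ s'.erase q0, f q) := eq_neg_of_add_eq_zero_left h0
        have h2 : ψ (f q0) ∈ ⨆ p ∈ {p : ℚ | q0 < p}, G p := by rw [h1]; exact neg_mem hψrest
        have h3 := sub_mem h2 (hψ q0 _ (hWG q0 (hf q0)))
        simpa using h3
      · rw [hsplit, map_add] at h0
        have h1 : φ (f q0) = -φ (∑ q ∈ s'.erase q0, f q) := eq_neg_of_add_eq_zero_left h0
        rw [h1]; exact neg_mem hφrest
    have hz : φ (f q0) = 0 :=
      (Submodule.disjoint_def.1 (hind q0)) _ (hφ q0 _ (hWG q0 (hf q0))) hmain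
    exact hq0n ((Submodule.disjoint_def.1 (hWdis q0)) _ (hf q0) (LinearMap.mem_ker.2 hz))
  -- ranks
  have hmap : Submodule.map φ WW = LinearMap.range φ := by
    refine le_antisymm (LinearMap.map_le_range) ?_
    rintro _ ⟨x, rfl⟩
    have hx : x ∈ WW ⊔ LinearMap.ker φ := by
      have : (⊤ : Submodule k V) ≤ WW ⊔ LinearMap.ker φ := by
        rw [← htop]
        refine iSup_le fun q => (hWsup q).trans (sup_le_sup_right (le_iSup W q) _)
      exact this trivial
    obtain ⟨a, ha, b, hb, rfl⟩ := Submodule.mem_sup.1 hx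
    rw [map_add, LinearMap.mem_ker.1 hb, add_zero]
    exact Submodule.mem_map_of_mem ha
  calc finrank k (LinearMap.range φ) = finrank k (Submodule.map φ WW) := by rw [hmap]
    _ ≤ finrank k WW := Submodule.finrank_map_le φ WW
    _ = finrank k (Submodule.map ψ WW) := by
        have hinj : Function.Injective (ψ.domRestrict WW) := by
          rw [injective_iff_map_eq_zero]
          rintro ⟨x, hx⟩ h0
          exact Subtype.ext (key x hx (Or.inl h0))
        rw [← LinearMap.range_domRestrict, LinearMap.finrank_range_of_inj hinj]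
    _ ≤ finrank k (LinearMap.range ψ) := Submodule.finrank_mono LinearMap.map_le_range

end lin

section
variable {k : Type*} [Field k] [CharZero k] {L : Type*} [LieRing L] [LieAlgebra k L]
  [FiniteDimensional k L]

/-- Passing to the degree zero part of an element of `bor w` does not increase ranks. -/
theorem rank_gr_le {w : L} (hw : Diag k w) {u0 u1 : L} (h0 : u0 ∈ gr k w 0)
    (h1 : u1 ∈ nil k w) (N : ℕ) :
    finrank k (LinearMap.range ((LieAlgebra.ad k L u0 : Module.End k L) ^ N)) ≤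
      finrank k (LinearMap.range ((LieAlgebra.ad k L (u0 + u1) : Module.End k L) ^ N)) := by
  have hA0 : ∀ (n : ℕ) (q : ℚ), ∀ v ∈ gr k w q,
      ((LieAlgebra.ad k L u0 : Module.End k L) ^ n) v ∈ gr k w q := by
    intro n
    induction n with
    | zero => intro q v hv; simpa using hv
    | succ n ih =>
      intro q v hv
      rw [pow_succ', Module.End.mul_apply, LieAlgebra.ad_apply]
      have := lie_gr h0 (ih q v hv)
      rwa [zero_add] at this
  have hb : u0 + u1 ∈ bor k w := add_mem (gr_le_bor w le_rfl h0) (nil_le_bor w h1)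
  refine GD.rank_le_of_graded (fun q => gr k w q) ?_ hw _ _ (hA0 N) ?_
  · intro q
    have := disjoint_biSup_gr (E := k) w (S := {q}) (T := {p | q < p}) (by simp)
    simpa using this
  · induction N with
    | zero => intro q v hv; simp
    | succ n ih =>
      intro q v hv
      have e : ((LieAlgebra.ad k L (u0 + u1) : Module.End k L) ^ (n + 1)) v -
          ((LieAlgebra.ad k L u0 : Module.End k L) ^ (n + 1)) v =
          ⁅u0 + u1, ((LieAlgebra.ad k L (u0 + u1) : Module.End k L) ^ n) v -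
            ((LieAlgebra.ad k L u0 : Module.End k L) ^ n) v⁆ +
          ⁅u1, ((LieAlgebra.ad k L u0 : Module.End k L) ^ n) v⁆ := by
        rw [pow_succ', Module.End.mul_apply, pow_succ', Module.End.mul_apply,
          LieAlgebra.ad_apply, LieAlgebra.ad_apply, lie_sub, add_lie _ _
            (((LieAlgebra.ad k L u0 : Module.End k L) ^ n) v)]
        abel
      rw [e]
      refine add_mem ?_ ?_
      · rw [bor_eq_biSup] at hb
        exact lie_mem_biSup (S := {q : ℚ | 0 ≤ q}) (T := {p : ℚ | q < p}) (U := {p : ℚ | q < p})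
          (fun s hs t ht => by
            simp only [Set.mem_ofPred_eq] at *
            linarith) hb (ih q v hv)
      · rw [nil_eq_biSup] at h1
        have hv' : ((LieAlgebra.ad k L u0 : Module.End k L) ^ n) v ∈
            ⨆ p ∈ ({q} : Set ℚ), gr k w p := by simpa using hA0 n q v hv
        exact lie_mem_biSup (S := {q : ℚ | 0 < q}) (T := {q}) (U := {p : ℚ | q < p})
          (fun s hs t ht => by
            simp only [Set.mem_ofPred_eq, Set.mem_singleton_iff] at *
            linarith) h1 hv'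

theorem Diag.exists_add {w : L} (hw : Diag k w) (S : Set ℚ) (x : L) :
    ∃ y ∈ ⨆ q ∈ S, gr k w q, ∃ z ∈ ⨆ q ∈ Sᶜ, gr k w q, y + z = x := by
  have h1 : (⨆ q ∈ S, gr k w q) ⊔ (⨆ q ∈ Sᶜ, gr k w q) = ⊤ := by
    rw [eq_top_iff, ← (hw : (⨆ q : ℚ, gr k w q) = ⊤)]
    refine iSup_le fun q => ?_
    by_cases hq : q ∈ S
    · have h1 : gr k w q ≤ ⨆ q ∈ S, gr k w q := le_iSup₂_of_le q hq le_rfl
      exact h1.trans le_sup_left
    · have h1 : gr k w q ≤ ⨆ q ∈ Sᶜ, gr k w q := le_iSup₂_of_le q hq le_rfl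
      exact h1.trans le_sup_right
  have : x ∈ (⨆ q ∈ S, gr k w q) ⊔ (⨆ q ∈ Sᶜ, gr k w q) := by rw [h1]; trivial
  exact Submodule.mem_sup.1 this

/-- for diagonalisable `w` the orthogonal of `nil w` is inside `bor w` -/
theorem Diag.mem_bor [LieAlgebra.IsKilling k L] {w : L} (hw : Diag k w) {x : L}
    (hx : ∀ y ∈ nil k w, killingForm k L x y = 0) : x ∈ bor k w := by
  obtain ⟨y, hy, z, hz, rfl⟩ := hw.exists_add {q : ℚ | 0 ≤ q} x
  suffices z = 0 by rw [this, add_zero]; exact hy
  refine eq_zero_of_killing (E := k) fun v => ?_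
  obtain ⟨a, ha, b, hb, rfl⟩ := hw.exists_add {q : ℚ | 0 < q} v
  have h1 : killingForm k L y a = 0 := by
    rw [LieModule.traceForm_comm]; exact killing_nil_bor ha hy
  have h2 : killingForm k L z b = 0 := by
    refine killing_biSup (fun s hs t ht hst => ?_) hz hb
    simp only [Set.mem_compl_iff, Set.mem_ofPred_eq, not_le, not_lt] at hs ht
    linarith
  have h3 := hx a ha
  rw [map_add, LinearMap.add_apply, h1, zero_add] at h3
  rw [map_add, h3, h2, add_zero]

/-- double orthogonal -/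
theorem GD.mem_of_perp_perp [LieAlgebra.IsKilling k L] {W : Submodule k L} {x : L}
    (hx : ∀ m ∈ perp k W, killingForm k L x m = 0) : x ∈ W := by
  have h1 := LinearMap.BilinForm.orthogonal_orthogonal
    (LieAlgebra.IsKilling.killingForm_nondegenerate k L)
    (LieModule.traceForm_isSymm k L L).isRefl W
  rw [← h1, LinearMap.BilinForm.mem_orthogonal_iff]
  intro m hm
  rw [LinearMap.BilinForm.mem_orthogonal_iff] at hm
  change killingForm k L m x = 0
  rw [LieModule.traceForm_comm]
  refine hx m ?_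
  intro y hy
  rw [LieModule.traceForm_comm]
  exact hm y hy

/-- Lifting lemma: `h` of degree `0`, orthogonal to `[r,r]^⊥ ∩ bor w`, lifts to `[r,r]`. -/
theorem exists_lift_der [LieAlgebra.IsKilling k L] {w : L} (hw : Diag k w)
    (r : LieSubalgebra k L) {h : L} (hh : h ∈ gr k w 0)
    (hp : ∀ m ∈ perp k (der r), m ∈ bor k w → killingForm k L h m = 0) :
    ∃ u ∈ nil k w, h + u ∈ der r := by
  have h1 : h ∈ der r ⊔ nil k w := by
    refine GD.mem_of_perp_perp fun m hm => hp m ?_ (hw.mem_bor ?_)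
    · intro y hy; exact hm y (Submodule.mem_sup_left hy)
    · intro y hy; exact hm y (Submodule.mem_sup_right hy)
  obtain ⟨d, hd, n, hn, rfl⟩ := Submodule.mem_sup.1 h1
  refine ⟨-n, neg_mem hn, ?_⟩
  simpa using hd

end
end F80
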