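import Pool.Agent.H42.C80.SS
import Pool.Agent.H45.F80.DZ
import Pool.Agent.H45.F80.DR
import Pool.Agent.H45.F80.Q1
/-! Part C, module IX: from the index condition to a good element. -/
open Module
universe u
set_option linter.unusedSectionVars false
namespace F80

section
variable {k : Type u} [Field k] [CharZero k] [IsAlgClosed k] {L : Type u} [LieRing L]
  [LieAlgebra k L] [FiniteDimensional k L] [LieAlgebra.IsKilling k L]

theorem lineOpen_rank_PF (r : LieSubalgebra k L) (y : L) :
    LineOpen k (fun x : L => finrank k (LinearMap.range (PF k r x y))) := by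
  intro x z
  have h := FR.finite_rank_lt (PF k r x y) (PF k r z 0)
  refine h.subset ?_
  intro t ht
  have e : PF k r (x + t • z) y = PF k r x y + t • PF k r z 0 := by
    refine LinearMap.ext fun p => LinearMap.ext fun q => ?_
    rw [LinearMap.add_apply, LinearMap.add_apply, LinearMap.smul_apply, LinearMap.smul_apply,
      PF_apply, PF_apply, PF_apply]
    simp only [map_add, map_smul, LinearMap.add_apply, LinearMap.smul_apply, map_zero,
      LinearMap.zero_apply, smul_eq_mul]
    ring
  change finrank k (LinearMap.range (PF k r x y + t • PF k r z 0)) <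
    finrank k (LinearMap.range (PF k r x y))
  rw [← e]
  exact ht

/-- From the index condition to an element satisfying the hypotheses of `exists_good` (file Q9). -/
theorem exists_good_x (r : LieSubalgebra k L) {x y : L} (hx : x ∈ perp k (der r))
    (h : finrank k L ≤ LieAlgebra.rank k L + finrank k (LinearMap.range (PF k r x y))) :
    ∃ x : L, x ∈ perp k (der r) ∧ (LieAlgebra.ad k L x : Module.End k L).IsSemisimple ∧
      (∀ a b : L, ⁅x, a⁆ = 0 → ⁅x, b⁆ = 0 → ⁅a, b⁆ ∈ r) ∧
      (∀ u : L, (∀ a ∈ r, killingForm k L ⁅u, x⁆ a = 0) → ∃ a ∈ r, ⁅a, x⁆ = ⁅u, x⁆) := by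
  have : Infinite k := IsAlgClosed.instInfinite
  have hb1 : ∀ z : L, finrank k (LinearMap.range (LieAlgebra.ad k L z : Module.End k L)) ≤
      finrank k L := fun z => Submodule.finrank_le _
  obtain ⟨x1, hx1, hmax⟩ := exists_common_max (k := k) (perp k (der r))
    (f1 := fun z : L => finrank k (LinearMap.range ((LieAlgebra.ad k L z : Module.End k L) ^ 1)))
    (f2 := fun z : L => finrank k (LinearMap.range
      ((LieAlgebra.ad k L z : Module.End k L) ^ (finrank k L))))
    (f3 := fun z : L => finrank k (LinearMap.range (PF k r z y)))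
    (lineOpen_rank_ad_pow 1) (lineOpen_rank_ad_pow _) (lineOpen_rank_PF r y)
    (finrank k L + finrank k (r × L)) (fun z => by
      refine ⟨(Submodule.finrank_le _).trans (Nat.le_add_right _ _),
        (Submodule.finrank_le _).trans (Nat.le_add_right _ _), ?_⟩
      have h1 := LinearMap.finrank_range_add_finrank_ker (PF k r z y)
      change finrank k (LinearMap.range (PF k r z y)) ≤ _
      omega)
  have hpow : ∀ z : L, finrank k (LinearMap.range
      ((LieAlgebra.ad k L z : Module.End k L) ^ 1)) =
      finrank k (LinearMap.range (LieAlgebra.ad k L z : Module.End k L)) := fun z => by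
    rw [pow_one]
  have hmax1 : ∀ z ∈ perp k (der r),
      finrank k (LinearMap.range (LieAlgebra.ad k L z : Module.End k L)) ≤
      finrank k (LinearMap.range (LieAlgebra.ad k L x1 : Module.End k L)) := by
    intro z hz
    have h1 := (hmax z hz).1
    change finrank k (LinearMap.range ((LieAlgebra.ad k L z : Module.End k L) ^ 1)) ≤
      finrank k (LinearMap.range ((LieAlgebra.ad k L x1 : Module.End k L) ^ 1)) at h1
    rwa [hpow, hpow] at h1
  have hP : RC k r x1 y := by
    have h1 : finrank k (LinearMap.range (PF k r x y)) ≤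
      finrank k (LinearMap.range (PF k r x1 y)) := (hmax x hx).2.2
    have h2 := LinearMap.finrank_range_add_finrank_ker (PF k r x1 y)
    have h3 : finrank k (r × L) = finrank k r + finrank k L := Module.finrank_prod
    change finrank k (LinearMap.ker (PF k r x1 y)) ≤ finrank k r + LieAlgebra.rank k L
    omega
  refine ⟨x1, hx1, ?_, ?_, lagr r hx1 hP⟩
  · exact isSemisimple_of_max r hx1 (finrank k L) le_rfl hmax1
      (fun z hz => (hmax z hz).2.1)
  · intro a b ha hb
    exact cent_of_max r hx1 hmax1 ha hb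

end

/-- The index condition gives a point of maximal rank. -/
theorem exists_PF_of_idx {k : Type u} [Field k] [CharZero k] [IsAlgClosed k] {g : Type u}
    [LieRing g] [LieAlgebra k g] [FiniteDimensional k g] (I : LieIdeal k g)
    (hI : IsCompl (LieAlgebra.center k g) I) [LieAlgebra.IsKilling k I]
    {h r : LieSubalgebra k g} (hc : IsCompl h.toSubmodule r.toSubmodule)
    (hidx : idx (contr h.toSubmodule r.toSubmodule hc) = LieAlgebra.rank k g) :
    ∃ x ∈ perp k (der (h.map (prI I hI))), ∃ y : I,
      finrank k I ≤ LieAlgebra.rank k I + finrank k (LinearMap.range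
        (PF k (h.map (prI I hI)) x y)) := by
  set B := contr h.toSubmodule r.toSubmodule hc with hB
  set ph := h.toSubmodule.projection r.toSubmodule hc with hph
  set pr := r.toSubmodule.projection h.toSubmodule hc.symm with hpr
  obtain ⟨ξ, hξ⟩ : ∃ ξ : Module.Dual k g,
      finrank k (LinearMap.ker (B.compr₂ ξ)) = LieAlgebra.rank k g := by
    have h1 : idx B ∈ Set.range fun ξ : Module.Dual k g =>
        finrank k (LinearMap.ker (B.compr₂ ξ)) := Nat.sInf_mem ⟨_, 0, rfl⟩
    obtain ⟨ξ, hξ⟩ := h1
    exact ⟨ξ, hξ.trans hidx⟩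
  -- the points
  have hnd := LieAlgebra.IsKilling.killingForm_nondegenerate k I
  have hrep : ∀ η : g →ₗ[k] k, ∃ x : I, ∀ v : I, killingForm k I x v = η (v : g) := by
    intro η
    refine ⟨((killingForm k I).toDual hnd).symm (η ∘ₗ I.toSubmodule.subtype), fun v => ?_⟩
    rw [LinearMap.BilinForm.apply_toDual_symm_apply]
    rfl
  obtain ⟨y, hy⟩ := hrep ξ
  obtain ⟨x, hx⟩ := hrep (ξ ∘ₗ pr)
  -- brackets only see the projections
  have hbr : ∀ a b : g, ((⁅prI I hI a, prI I hI b⁆ : I) : g) = ⁅a, b⁆ := by
    intro a b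
    have hz : ∀ z ∈ LieAlgebra.center k g, ∀ y : g, ⁅z, y⁆ = 0 := by
      intro z hz y
      have := (LieModule.mem_maxTrivSubmodule (R := k) (L := g) (M := g) z).mp hz y
      rw [← lie_skew, this, neg_zero]
    have e1 : ⁅a, b⁆ = ⁅(prI I hI a : g), b⁆ := by
      have := hz _ (sub_prI_mem I hI a) b
      rwa [sub_lie, sub_eq_zero] at this
    have e2 : ⁅(prI I hI a : g), b⁆ = ⁅(prI I hI a : g), (prI I hI b : g)⁆ := by
      have := hz _ (sub_prI_mem I hI b) (prI I hI a : g)
      rw [sub_lie, sub_eq_zero] at this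
      rw [← lie_skew, this, lie_skew]
    rw [e1, e2]; rfl
  have hprh : ∀ a ∈ h, pr a = 0 := fun a ha =>
    (Submodule.projection_apply_eq_zero_iff hc.symm).mpr ha
  refine ⟨x, ?_, y, ?_⟩
  · have h1 : der (h.map (prI I hI)) ≤ LinearMap.ker (killingForm k I x) := by
      refine Submodule.span_le.mpr ?_
      rintro _ ⟨a, ⟨a', ha', rfl⟩, b, ⟨b', hb', rfl⟩, rfl⟩
      change killingForm k I x ⁅prI I hI a', prI I hI b'⁆ = 0
      rw [hx, hbr]
      change ξ (pr ⁅a', b'⁆) = 0
      rw [hprh _ (h.lie_mem ha' hb'), map_zero]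
    intro v hv
    exact h1 hv
  · -- the pull back
    let s := h.map (prI I hI)
    let φ1 : g →ₗ[k] s := LinearMap.codRestrict s.toSubmodule
      ((prI I hI : g →ₗ[k] I) ∘ₗ ph) (fun v => ⟨ph v, Submodule.projection_apply_mem hc v, rfl⟩)
    let φ2 : g →ₗ[k] I := (prI I hI : g →ₗ[k] I) ∘ₗ pr
    let φ : g →ₗ[k] s × I := φ1.prod φ2
    have hQ : B.compr₂ ξ = (PF k s x y).compl₁₂ φ φ := by
      refine LinearMap.ext fun v => LinearMap.ext fun w => ?_
      rw [LinearMap.compl₁₂_apply, PF_apply, LinearMap.compr₂_apply]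
      change ξ (B v w) = killingForm k I y ⁅prI I hI (ph v), prI I hI (ph w)⁆ +
        killingForm k I x ⁅prI I hI (ph v), prI I hI (pr w)⁆ -
        killingForm k I x ⁅prI I hI (ph w), prI I hI (pr v)⁆
      rw [hy, hx, hx, hbr, hbr, hbr]
      change ξ (⁅ph v, ph w⁆ + pr (⁅ph v, pr w⁆ - ⁅ph w, pr v⁆)) =
        ξ ⁅ph v, ph w⁆ + ξ (pr ⁅ph v, pr w⁆) - ξ (pr ⁅ph w, pr v⁆)
      simp only [map_add, map_sub]
      ring
    have h1 : finrank k (LinearMap.range (B.compr₂ ξ)) ≤
        finrank k (LinearMap.range (PF k s x y)) := by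
      rw [hQ]
      have h2 : LinearMap.range ((PF k s x y).compl₁₂ φ φ) ≤
          (LinearMap.range (PF k s x y)).map (Module.Dual.transpose (R := k) φ) := by
        rintro _ ⟨v, rfl⟩
        exact ⟨PF k s x y (φ v), ⟨φ v, rfl⟩, rfl⟩
      exact (Submodule.finrank_mono h2).trans (Submodule.finrank_map_le _ _)
    have h2 := LinearMap.finrank_range_add_finrank_ker (B.compr₂ ξ)
    have h3 := rank_reductive I hI
    have h4 : finrank k I + finrank k (LieAlgebra.center k g) = finrank k g :=
      Submodule.finrank_add_eq_of_isCompl (isCompl_sub I hI)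
    rw [hξ] at h2
    change finrank k I ≤ LieAlgebra.rank k I + finrank k (LinearMap.range (PF k s x y))
    omega

end F80
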