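import Pool.Agent.H45.F80.BG0
import Pool.Agent.H42.C80.Defs
/-! Part C, module JR: Jordan decomposition and replicas in a Killing Lie algebra. -/
open Module
namespace F80

/-- A linear map acting by additive scalars on a family of subspaces compatible with the bracket
is inner. -/
theorem exists_ad_of_additive {k : Type*} [Field k] {L : Type*} [LieRing L]
    [LieAlgebra k L] [FiniteDimensional k L] [LieAlgebra.IsKilling k L]
    {V : k → Submodule k L} (hV : (⨆ μ, V μ) = ⊤)
    (hlie : ∀ μ ν x y, x ∈ V μ → y ∈ V ν → ⁅x, y⁆ ∈ V (μ + ν))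
    (S : Module.End k L) (c : k → k) (hc : ∀ μ ν, c (μ + ν) = c μ + c ν)
    (hS : ∀ μ, ∀ x ∈ V μ, S x = c μ • x) :
    ∃ w : L, (LieAlgebra.ad k L w : Module.End k L) = S := by
  have key : ∀ x y : L, S ⁅x, y⁆ = ⁅S x, y⁆ + ⁅x, S y⁆ := by
    intro x y
    have hx : x ∈ ⨆ μ, V μ := by rw [hV]; trivial
    have hy : y ∈ ⨆ μ, V μ := by rw [hV]; trivial
    induction hx using Submodule.iSup_induction' with
    | zero => simp
    | add a b _ _ ha hb =>
      rw [add_lie, map_add, ha, hb, map_add, add_lie, add_lie]; abel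
    | mem μ x hx =>
      induction hy using Submodule.iSup_induction' with
      | zero => simp
      | add a b _ _ ha hb =>
        rw [lie_add, map_add, ha, hb, map_add, lie_add, lie_add]; abel
      | mem ν y hy =>
        rw [hS _ _ (hlie μ ν x y hx hy), hS μ x hx, hS ν y hy, hc, add_smul, smul_lie, lie_smul]
  let D : LieDerivation k L L :=
    { toLinearMap := S
      leibniz' := fun a b => by
        change S ⁅a, b⁆ = ⁅a, S b⁆ - ⁅b, S a⁆
        rw [key, ← lie_skew (S a) b]; abel }
  obtain ⟨w, hw⟩ := LieDerivation.IsKilling.exists_eq_ad D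
  refine ⟨w, ?_⟩
  ext x
  have h1 : (LieDerivation.ad k L w) x = D x := by rw [hw]
  rw [LieDerivation.ad_apply_apply] at h1
  exact h1

theorem exists_jordan {E : Type*} [Field E] [IsAlgClosed E] [CharZero E] {g : Type*} [LieRing g]
    [LieAlgebra E g] [FiniteDimensional E g] [LieAlgebra.IsKilling E g] (x : g) :
    ∃ s n : g, x = s + n ∧ ⁅s, n⁆ = 0 ∧
      (LieAlgebra.ad E g s : Module.End E g).IsSemisimple ∧
      IsNilpotent (LieAlgebra.ad E g n : Module.End E g) ∧
      (LieAlgebra.ad E g s : Module.End E g) ∈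
        Algebra.adjoin E {(LieAlgebra.ad E g x : Module.End E g)} ∧
      ∀ μ : E, Module.End.maxGenEigenspace (LieAlgebra.ad E g x : Module.End E g) μ =
        Module.End.eigenspace (LieAlgebra.ad E g s : Module.End E g) μ := by
  obtain ⟨N, hN, S, hS, hNn, hSs, hxx⟩ :=
    Module.End.exists_isNilpotent_isSemisimple (K := E)
      (f := (LieAlgebra.ad E g x : Module.End E g))
  have hcomm : Commute (LieAlgebra.ad E g x : Module.End E g) S :=
    Algebra.commute_of_mem_adjoin_singleton_of_commute hS (Commute.refl _)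
  have hnil : IsNilpotent ((LieAlgebra.ad E g x : Module.End E g) - S) := by
    rw [hxx]; simpa using hNn
  have hact : ∀ μ, ∀ v ∈ Module.End.maxGenEigenspace
      (LieAlgebra.ad E g x : Module.End E g) μ, S v = μ • v := fun μ v hv =>
    Module.End.apply_eq_of_mem_of_comm_of_isFinitelySemisimple_of_isNil hv hcomm
      (Module.End.isFinitelySemisimple_iff_isSemisimple.mpr hSs) hnil
  have htop := Module.End.iSup_maxGenEigenspace_eq_top (LieAlgebra.ad E g x : Module.End E g)
  obtain ⟨s, hs⟩ := exists_ad_of_additive htop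
    (fun μ ν a b ha hb => by
      have := LieModule.lie_mem_maxGenEigenspace_toEnd (R := E) (L := g) (M := g)
        (χ₁ := μ) (χ₂ := ν) (x := x) (y := a) (m := b) ha hb
      exact this) S (fun μ => μ) (fun _ _ => rfl) hact
  have hn : (LieAlgebra.ad E g (x - s) : Module.End E g) = N := by
    rw [map_sub, hs, hxx]; simp
  refine ⟨s, x - s, by abel, ?_, hs ▸ hSs, hn ▸ hNn, hs ▸ hS, ?_⟩
  · have h1 : S x = (0 : E) • x := by
      apply hact 0 x
      rw [Module.End.mem_maxGenEigenspace]
      exact ⟨1, by simp⟩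
    rw [← hs, LieAlgebra.ad_apply, zero_smul] at h1
    rw [lie_sub, h1, lie_self, sub_zero]
  · intro μ
    apply le_antisymm
    · intro v hv
      rw [Module.End.mem_eigenspace_iff, hs]
      exact hact μ v hv
    · intro v hv
      have hle := htop
      have hcs : Commute S (LieAlgebra.ad E g x : Module.End E g) := hcomm.symm
      have h2 : v ∈ S.eigenspace μ := by rw [← hs]; exact hv
      -- on the eigenspace of `S`, `ad x - μ = N` is nilpotent
      obtain ⟨m, hm⟩ := hNn
      rw [Module.End.mem_maxGenEigenspace]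
      refine ⟨m, ?_⟩
      have hcN : Commute N S := by
        have : N = (LieAlgebra.ad E g x : Module.End E g) - S := by rw [hxx]; simp
        rw [this]
        exact Commute.sub_left hcomm (Commute.refl S)
      have h3 : ∀ j : ℕ, (((LieAlgebra.ad E g x : Module.End E g) - μ • (1 : Module.End E g)) ^ j) v
          = (N ^ j) v ∧ (N ^ j) v ∈ S.eigenspace μ := by
        intro j
        induction j with
        | zero => exact ⟨by simp, by simpa using h2⟩
        | succ j ih =>
          constructor
          · rw [pow_succ', Module.End.mul_apply, ih.1, pow_succ', Module.End.mul_apply, hxx]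
            have := ih.2
            rw [Module.End.mem_eigenspace_iff] at this
            rw [LinearMap.sub_apply, LinearMap.add_apply, this, LinearMap.smul_apply,
              Module.End.one_apply, add_sub_cancel_right]
          · rw [pow_succ', Module.End.mul_apply]
            exact Module.End.mapsTo_genEigenspace_of_comm hcN.symm μ 1 ih.2
      rw [(h3 m).1, hm]; simp

/-- An additive map to `ℚ` which does not vanish on a given finite set of nonzero scalars. -/
theorem exists_addMonoidHom_rat {k : Type*} [Field k] [CharZero k] (S : Finset k)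
    (hS : (0 : k) ∉ S) : ∃ φ : k →+ ℚ, ∀ μ ∈ S, φ μ ≠ 0 := by
  obtain ⟨f, hf⟩ := Module.exists_dual_forall_apply_ne_zero (K := ℚ) (M := k)
    (fun i : S => (i : k)) (fun i h => hS (h ▸ i.2))
  exact ⟨f.toAddMonoidHom, fun μ hμ => hf ⟨μ, hμ⟩⟩

section
variable {k : Type*} [Field k] [CharZero k] [IsAlgClosed k] {L : Type*} [LieRing L]
  [LieAlgebra k L] [FiniteDimensional k L] [LieAlgebra.IsKilling k L]

/-- Replicas: for additive `φ : k → ℚ` there is an element acting by `φ μ` on the `μ`-eigenspace
of `ad s`. -/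
theorem exists_replica {s : L} (hs : (LieAlgebra.ad k L s : Module.End k L).IsSemisimple)
    (φ : k →+ ℚ) :
    ∃ w : L, Diag k w ∧
      ∀ (μ : k) (v : L), ⁅s, v⁆ = μ • v → ⁅w, v⁆ = ((φ μ : ℚ) : k) • v := by
  classical
  set A : Module.End k L := (LieAlgebra.ad k L s : Module.End k L) with hA
  have hfin := Module.End.finite_hasEigenvalue A
  let T : Finset k := hfin.toFinset
  let P : Polynomial k := Lagrange.interpolate T id (fun μ => ((φ μ : ℚ) : k))
  have hP : ∀ μ ∈ T, P.eval μ = ((φ μ : ℚ) : k) := fun μ hμ =>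
    Lagrange.eval_interpolate_at_node _ (Set.injOn_id _) hμ
  have hact : ∀ (μ : k) (v : L), v ∈ A.eigenspace μ →
      Polynomial.aeval A P v = ((φ μ : ℚ) : k) • v := by
    intro μ v hv
    rcases eq_or_ne v 0 with rfl | hv0
    · simp
    have hμ : A.HasEigenvalue μ := Module.End.hasEigenvalue_of_hasEigenvector ⟨hv, hv0⟩
    rw [Module.End.aeval_apply_of_hasEigenvector ⟨hv, hv0⟩, hP μ (hfin.mem_toFinset.mpr hμ)]
  have htop := hs.iSup_eigenspace_eq_top
  obtain ⟨w, hw⟩ := exists_ad_of_additive (V := fun μ => A.eigenspace μ) htop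
    (fun μ ν a b ha hb => by
      rw [Module.End.mem_eigenspace_iff] at *
      simp only [hA, LieAlgebra.ad_apply] at *
      rw [leibniz_lie, ha, hb, smul_lie, lie_smul, add_smul])
    (Polynomial.aeval A P) (fun μ => ((φ μ : ℚ) : k))
    (fun μ ν => by push_cast [map_add]; rfl) hact
  have hw' : ∀ (μ : k) (v : L), ⁅s, v⁆ = μ • v → ⁅w, v⁆ = ((φ μ : ℚ) : k) • v := by
    intro μ v hv
    have h1 : v ∈ A.eigenspace μ := by
      rw [Module.End.mem_eigenspace_iff, hA, LieAlgebra.ad_apply]; exact hv
    rw [← hact μ v h1, ← hw, LieAlgebra.ad_apply]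
  refine ⟨w, ?_, hw'⟩
  rw [Diag, eq_top_iff, ← htop]
  refine iSup_le fun μ v hv => ?_
  refine (le_iSup (fun q : ℚ => gr k w q) (φ μ)) ?_
  rw [mem_gr]
  refine hw' μ v ?_
  rw [Module.End.mem_eigenspace_iff, hA, LieAlgebra.ad_apply] at hv
  exact hv

/-- A grading element for the centraliser of a semisimple element. -/
theorem exists_grading {s : L} (hs : (LieAlgebra.ad k L s : Module.End k L).IsSemisimple) :
    ∃ w : L, Diag k w ∧ gr k w 0 = cen k s ∧ ⁅s, w⁆ = 0 := by
  classical
  set A : Module.End k L := (LieAlgebra.ad k L s : Module.End k L) with hA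
  have hfin := Module.End.finite_hasEigenvalue A
  obtain ⟨φ, hφ⟩ := exists_addMonoidHom_rat (hfin.toFinset.erase 0) (by simp)
  obtain ⟨w, hw, hws⟩ := exists_replica hs φ
  refine ⟨w, hw, ?_, ?_⟩
  · apply le_antisymm
    · have hmaps : ∀ v ∈ gr k w 0, A v ∈ gr k w 0 := by
        intro v hv
        rw [mem_gr] at hv ⊢
        have h0 : ⁅w, s⁆ = 0 := by
          have := hws 0 s (by simp)
          simpa using this
        simp only [hA, LieAlgebra.ad_apply]
        rw [leibniz_lie, h0, hv]; simp
      have hss := Module.End.IsSemisimple.restrict (p := gr k w 0) hmaps hs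
      have h0 : A.restrict hmaps = 0 := by
        rw [hss.eq_zero_iff_forall_eigenvalue]
        intro μ hμ
        obtain ⟨v, hv⟩ := hμ.exists_hasEigenvector
        by_contra hμ0
        have hv1 : A (v : L) = μ • (v : L) := by
          have := congrArg (Subtype.val) (Module.End.mem_eigenspace_iff.mp hv.1)
          simpa using this
        have hv2 : (v : L) ≠ 0 := by simpa using hv.2
        have h1 := hws μ v hv1
        have h2 := mem_gr.mp v.2
        rw [h2, Rat.cast_zero, zero_smul] at h1
        have h3 : ((φ μ : ℚ) : k) = 0 := (smul_eq_zero.mp h1.symm).resolve_right hv2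
        have h4 : φ μ = 0 := by exact_mod_cast h3
        refine hφ μ ?_ h4
        rw [Finset.mem_erase, hfin.mem_toFinset]
        exact ⟨hμ0, Module.End.hasEigenvalue_of_hasEigenvector
          ⟨Module.End.mem_eigenspace_iff.mpr hv1, hv2⟩⟩
      intro v hv
      have h1 := congrArg (fun f : Module.End k (gr k w 0) => ((f ⟨v, hv⟩ : gr k w 0) : L)) h0
      simp only [LinearMap.coe_restrict_apply, LinearMap.zero_apply, ZeroMemClass.coe_zero] at h1
      exact h1
    · intro v hv
      rw [mem_cen] at hv
      rw [mem_gr]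
      have := hws 0 v (by simpa using hv)
      simpa using this
  · have := hws 0 s (by simp)
    rw [← lie_skew, this]; simp

/-- The trace of the product of a nilpotent element and of an element commuting with it. -/
theorem killing_eq_zero_of_nilpotent {k : Type*} [Field k] {L : Type*} [LieRing L] [LieAlgebra k L]
    [FiniteDimensional k L] {n z : L}
    (hn : IsNilpotent (LieAlgebra.ad k L n : Module.End k L)) (hz : ⁅n, z⁆ = 0) :
    killingForm k L n z = 0 := by
  have hc : Commute (LieAlgebra.ad k L n : Module.End k L) (LieAlgebra.ad k L z) := by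
    ext v
    simp only [Module.End.mul_apply, LieAlgebra.ad_apply]
    rw [leibniz_lie n z v, hz, zero_lie, zero_add]
  have h2 : IsNilpotent ((LieAlgebra.ad k L n : Module.End k L) * (LieAlgebra.ad k L z)) :=
    hc.isNilpotent_mul_right hn
  rw [killingForm_apply_apply]
  exact (LinearMap.isNilpotent_trace_of_isNilpotent h2).eq_zero

/-- The trace of an endomorphism acting by scalars on the eigenspaces of a diagonalisable one. -/
theorem trace_eq_sum_of_eigenspaces {k : Type*} [Field k] {V : Type*} [AddCommGroup V]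
    [Module k V] [FiniteDimensional k V] (A B : Module.End k V)
    (hA : (⨆ μ, A.eigenspace μ) = ⊤) (c : k → k)
    (hB : ∀ μ, ∀ v ∈ A.eigenspace μ, B v = c μ • v) :
    LinearMap.trace k V B =
      ∑ μ ∈ (A.finite_hasEigenvalue).toFinset, c μ * (finrank k (A.eigenspace μ) : k) := by
  classical
  have hint : DirectSum.IsInternal (fun μ : k => A.eigenspace μ) := by
    rw [DirectSum.isInternal_submodule_iff_iSupIndep_and_iSup_eq_top]
    exact ⟨A.eigenspaces_iSupIndep, hA⟩
  have hfin : {μ : k | A.eigenspace μ ≠ ⊥}.Finite := by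
    refine A.finite_hasEigenvalue.subset fun μ hμ => ?_
    exact Module.End.hasEigenvalue_iff.mpr hμ
  have hmaps : ∀ μ, ∀ v ∈ A.eigenspace μ, B v ∈ A.eigenspace μ := by
    intro μ v hv
    rw [hB μ v hv]
    exact (A.eigenspace μ).smul_mem _ hv
  rw [LinearMap.trace_eq_sum_trace_restrict' hint hfin hmaps]
  have hset : hfin.toFinset = (A.finite_hasEigenvalue).toFinset := by
    ext μ
    simp only [Set.Finite.mem_toFinset, Set.mem_ofPred_eq]
    exact Module.End.hasEigenvalue_iff.symm
  rw [hset]
  refine Finset.sum_congr rfl fun μ _ => ?_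
  have h1 : B.restrict (hmaps μ) = c μ • (1 : Module.End k (A.eigenspace μ)) := by
    ext v
    exact hB μ v v.2
  rw [h1, map_smul, LinearMap.trace_one, smul_eq_mul]

omit [IsAlgClosed k] in
theorem eq_zero_of_killing_gr_zero {w : L} (hw : Diag k w) {b : L}
    (hb : b ∈ gr k w 0) (h : ∀ y ∈ gr k w 0, killingForm k L b y = 0) : b = 0 := by
  have h1 : ∀ y : L, killingForm k L b y = 0 := by
    intro y
    have hy : y ∈ ⨆ q : ℚ, gr k w q := by rw [show (⨆ q : ℚ, gr k w q) = ⊤ from hw]; trivial
    induction hy using Submodule.iSup_induction' with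
    | zero => simp
    | add a c _ _ ha hc => rw [map_add, ha, hc, add_zero]
    | mem q y hy =>
      rcases eq_or_ne q 0 with rfl | hq
      · exact h y hy
      · exact killing_gr hb hy (by simpa using hq)
  have h2 : b ∈ LinearMap.ker (killingForm k L) := by
    rw [LinearMap.mem_ker]; ext y; exact h1 y
  rwa [LieAlgebra.IsKilling.ker_killingForm_eq_bot, Submodule.mem_bot] at h2

/-- The Killing form is nondegenerate on the bicentraliser of a semisimple element. -/
theorem bic_nondeg {s : L} (hs : (LieAlgebra.ad k L s : Module.End k L).IsSemisimple) {z : L}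
    (hz : z ∈ bic k s) (h : ∀ z' ∈ bic k s, killingForm k L z z' = 0) : z = 0 := by
  classical
  obtain ⟨a, b, hzab, hab, ha, hb, -, hgen⟩ := exists_jordan (E := k) z
  obtain ⟨w, hw, hw0, -⟩ := exists_grading hs
  have hsz : ⁅s, z⁆ = 0 := by rw [← lie_skew, (mem_bic k).mp hz s (lie_self s), neg_zero]
  have ha' : a ∈ bic k s := by
    intro v hv
    have h1 := (mem_bic k).mp hz v hv
    have h2 : v ∈ Module.End.maxGenEigenspace (LieAlgebra.ad k L z : Module.End k L) 0 := by
      rw [Module.End.mem_maxGenEigenspace]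
      exact ⟨1, by simpa using h1⟩
    rw [hgen, Module.End.mem_eigenspace_iff, zero_smul] at h2
    exact h2
  have hb' : b ∈ bic k s := by
    have : b = z - a := by rw [hzab]; abel
    rw [this]; exact sub_mem hz ha'
  have hb0 : b = 0 := by
    have hbs : b ∈ gr k w 0 := by
      rw [hw0, mem_cen, ← lie_skew, (mem_bic k).mp hb' s (lie_self s), neg_zero]
    refine eq_zero_of_killing_gr_zero hw hbs fun y hy => ?_
    rw [hw0, mem_cen] at hy
    exact killing_eq_zero_of_nilpotent hb ((mem_bic k).mp hb' y hy)
  have hza : z = a := by rw [hzab, hb0, add_zero]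
  subst hza
  set A : Module.End k L := (LieAlgebra.ad k L z : Module.End k L) with hA
  have hfin := Module.End.finite_hasEigenvalue A
  obtain ⟨φ, hφ⟩ := exists_addMonoidHom_rat (hfin.toFinset.erase 0) (by simp)
  obtain ⟨v, -, hvz⟩ := exists_replica ha φ
  have hv : v ∈ bic k s := by
    intro y hy
    have := hvz 0 y (by simpa using (mem_bic k).mp hz y hy)
    simpa using this
  have h1 := h v hv
  rw [killingForm_apply_apply] at h1
  have h2 := trace_eq_sum_of_eigenspaces A
    ((LieAlgebra.ad k L z : Module.End k L) ∘ₗ (LieAlgebra.ad k L v : Module.End k L))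
    ha.iSup_eigenspace_eq_top (fun μ => ((φ μ : ℚ) : k) * μ) (by
      intro μ y hy
      rw [Module.End.mem_eigenspace_iff, hA, LieAlgebra.ad_apply] at hy
      rw [LinearMap.comp_apply, LieAlgebra.ad_apply, LieAlgebra.ad_apply, hvz μ y hy, lie_smul, hy,
        smul_smul])
  rw [h1] at h2
  have h3 := congrArg φ h2.symm
  rw [map_sum, map_zero] at h3
  have h4 : ∀ μ ∈ hfin.toFinset, φ (((φ μ : ℚ) : k) * μ * (finrank k (A.eigenspace μ) : k)) =
      (φ μ) ^ 2 * (finrank k (A.eigenspace μ) : ℚ) := by
    intro μ _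
    have h5 : ((φ μ : ℚ) : k) * μ * (finrank k (A.eigenspace μ) : k) =
        ((φ μ) * (finrank k (A.eigenspace μ) : ℚ)) • μ := by
      rw [Rat.smul_def]; push_cast; ring
    rw [h5, map_rat_smul φ, smul_eq_mul]; ring
  rw [Finset.sum_congr rfl h4] at h3
  have h5 := (Finset.sum_eq_zero_iff_of_nonneg (fun μ _ => by positivity)).mp h3
  have h6 : A = 0 := by
    rw [ha.eq_zero_iff_forall_eigenvalue]
    intro μ hμ
    by_contra hμ0
    have hmem : μ ∈ hfin.toFinset := hfin.mem_toFinset.mpr hμ
    have h7 := h5 μ hmem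
    have h8 : φ μ ≠ 0 := hφ μ (Finset.mem_erase.mpr ⟨hμ0, hmem⟩)
    have h9 : (finrank k (A.eigenspace μ) : ℚ) ≠ 0 := by
      have : 0 < finrank k (A.eigenspace μ) := by
        rw [Module.finrank_pos_iff, Submodule.nontrivial_iff_ne_bot]
        exact Module.End.hasEigenvalue_iff.mp hμ
      exact_mod_cast this.ne'
    exact (mul_ne_zero (pow_ne_zero 2 h8) h9) h7
  refine eq_zero_of_killing_gr_zero hw (by rw [hw0, mem_cen]; exact hsz) fun y _ => ?_
  rw [killingForm_apply_apply, ← hA, h6]; simp

end
end F80
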