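import Mathlib
/-! Part C, module RK: semicontinuity of ranks along lines, and other linear algebra. -/
open Module Polynomial
namespace F80

section
variable {k : Type*} [Field k] {V W : Type*} [AddCommGroup V] [Module k V]
  [AddCommGroup W] [Module k W]

/-- A family of linear maps with polynomial matrix coefficients. -/
def PolyFam (A : k → (V →ₗ[k] W)) : Prop :=
  ∀ (v : V) (μ : Dual k W), ∃ p : k[X], ∀ t, p.eval t = μ (A t v)

theorem PolyFam.line (A B : V →ₗ[k] W) : PolyFam (fun t : k => A + t • B) := by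
  intro v μ
  refine ⟨C (μ (A v)) + X * C (μ (B v)), fun t => ?_⟩
  rw [eval_add, eval_C, eval_mul, eval_X, eval_C]
  show _ = μ (A v + t • B v)
  rw [map_add, map_smul, smul_eq_mul]

theorem PolyFam.pow [FiniteDimensional k V] {A : k → Module.End k V} (hA : PolyFam A) (N : ℕ) :
    PolyFam (fun t => (A t) ^ N) := by
  induction N with
  | zero =>
    intro v μ
    exact ⟨C (μ v), fun t => by simp⟩
  | succ N ih =>
    intro v μ
    let e := Module.finBasis k V
    choose p hp using fun i => hA v (e.coord i)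
    choose q hq using fun i => ih (e i) μ
    refine ⟨∑ i, p i * q i, fun t => ?_⟩
    rw [eval_finsetSum]
    have h1 : A t v = ∑ i, e.repr (A t v) i • e i := (e.sum_repr (A t v)).symm
    show _ = μ ((A t ^ (N + 1)) v)
    rw [pow_succ, Module.End.mul_apply, h1, map_sum, map_sum]
    refine Finset.sum_congr rfl (fun i _ => ?_)
    rw [eval_mul, hp, hq, map_smul, map_smul, smul_eq_mul]
    rfl

theorem PolyFam.comp_left {U : Type*} [AddCommGroup U] [Module k U] {A : k → (V →ₗ[k] W)}
    (hA : PolyFam A) (g : W →ₗ[k] U) : PolyFam (fun t => g ∘ₗ A t) := by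
  intro v μ
  exact hA v (μ ∘ₗ g)

theorem PolyFam.comp_right {U : Type*} [AddCommGroup U] [Module k U] {A : k → (V →ₗ[k] W)}
    (hA : PolyFam A) (g : U →ₗ[k] V) : PolyFam (fun t => A t ∘ₗ g) := by
  intro v μ
  exact hA (g v) μ

/-- a linear map of rank `r` induces the identity of `k ^ r` -/
theorem exists_section [FiniteDimensional k V] [FiniteDimensional k W] (A : V →ₗ[k] W) :
    ∃ r, r = finrank k (LinearMap.range A) ∧ ∃ (T : (Fin r → k) →ₗ[k] V)
      (S : W →ₗ[k] (Fin r → k)), ∀ c, S (A (T c)) = c := by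
  let e : LinearMap.range A ≃ₗ[k] (Fin (finrank k (LinearMap.range A)) → k) :=
    (Module.finBasis k (LinearMap.range A)).equivFun
  obtain ⟨g, hg⟩ := LinearMap.exists_rightInverse_of_surjective A.rangeRestrict
    (LinearMap.range_rangeRestrict A)
  obtain ⟨S, hS⟩ := LinearMap.exists_extend (p := LinearMap.range A) e.toLinearMap
  refine ⟨_, rfl, g ∘ₗ e.symm.toLinearMap, S, fun c => ?_⟩
  have h1 : A.rangeRestrict (g (e.symm c)) = e.symm c := LinearMap.congr_fun hg (e.symm c)
  have h2 : S ((LinearMap.range A).subtype (A.rangeRestrict (g (e.symm c)))) =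
    e (A.rangeRestrict (g (e.symm c))) := LinearMap.congr_fun hS _
  rw [h1, LinearEquiv.apply_symm_apply] at h2
  rw [← h1] at h2
  exact h2

/-- the determinant of a polynomial family -/
theorem PolyFam.det {r : ℕ} {A : k → ((Fin r → k) →ₗ[k] (Fin r → k))} (hA : PolyFam A) :
    ∃ P : k[X], ∀ t, P.eval t = LinearMap.det (A t) := by
  choose p hp using fun (i j : Fin r) => hA (Pi.single j 1) (LinearMap.proj i)
  refine ⟨Matrix.det (Matrix.of p), fun t => ?_⟩
  rw [← LinearMap.det_toMatrix', ← coe_evalRingHom, RingHom.map_det]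
  congr 1
  ext i j
  rw [LinearMap.toMatrix'_apply]
  show eval t (p i j) = _
  rw [hp]
  simp [LinearMap.proj_apply]

theorem finrank_range_comp_le [FiniteDimensional k W] {U : Type*} [AddCommGroup U] [Module k U]
    (f : V →ₗ[k] W) (g : U →ₗ[k] V) :
    finrank k (LinearMap.range (f ∘ₗ g)) ≤ finrank k (LinearMap.range f) :=
  Submodule.finrank_mono (LinearMap.range_comp_le_range g f)

theorem finrank_range_comp_le' [FiniteDimensional k V] {U : Type*} [AddCommGroup U] [Module k U]
    (f : V →ₗ[k] W) (g : W →ₗ[k] U) :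
    finrank k (LinearMap.range (g ∘ₗ f)) ≤ finrank k (LinearMap.range f) := by
  rw [LinearMap.range_comp]
  exact Submodule.finrank_map_le g (LinearMap.range f)

/-- The rank is lower semicontinuous along a polynomial family. -/
theorem PolyFam.rank_open [FiniteDimensional k V] [FiniteDimensional k W] {A : k → (V →ₗ[k] W)}
    (hA : PolyFam A) (t0 : k) :
    {t | finrank k (LinearMap.range (A t)) < finrank k (LinearMap.range (A t0))}.Finite := by
  obtain ⟨r, hr, T, S, hTS⟩ := exists_section (A t0)
  obtain ⟨P, hP⟩ := ((hA.comp_right T).comp_left S).det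
  have hP0 : P ≠ 0 := by
    intro h
    have := hP t0
    rw [h, eval_zero] at this
    have e : S ∘ₗ A t0 ∘ₗ T = LinearMap.id := LinearMap.ext hTS
    rw [e, LinearMap.det_id] at this
    exact zero_ne_one this
  refine (P.rootSet_finite k).subset (fun t ht => ?_)
  by_contra hn
  have h1 : P.eval t ≠ 0 := by
    intro h
    apply hn
    rw [mem_rootSet]
    refine ⟨hP0, ?_⟩
    rw [aeval_def, Algebra.algebraMap_self, eval₂_id]
    exact h
  rw [hP] at h1
  have h2 : Function.Injective (A t ∘ₗ T) := by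
    have h3 : Function.Injective (S ∘ₗ A t ∘ₗ T) :=
      (LinearMap.equivOfDetNeZero _ h1).injective
    exact Function.Injective.of_comp (f := S) h3
  have h4 : finrank k (LinearMap.range (A t ∘ₗ T)) = finrank k (LinearMap.range (A t0)) := by
    rw [LinearMap.finrank_range_of_inj h2, Module.finrank_fin_fun, hr]
  have h5 := finrank_range_comp_le (A t) T
  rw [h4] at h5
  exact absurd ht (not_lt.2 h5)

/-- A function is open along lines: it drops only at finitely many points of a line. -/
def LineOpen (k : Type*) [Field k] {L : Type*} [AddCommGroup L] [Module k L] (f : L → ℕ) : Prop :=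
  ∀ x y : L, {t : k | f (x + t • y) < f x}.Finite

theorem exists_max_nat {α : Type*} {E : Set α} (hE : E.Nonempty) (f : α → ℕ) (b : ℕ)
    (hb : ∀ x, f x ≤ b) : ∃ x ∈ E, ∀ y ∈ E, f y ≤ f x := by
  have h1 : BddAbove (f '' E) := ⟨b, by rintro _ ⟨x, _, rfl⟩; exact hb x⟩
  obtain ⟨x, hx, h2⟩ := Nat.sSup_mem (hE.image f) h1
  exact ⟨x, hx, fun y hy => h2 ▸ le_csSup h1 ⟨y, hy, rfl⟩⟩

/-- on the line from `x` to `y` all but finitely many points are as good as `x` -/
theorem LineOpen.left {f : V → ℕ} (h : LineOpen k f) (x y : V) :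
    {t : k | f (x + t • (y - x)) < f x}.Finite := h x (y - x)

/-- on the line from `x` to `y` all but finitely many points are as good as `y` -/
theorem LineOpen.right {f : V → ℕ} (h : LineOpen k f) (x y : V) :
    {t : k | f (x + t • (y - x)) < f y}.Finite := by
  have h1 := h y (x - y)
  refine (h1.image (fun s => 1 - s)).subset (fun t ht => ?_)
  refine ⟨1 - t, ?_, by ring⟩
  show f (y + (1 - t) • (x - y)) < f y
  have e : y + (1 - t) • (x - y) = x + t • (y - x) := by
    rw [sub_smul, one_smul, smul_sub, smul_sub]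
    abel
  rw [e]
  exact ht

theorem exists_common_max [Infinite k] (E : Submodule k V) {f1 f2 f3 : V → ℕ}
    (h1 : LineOpen k f1) (h2 : LineOpen k f2) (h3 : LineOpen k f3) (b : ℕ)
    (hb : ∀ x, f1 x ≤ b ∧ f2 x ≤ b ∧ f3 x ≤ b) :
    ∃ x ∈ E, ∀ y ∈ E, f1 y ≤ f1 x ∧ f2 y ≤ f2 x ∧ f3 y ≤ f3 x := by
  have hE : (E : Set V).Nonempty := ⟨0, E.zero_mem⟩
  obtain ⟨x1, m1, k1⟩ := exists_max_nat hE f1 b (fun x => (hb x).1)
  obtain ⟨x2, m2, k2⟩ := exists_max_nat hE f2 b (fun x => (hb x).2.1)
  obtain ⟨x3, m3, k3⟩ := exists_max_nat hE f3 b (fun x => (hb x).2.2)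
  have hl : ∀ (x y : V), x ∈ E → y ∈ E → ∀ t : k, x + t • (y - x) ∈ E := fun x y hx hy t =>
    E.add_mem hx (E.smul_mem t (E.sub_mem hy hx))
  obtain ⟨t, ht⟩ := ((h1.left x1 x2).union (h2.right x1 x2)).infinite_compl.nonempty
  rw [Set.mem_compl_iff, Set.mem_union, not_or] at ht
  obtain ⟨ht1, ht2⟩ := ht
  have ht1' : f1 x1 ≤ f1 (x1 + t • (x2 - x1)) := not_lt.1 ht1
  have ht2' : f2 x2 ≤ f2 (x1 + t • (x2 - x1)) := not_lt.1 ht2
  obtain ⟨x, hx⟩ : ∃ x, x = x1 + t • (x2 - x1) := ⟨_, rfl⟩
  rw [← hx] at ht1' ht2'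
  have mx : x ∈ E := hx ▸ hl x1 x2 m1 m2 t
  obtain ⟨s, hs⟩ := (((h1.left x x3).union (h2.left x x3)).union
    (h3.right x x3)).infinite_compl.nonempty
  rw [Set.mem_compl_iff, Set.mem_union, Set.mem_union, not_or, not_or] at hs
  obtain ⟨⟨hs1, hs2⟩, hs3⟩ := hs
  have hs1' : f1 x ≤ f1 (x + s • (x3 - x)) := not_lt.1 hs1
  have hs2' : f2 x ≤ f2 (x + s • (x3 - x)) := not_lt.1 hs2
  have hs3' : f3 x3 ≤ f3 (x + s • (x3 - x)) := not_lt.1 hs3
  refine ⟨x + s • (x3 - x), hl x x3 mx m3 s, fun y hy => ⟨?_, ?_, ?_⟩⟩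
  · exact (k1 y hy).trans (ht1'.trans hs1')
  · exact (k2 y hy).trans (ht2'.trans hs2')
  · exact (k3 y hy).trans hs3'

/-- Constant rank lemma. -/
theorem constant_rank [FiniteDimensional k V] [FiniteDimensional k W] {A B : V →ₗ[k] W}
    (h : {t : k | finrank k (LinearMap.range (A + t • B)) ≤
      finrank k (LinearMap.range A)}.Infinite)
    {v : V} (hv : A v = 0) : B v ∈ LinearMap.range A := by
  by_contra hB
  obtain ⟨r, hr, T, S, hTS⟩ := exists_section A
  let F : k → (((Fin r → k) × k) →ₗ[k] W) := fun t =>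
    ((A ∘ₗ T) ∘ₗ LinearMap.fst k (Fin r → k) k +
      (LinearMap.toSpanSingleton k W (B v)) ∘ₗ LinearMap.snd k (Fin r → k) k) +
      t • ((B ∘ₗ T) ∘ₗ LinearMap.fst k (Fin r → k) k)
  have hF : ∀ t y s, F t (y, s) = A (T y) + s • B v + t • B (T y) := fun t y s => rfl
  have hP : PolyFam F := PolyFam.line _ _
  have hinj : Function.Injective (F 0) := by
    rw [injective_iff_map_eq_zero]
    rintro ⟨y, s⟩ h0
    rw [hF, zero_smul, add_zero] at h0
    have hs : s = 0 := by
      by_contra hs
      apply hB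
      have e : B v = A (T (-(s⁻¹ • y))) := by
        rw [map_neg, map_neg, map_smul, map_smul, ← smul_neg, eq_inv_smul_iff₀ hs]
        exact (neg_eq_of_add_eq_zero_right h0).symm
      rw [e]
      exact ⟨_, rfl⟩
    rw [hs, zero_smul, add_zero] at h0
    have hy := hTS y
    rw [h0, map_zero] at hy
    rw [← hy, hs]
    rfl
  have h1 := hP.rank_open 0
  obtain ⟨t, ht, ht2⟩ := (h.sdiff (h1.union (Set.finite_singleton 0))).nonempty
  rw [Set.mem_union, not_or] at ht2
  obtain ⟨ht3, ht4⟩ := ht2
  have ht0 : t ≠ 0 := ht4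
  have ht3' : finrank k (LinearMap.range (F 0)) ≤ finrank k (LinearMap.range (F t)) :=
    not_lt.1 ht3
  have h2 : finrank k (LinearMap.range (F 0)) = r + 1 := by
    rw [LinearMap.finrank_range_of_inj hinj, Module.finrank_prod, Module.finrank_fin_fun,
      Module.finrank_self]
  have h3 : LinearMap.range (F t) ≤ LinearMap.range (A + t • B) := by
    rintro _ ⟨⟨y, s⟩, rfl⟩
    refine ⟨T y + (s * t⁻¹) • v, ?_⟩
    rw [hF, map_add, map_smul, LinearMap.add_apply, LinearMap.add_apply, LinearMap.smul_apply,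
      LinearMap.smul_apply, hv, zero_add, smul_smul, mul_assoc, inv_mul_cancel₀ ht0, mul_one]
    abel
  have h4 := Submodule.finrank_mono h3
  have h5 : finrank k (LinearMap.range (A + t • B)) ≤ finrank k (LinearMap.range A) := ht
  omega

/-- a vector valued polynomial function -/
theorem exists_coeffs {ι : Type*} [Fintype ι] (p : ι → k[X]) (v : ι → V) :
    ∃ (M : ℕ) (c : Fin M → V), ∀ t : k,
      ∑ i : Fin M, t ^ (i : ℕ) • c i = ∑ j, (p j).eval t • v j := by
  let M := ∑ j, ((p j).natDegree + 1)
  have hM : ∀ j, (p j).natDegree < M := fun j => by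
    have := Finset.single_le_sum (f := fun j => (p j).natDegree + 1)
      (fun i _ => Nat.zero_le _) (Finset.mem_univ j)
    exact Nat.lt_of_succ_le this
  refine ⟨M, fun i => ∑ j, (p j).coeff i • v j, fun t => ?_⟩
  have e1 : ∀ j, (p j).eval t • v j = ∑ i : Fin M, t ^ (i : ℕ) • ((p j).coeff i • v j) := by
    intro j
    rw [eval_eq_sum_range' (hM j), Finset.sum_range, Finset.sum_smul]
    refine Finset.sum_congr rfl (fun i _ => ?_)
    rw [smul_smul, mul_comm]
  simp_rw [e1, Finset.smul_sum]
  rw [Finset.sum_comm]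

/-- Deformation of a solution of a linear system of constant rank: the solution `h0` of
`A h = v` extends to a polynomial solution of `(A + t B) H = d(t) (v + t w)`. -/
theorem spec_solution [FiniteDimensional k V] [FiniteDimensional k W] {A B : V →ₗ[k] W}
    {v w : W} (h : {t : k | finrank k (LinearMap.range (A + t • B)) ≤
      finrank k (LinearMap.range A) ∧ v + t • w ∈ LinearMap.range (A + t • B)}.Infinite)
    {h0 : V} (h0v : A h0 = v) :
    ∃ (M : ℕ) (c : Fin M → V) (d : k[X]), d.eval 0 ≠ 0 ∧
      (∑ i : Fin M, (0 : k) ^ (i : ℕ) • c i) = d.eval 0 • h0 ∧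
      ∀ t : k, (A + t • B) (∑ i : Fin M, t ^ (i : ℕ) • c i) = d.eval t • (v + t • w) := by
  classical
  obtain ⟨r, hr, T, S, hTS⟩ := exists_section A
  let F : k → ((Fin r → k) →ₗ[k] (Fin r → k)) := fun t => S ∘ₗ (A + t • B) ∘ₗ T
  have hF : PolyFam F := ((PolyFam.line A B).comp_right T).comp_left S
  choose p hp using fun (i j : Fin r) => hF (Pi.single j 1) (LinearMap.proj i)
  let N : Matrix (Fin r) (Fin r) k[X] := Matrix.of p
  let b : Fin r → k[X] := fun i => X * C (S (w - B h0) i)
  let y : Fin r → k[X] := N.adjugate.mulVec b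
  let d : k[X] := N.det
  have hN : ∀ t, (evalRingHom t).mapMatrix N = LinearMap.toMatrix' (F t) := by
    intro t
    ext i j
    rw [LinearMap.toMatrix'_apply]
    show eval t (p i j) = _
    rw [hp]
    simp [LinearMap.proj_apply]
  have hd : ∀ t, d.eval t = (LinearMap.toMatrix' (F t)).det := by
    intro t
    rw [← hN, ← RingHom.map_det]
    rfl
  have hb : ∀ t, (fun i => (b i).eval t) = t • S (w - B h0) := by
    intro t
    funext i
    simp [b]
  have hy : ∀ t, (fun i => (y i).eval t) =
      (LinearMap.toMatrix' (F t)).adjugate.mulVec (t • S (w - B h0)) := by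
    intro t
    rw [← hN, ← RingHom.map_adjugate, ← hb]
    funext i
    show eval t (∑ j, N.adjugate i j * b j) = ∑ j, (evalRingHom t (N.adjugate i j)) * (b j).eval t
    rw [eval_finsetSum]
    exact Finset.sum_congr rfl (fun j _ => eval_mul)
  obtain ⟨M, c, hc⟩ := exists_coeffs (ι := Option (Fin r)) (V := V)
    (fun o => o.elim d y) (fun o => o.elim h0 (fun j => T (Pi.single j 1)))
  have hc' : ∀ t : k, ∑ i : Fin M, t ^ (i : ℕ) • c i =
      d.eval t • h0 + T (fun i => (y i).eval t) := by
    intro t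
    rw [hc, Fintype.sum_option]
    congr 1
    have : (fun i => (y i).eval t) = ∑ i, (y i).eval t • (Pi.single i 1 : Fin r → k) := by
      funext j
      simp [Finset.sum_apply, Pi.single_apply]
    rw [this, map_sum]
    refine Finset.sum_congr rfl (fun i _ => ?_)
    rw [map_smul]
    rfl
  have hd0 : d.eval 0 = 1 := by
    have e : F 0 = LinearMap.id := by
      refine LinearMap.ext (fun x => ?_)
      show S ((A + (0 : k) • B) (T x)) = x
      rw [zero_smul, add_zero]
      exact hTS x
    rw [hd, e, LinearMap.toMatrix'_id, Matrix.det_one]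
  refine ⟨M, c, d, by rw [hd0]; exact one_ne_zero, ?_, ?_⟩
  · rw [hc', hy, zero_smul, Matrix.mulVec_zero, map_zero, add_zero]
  · -- the identity for infinitely many parameters
    have key : ∀ t : k, d.eval t ≠ 0 → finrank k (LinearMap.range (A + t • B)) ≤ r →
        v + t • w ∈ LinearMap.range (A + t • B) →
        (A + t • B) (∑ i : Fin M, t ^ (i : ℕ) • c i) = d.eval t • (v + t • w) := by
      intro t hdt hrt hvt
      have hinj : Function.Injective ((A + t • B) ∘ₗ T) := by
        have h3 : Function.Injective (F t) := by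
          have : LinearMap.det (F t) ≠ 0 := by
            rw [← LinearMap.det_toMatrix', ← hd]
            exact hdt
          exact (LinearMap.equivOfDetNeZero _ this).injective
        exact Function.Injective.of_comp (f := S) h3
      have hrange : LinearMap.range ((A + t • B) ∘ₗ T) = LinearMap.range (A + t • B) := by
        refine Submodule.eq_of_le_of_finrank_le (LinearMap.range_comp_le_range _ _) ?_
        rw [LinearMap.finrank_range_of_inj hinj, Module.finrank_fin_fun]
        exact hrt
      have h5 : t • (w - B h0) ∈ LinearMap.range ((A + t • B) ∘ₗ T) := by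
        rw [hrange]
        have e : t • (w - B h0) = (v + t • w) - (A + t • B) h0 := by
          rw [LinearMap.add_apply, LinearMap.smul_apply, h0v, smul_sub]
          abel
        rw [e]
        exact Submodule.sub_mem _ hvt ⟨h0, rfl⟩
      obtain ⟨z, hz⟩ := h5
      have hz' : (A + t • B) (T z) = t • (w - B h0) := hz
      have e2 : t • S (w - B h0) = (LinearMap.toMatrix' (F t)).mulVec z := by
        rw [LinearMap.toMatrix'_mulVec]
        show _ = S ((A + t • B) (T z))
        rw [hz', map_smul]
      have e3 : (fun i => (y i).eval t) = d.eval t • z := by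
        rw [hy, e2, Matrix.mulVec_mulVec, Matrix.adjugate_mul, hd, Matrix.smul_mulVec,
          Matrix.one_mulVec]
      rw [hc', e3, map_add, map_smul, map_smul, map_smul, hz', ← smul_add]
      congr 1
      rw [LinearMap.add_apply, LinearMap.smul_apply, h0v, smul_sub]
      abel
    -- polynomial identity
    intro t
    rw [← sub_eq_zero]
    rw [← Module.forall_dual_apply_eq_zero_iff k]
    intro μ
    let q : k[X] := (∑ i : Fin M, X ^ (i : ℕ) * (C (μ (A (c i))) + X * C (μ (B (c i))))) -
      d * (C (μ v) + X * C (μ w))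
    have hq : ∀ t : k, q.eval t = μ ((A + t • B) (∑ i : Fin M, t ^ (i : ℕ) • c i) -
        d.eval t • (v + t • w)) := by
      intro t
      rw [map_sub, map_sum, map_sum, map_smul]
      simp only [q, eval_sub, eval_mul, eval_add, eval_C, eval_X, eval_finsetSum, eval_pow,
        map_smul, LinearMap.add_apply, LinearMap.smul_apply, map_add, smul_eq_mul]
    have hq0 : q = 0 := by
      have h6 : {t : k | d.IsRoot t}.Finite := by
        refine finite_setOfPred_isRoot ?_
        intro hd1
        rw [hd1, eval_zero] at hd0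
        exact zero_ne_one hd0
      refine eq_zero_of_infinite_isRoot q ((h.sdiff h6).mono ?_)
      rintro t ⟨⟨h7, h8⟩, h9⟩
      show q.eval t = 0
      rw [hq, key t h9 (hr ▸ h7) h8, sub_self, map_zero]
    rw [← hq, hq0, eval_zero]

theorem finrank_range_domRestrict_le [FiniteDimensional k V] (f : V →ₗ[k] W)
    (U : Submodule k V) :
    finrank k (LinearMap.range f) + finrank k U ≤
      finrank k V + finrank k (LinearMap.range (f ∘ₗ U.subtype)) := by
  have h1 := LinearMap.finrank_range_add_finrank_ker f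
  have h2 := LinearMap.finrank_range_add_finrank_ker (f ∘ₗ U.subtype)
  have h3 : finrank k (LinearMap.ker (f ∘ₗ U.subtype)) ≤ finrank k (LinearMap.ker f) := by
    have e : ∀ x : LinearMap.ker (f ∘ₗ U.subtype), U.subtype x ∈ LinearMap.ker f := fun x => x.2
    refine LinearMap.finrank_le_finrank_of_injective
      (f := LinearMap.codRestrict (LinearMap.ker f)
        (U.subtype ∘ₗ (LinearMap.ker (f ∘ₗ U.subtype)).subtype) e) ?_
    intro x y hxy
    have this := congrArg Subtype.val hxy
    exact Subtype.ext (Subtype.ext this)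
  omega

theorem finrank_range_comp_ge [FiniteDimensional k V] [FiniteDimensional k W] {U : Type*}
    [AddCommGroup U] [Module k U] (f : V →ₗ[k] W) (g : W →ₗ[k] U) :
    finrank k (LinearMap.range f) ≤
      finrank k (LinearMap.range (g ∘ₗ f)) + finrank k (LinearMap.ker g) := by
  have h1 := LinearMap.finrank_range_add_finrank_ker (g ∘ₗ (LinearMap.range f).subtype)
  have h2 : LinearMap.range (g ∘ₗ (LinearMap.range f).subtype) = LinearMap.range (g ∘ₗ f) := by
    rw [LinearMap.range_comp, LinearMap.range_comp, Submodule.range_subtype]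
  have h3 : finrank k (LinearMap.ker (g ∘ₗ (LinearMap.range f).subtype)) ≤
      finrank k (LinearMap.ker g) := by
    have e : ∀ x : LinearMap.ker (g ∘ₗ (LinearMap.range f).subtype),
      (LinearMap.range f).subtype x ∈ LinearMap.ker g := fun x => x.2
    refine LinearMap.finrank_le_finrank_of_injective
      (f := LinearMap.codRestrict (LinearMap.ker g) ((LinearMap.range f).subtype ∘ₗ
        (LinearMap.ker (g ∘ₗ (LinearMap.range f).subtype)).subtype) e) ?_
    intro x y hxy
    have this := congrArg Subtype.val hxy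
    exact Subtype.ext (Subtype.ext this)
  rw [h2] at h1
  omega

theorem domRestrict₁₂_eq (Q : V →ₗ[k] V →ₗ[k] k) (U : Submodule k V) :
    Q.domRestrict₁₂ U U = (U.subtype.dualMap) ∘ₗ (Q ∘ₗ U.subtype) := by
  ext x y
  rfl

/-- The rank of a bilinear form and of its restriction. -/
theorem finrank_range_le_domRestrict [FiniteDimensional k V] (Q : V →ₗ[k] V →ₗ[k] k)
    (U : Submodule k V) :
    finrank k (LinearMap.range Q) + 2 * finrank k U ≤
      2 * finrank k V + finrank k (LinearMap.range (Q.domRestrict₁₂ U U)) := by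
  have h6 : finrank k (LinearMap.range (Q.domRestrict₁₂ U U)) =
      finrank k (LinearMap.range (U.subtype.dualMap ∘ₗ (Q ∘ₗ U.subtype))) := by
    rw [domRestrict₁₂_eq]
  have h1 := finrank_range_domRestrict_le Q U
  have h2 : finrank k (LinearMap.range (Q ∘ₗ U.subtype)) ≤
      finrank k (LinearMap.range (U.subtype.dualMap ∘ₗ (Q ∘ₗ U.subtype))) +
      finrank k (LinearMap.ker U.subtype.dualMap) :=
    finrank_range_comp_ge (Q ∘ₗ U.subtype) (U.subtype.dualMap)
  have h3 := LinearMap.finrank_range_add_finrank_ker (U.subtype.dualMap)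
  have h4 : finrank k (LinearMap.range (U.subtype.dualMap)) = finrank k U := by
    rw [LinearMap.finrank_range_dualMap_eq_finrank_range, Submodule.range_subtype]
  have h5 : finrank k (Dual k V) = finrank k V := Subspace.dual_finrank_eq
  omega

theorem finrank_range_domRestrict_mono [FiniteDimensional k V] (Q : V →ₗ[k] V →ₗ[k] k)
    {U U' : Submodule k V} (h : U ≤ U') :
    finrank k (LinearMap.range (Q.domRestrict₁₂ U U)) ≤
      finrank k (LinearMap.range (Q.domRestrict₁₂ U' U')) := by
  have e : Q.domRestrict₁₂ U U = ((Submodule.inclusion h).dualMap) ∘ₗ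
      ((Q.domRestrict₁₂ U' U') ∘ₗ (Submodule.inclusion h)) := by
    ext x y
    rfl
  rw [e]
  exact (finrank_range_comp_le' _ _).trans (finrank_range_comp_le _ _)

/-- The rank of a pull back of a bilinear form. -/
theorem finrank_range_compl₁₂_le [FiniteDimensional k V] [FiniteDimensional k W]
    (Q : V →ₗ[k] V →ₗ[k] k) (g : W →ₗ[k] V) :
    finrank k (LinearMap.range (Q.compl₁₂ g g)) ≤ finrank k (LinearMap.range Q) := by
  have e : Q.compl₁₂ g g = (g.dualMap) ∘ₗ (Q ∘ₗ g) := by
    ext x y
    rfl
  rw [e]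
  exact (finrank_range_comp_le' _ _).trans (finrank_range_comp_le _ _)

/-- Rank of a pencil of forms with skew `A`: `rank (A + t B) ≥ rank A + rank (B | ker A)`. -/
theorem rank_pencil [Infinite k] [FiniteDimensional k V] (A B : V →ₗ[k] V →ₗ[k] k)
    (hA : ∀ x y, A x y = - A y x) :
    ∃ t : k, finrank k (LinearMap.range A) +
      finrank k (LinearMap.range (B.domRestrict₁₂ (LinearMap.ker A) (LinearMap.ker A))) ≤
      finrank k (LinearMap.range (A + t • B)) := by
  obtain ⟨r, hr, T, S, hTS⟩ := exists_section A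
  obtain ⟨p, hp, T', S', hTS'⟩ :=
    exists_section (B.domRestrict₁₂ (LinearMap.ker A) (LinearMap.ker A))
  rw [← hr, ← hp]
  let F : k → (((Fin r → k) × (Fin p → k)) →ₗ[k] Dual k V) := fun t =>
    ((A ∘ₗ T) ∘ₗ LinearMap.fst k (Fin r → k) (Fin p → k) +
      (B ∘ₗ (LinearMap.ker A).subtype ∘ₗ T') ∘ₗ LinearMap.snd k (Fin r → k) (Fin p → k)) +
      t • ((B ∘ₗ T) ∘ₗ LinearMap.fst k (Fin r → k) (Fin p → k))
  have hF : ∀ t y z, F t (y, z) = A (T y) + B (T' z : V) + t • B (T y) := fun t y s => rfl
  have hP : PolyFam F := PolyFam.line _ _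
  have hinj : Function.Injective (F 0) := by
    rw [injective_iff_map_eq_zero]
    rintro ⟨y, z⟩ h0
    rw [hF, zero_smul, add_zero] at h0
    have h1 : B.domRestrict₁₂ (LinearMap.ker A) (LinearMap.ker A) (T' z) = 0 := by
      refine LinearMap.ext (fun u => ?_)
      show B (T' z : V) (u : V) = 0
      have h2 : (A (T y) + B (T' z : V)) (u : V) = 0 := by rw [h0]; rfl
      rw [LinearMap.add_apply, hA] at h2
      have h3 : A (u : V) = 0 := u.2
      rw [h3, LinearMap.zero_apply, neg_zero, zero_add] at h2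
      exact h2
    have hz := hTS' z
    rw [h1, map_zero] at hz
    have hz' : (T' z : V) = 0 := by
      rw [← hz, map_zero]
      rfl
    rw [hz', map_zero, add_zero] at h0
    have hy := hTS y
    rw [h0, map_zero] at hy
    rw [← hy, ← hz]
    rfl
  obtain ⟨t, ht⟩ := ((hP.rank_open 0).union (Set.finite_singleton 0)).infinite_compl.nonempty
  rw [Set.mem_compl_iff, Set.mem_union, not_or] at ht
  obtain ⟨ht3, ht4⟩ := ht
  have ht0 : t ≠ 0 := ht4
  have ht3' : finrank k (LinearMap.range (F 0)) ≤ finrank k (LinearMap.range (F t)) :=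
    not_lt.1 ht3
  have h2 : finrank k (LinearMap.range (F 0)) = r + p := by
    rw [LinearMap.finrank_range_of_inj hinj, Module.finrank_prod, Module.finrank_fin_fun,
      Module.finrank_fin_fun]
  refine ⟨t, ?_⟩
  rw [← h2]
  refine ht3'.trans (Submodule.finrank_mono ?_)
  rintro _ ⟨⟨y, z⟩, rfl⟩
  refine ⟨T y + t⁻¹ • (T' z : V), ?_⟩
  have hz : A (T' z : V) = 0 := (T' z).2
  rw [hF, map_add, map_smul, LinearMap.add_apply, LinearMap.add_apply, LinearMap.smul_apply,
    LinearMap.smul_apply, hz, zero_add, smul_smul, inv_mul_cancel₀ ht0, one_smul]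
  abel

end

section lie
variable {k : Type*} [Field k] {L : Type*} [LieRing L] [LieAlgebra k L] [FiniteDimensional k L]

theorem lineOpen_rank_ad_pow (N : ℕ) : LineOpen k (fun x : L =>
    finrank k (LinearMap.range ((LieAlgebra.ad k L x : Module.End k L) ^ N))) := by
  intro x y
  have h := ((PolyFam.line (LieAlgebra.ad k L x : Module.End k L)
    (LieAlgebra.ad k L y : Module.End k L)).pow N).rank_open 0
  refine h.subset (fun t ht => ?_)
  have ht' : finrank k (LinearMap.range ((LieAlgebra.ad k L (x + t • y) : Module.End k L) ^ N)) <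
    finrank k (LinearMap.range ((LieAlgebra.ad k L x : Module.End k L) ^ N)) := ht
  rw [map_add, map_smul] at ht'
  show finrank k (LinearMap.range (((LieAlgebra.ad k L x : Module.End k L) +
    t • (LieAlgebra.ad k L y : Module.End k L)) ^ N)) <
    finrank k (LinearMap.range (((LieAlgebra.ad k L x : Module.End k L) +
    (0 : k) • (LieAlgebra.ad k L y : Module.End k L)) ^ N))
  rw [zero_smul, add_zero]
  exact ht'

end lie

end F80
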