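import Pool.Agent.H42.C80.JR
/-! Part C, module SL: `sl2`-triples. -/
open Module
namespace F80

/-- `(n, h, f)` is an `sl2`-triple (possibly zero). -/
structure Tri (k : Type*) [Field k] {L : Type*} [LieRing L] [LieAlgebra k L] (n h f : L) :
    Prop where
  hn : ⁅h, n⁆ = (2 : k) • n
  nf : ⁅n, f⁆ = h
  hf : ⁅h, f⁆ = -((2 : k) • f)

section ring
attribute [local instance 100] LieRing.ofAssociativeRing
variable {k : Type*} [Field k] [CharZero k] {R : Type*} [Ring R] [Algebra k R]

omit [CharZero k] in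
/-- Leibniz rule for iterated commutators with a factor of order one. -/
theorem ad_pow_mul {A B : R} (hC : ⁅A, ⁅A, B⁆⁆ = 0) (m : ℕ) (X : R) :
    ((LieAlgebra.ad k R A : Module.End k R) ^ (m + 1)) (B * X) =
      B * ((LieAlgebra.ad k R A : Module.End k R) ^ (m + 1)) X +
        ((m : k) + 1) • (⁅A, B⁆ * ((LieAlgebra.ad k R A : Module.End k R) ^ m) X) := by
  have hL : ∀ Y Z : R, ⁅A, Y * Z⁆ = ⁅A, Y⁆ * Z + Y * ⁅A, Z⁆ := by
    intro Y Z
    simp only [LieRing.of_associative_ring_bracket]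
    noncomm_ring
  induction m with
  | zero =>
    simp only [zero_add, pow_one, pow_zero, LieAlgebra.ad_apply, Module.End.one_apply, hL,
      Nat.cast_zero, one_smul]
    rw [add_comm]
  | succ m ih =>
    have e0 : ∀ Y : R, ((LieAlgebra.ad k R A : Module.End k R) ^ (m + 1 + 1)) Y =
        ⁅A, ((LieAlgebra.ad k R A : Module.End k R) ^ (m + 1)) Y⁆ := by
      intro Y
      rw [pow_succ' _ (m + 1), Module.End.mul_apply, LieAlgebra.ad_apply]
    have hS : ∀ (c : k) (Y : R), ⁅A, c • Y⁆ = c • ⁅A, Y⁆ := by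
      intro c Y
      simp only [LieRing.of_associative_ring_bracket, mul_smul_comm, smul_mul_assoc, smul_sub]
    rw [e0, ih, lie_add, hL, hS, hL, hC, zero_mul, zero_add]
    have e1 : ⁅A, ((LieAlgebra.ad k R A : Module.End k R) ^ (m + 1)) X⁆ =
        ((LieAlgebra.ad k R A : Module.End k R) ^ (m + 1 + 1)) X := by
      rw [pow_succ' _ (m + 1), Module.End.mul_apply, LieAlgebra.ad_apply]
    have e2 : ⁅A, ((LieAlgebra.ad k R A : Module.End k R) ^ m) X⁆ =
        ((LieAlgebra.ad k R A : Module.End k R) ^ (m + 1)) X := by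
      rw [pow_succ' _ m, Module.End.mul_apply, LieAlgebra.ad_apply]
    rw [e1, e2]
    push_cast
    module

theorem ad_pow_pow {A B : R} (hC : ⁅A, ⁅A, B⁆⁆ = 0) (j : ℕ) :
    ((LieAlgebra.ad k R A : Module.End k R) ^ j) (B ^ j) = (j.factorial : k) • ⁅A, B⁆ ^ j ∧
    ((LieAlgebra.ad k R A : Module.End k R) ^ (j + 1)) (B ^ j) = 0 := by
  induction j with
  | zero =>
    simp [LieAlgebra.ad_apply, LieRing.of_associative_ring_bracket]
  | succ j ih =>
    constructor
    · rw [pow_succ' B, ad_pow_mul hC, ih.2, mul_zero, zero_add, ih.1, mul_smul_comm, smul_smul,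
        pow_succ' ⁅A, B⁆, Nat.factorial_succ]
      push_cast
      rfl
    · rw [pow_succ' B, ad_pow_mul hC, ih.2, mul_zero, smul_zero, add_zero]
      rw [pow_succ', Module.End.mul_apply, ih.2, map_zero, mul_zero]

/-- Jacobson's lemma. -/
theorem isNilpotent_comm (k : Type*) [Field k] [CharZero k] {R : Type*} [Ring R] [Algebra k R]
    {A B : R} (hA : IsNilpotent A) (hC : ⁅A, ⁅A, B⁆⁆ = 0) :
    IsNilpotent ⁅A, B⁆ := by
  obtain ⟨N, hN⟩ := LieAlgebra.ad_nilpotent_of_nilpotent (R := k) hA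
  refine ⟨N, ?_⟩
  have h := (ad_pow_pow (k := k) hC N).1
  rw [hN, LinearMap.zero_apply] at h
  have hf : ((N.factorial : k)) ≠ 0 := by exact_mod_cast N.factorial_ne_zero
  have : IsDomain k := inferInstance
  have h2 : ((N.factorial : k))⁻¹ • ((N.factorial : k) • ⁅A, B⁆ ^ N) = 0 := by
    rw [← h, smul_zero]
  rwa [smul_smul, inv_mul_cancel₀ hf, one_smul] at h2

omit [CharZero k] in
theorem pow_mul_aux {A B : R} (hC : ⁅A, ⁅A, B⁆⁆ = 0) (i : ℕ) :
    A ^ (i + 1) * B = B * A ^ (i + 1) + ((i : k) + 1) • (⁅A, B⁆ * A ^ i) := by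
  have hC' : A * ⁅A, B⁆ = ⁅A, B⁆ * A := by
    rwa [LieRing.of_associative_ring_bracket A ⁅A, B⁆, sub_eq_zero] at hC
  induction i with
  | zero =>
    simp [LieRing.of_associative_ring_bracket]
  | succ i ih =>
    rw [pow_succ' A (i + 1), mul_assoc, ih, mul_add, mul_smul_comm, ← mul_assoc A ⁅A, B⁆, hC']
    have e : A * (B * A ^ (i + 1)) = B * (A * A ^ (i + 1)) + ⁅A, B⁆ * A ^ (i + 1) := by
      rw [LieRing.of_associative_ring_bracket]
      noncomm_ring
    rw [e, mul_assoc _ A, ← pow_succ' A i]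
    push_cast
    module

theorem isNilpotent_mul_aux (k : Type*) [Field k] [CharZero k] {R : Type*} [Ring R] [Algebra k R]
    {A B : R} (hA : IsNilpotent A) (hC : ⁅A, ⁅A, B⁆⁆ = 0) :
    IsNilpotent (A * B) := by
  obtain ⟨p, hp⟩ := isNilpotent_comm k hA hC
  obtain ⟨N, hN⟩ := hA
  have hC' : A * ⁅A, B⁆ = ⁅A, B⁆ * A := by
    rwa [LieRing.of_associative_ring_bracket A ⁅A, B⁆, sub_eq_zero] at hC
  have hCi : ∀ i, A ^ i * ⁅A, B⁆ = ⁅A, B⁆ * A ^ i := fun i =>
    ((show Commute A ⁅A, B⁆ from hC').pow_left i)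
  -- one step
  have step : ∀ (i : ℕ) (X : R), A ^ (i + 1) * X = 0 →
      A ^ i * ((A * B) * X) = ((i : k) + 1) • (⁅A, B⁆ * (A ^ i * X)) := by
    intro i X hX
    rw [← mul_assoc, ← mul_assoc, ← pow_succ, pow_mul_aux (k := k) hC, add_mul, mul_assoc B, hX,
      mul_zero, zero_add, smul_mul_assoc, mul_assoc]
  have stay : ∀ (i : ℕ) (X : R), A ^ (i + 1) * X = 0 → A ^ (i + 1) * ((A * B) * X) = 0 := by
    intro i X hX
    rw [pow_succ', mul_assoc, step i X hX, mul_smul_comm, ← mul_assoc, hC', mul_assoc,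
      ← mul_assoc A, ← pow_succ', hX, mul_zero, smul_zero]
  have it : ∀ (i q : ℕ) (X : R), A ^ (i + 1) * X = 0 →
      A ^ (i + 1) * ((A * B) ^ q * X) = 0 ∧
      A ^ i * ((A * B) ^ q * X) = ((i : k) + 1) ^ q • (⁅A, B⁆ ^ q * (A ^ i * X)) := by
    intro i q X hX
    induction q with
    | zero => simp [hX]
    | succ q ih =>
      constructor
      · rw [pow_succ' (A * B), mul_assoc (A * B)]
        exact stay i _ ih.1
      · rw [pow_succ' (A * B), mul_assoc (A * B), step i _ ih.1, ih.2, mul_smul_comm, smul_smul,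
          ← mul_assoc, ← pow_succ', ← pow_succ']
  have drop : ∀ (i : ℕ) (X : R), A ^ (i + 1) * X = 0 → A ^ i * ((A * B) ^ p * X) = 0 := by
    intro i X hX
    rw [(it i p X hX).2, hp, zero_mul, smul_zero]
  have fin : ∀ (i : ℕ) (X : R), A ^ i * X = 0 → (A * B) ^ (p * i) * X = 0 := by
    intro i
    induction i with
    | zero => intro X hX; simpa using hX
    | succ i ih =>
      intro X hX
      rw [mul_add, mul_one, pow_add, mul_assoc]
      exact ih _ (drop i X hX)
  exact ⟨p * N, by simpa using fin N 1 (by rw [hN, zero_mul])⟩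


theorem isNilpotent_ad_mul_ad {L : Type*} [LieRing L] [LieAlgebra k L] {n y : L}
    (hn : IsNilpotent (LieAlgebra.ad k L n : Module.End k L)) (hy : ⁅n, ⁅n, y⁆⁆ = 0) :
    IsNilpotent ((LieAlgebra.ad k L n : Module.End k L) * LieAlgebra.ad k L y) := by
  have hC : ⁅(LieAlgebra.ad k L n : Module.End k L), ⁅(LieAlgebra.ad k L n : Module.End k L),
      (LieAlgebra.ad k L y : Module.End k L)⁆⁆ = 0 := by
    rw [← LieHom.map_lie, ← LieHom.map_lie, hy, map_zero]
  exact isNilpotent_mul_aux k hn hC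

end ring

section
variable {k : Type*} [Field k] [CharZero k] {L : Type*} [LieRing L] [LieAlgebra k L]
  [FiniteDimensional k L]

/-- Classical lemma: `[n,[n,y]] = 0` and `n` nilpotent imply `κ(n,y) = 0`. -/
theorem killing_eq_zero_of_lie_lie {n y : L}
    (hn : IsNilpotent (LieAlgebra.ad k L n : Module.End k L)) (hy : ⁅n, ⁅n, y⁆⁆ = 0) :
    killingForm k L n y = 0 := by
  rw [killingForm_apply_apply]
  exact (LinearMap.isNilpotent_trace_of_isNilpotent (isNilpotent_ad_mul_ad hn hy)).eq_zero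

end

section
variable {k : Type*} [Field k] {L : Type*} [LieRing L] [LieAlgebra k L]
  [FiniteDimensional k L]

/-- For semisimple `ad s` the algebra is the sum of the centraliser and of the image. -/
theorem exists_add_lie {s : L} (hs : (LieAlgebra.ad k L s : Module.End k L).IsSemisimple)
    (z : L) : ∃ a u : L, ⁅s, a⁆ = 0 ∧ z = a + ⁅s, u⁆ := by
  set T : Module.End k L := LieAlgebra.ad k L s with hT
  obtain ⟨q, hq, hc⟩ := Module.End.isSemisimple_iff.1 hs (LinearMap.ker T) (by
    rw [Module.End.mem_invtSubmodule]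
    intro x hx
    rw [Submodule.mem_comap, LinearMap.mem_ker, LinearMap.mem_ker.1 hx, map_zero])
  rw [Module.End.mem_invtSubmodule] at hq
  have hinj : Set.InjOn T q := by
    intro x hx y hy hxy
    have h1 : x - y ∈ LinearMap.ker T ⊓ q :=
      ⟨LinearMap.mem_ker.2 (by rw [map_sub, hxy, sub_self]), sub_mem hx hy⟩
    rw [hc.inf_eq_bot, Submodule.mem_bot] at h1
    exact sub_eq_zero.1 h1
  have hsurj := (LinearMap.injOn_iff_surjOn (f := T) (p := q) (fun x hx => hq hx)).1 hinj
  have hz : z ∈ LinearMap.ker T ⊔ q := by rw [hc.sup_eq_top]; trivial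
  obtain ⟨a, ha, b, hb, rfl⟩ := Submodule.mem_sup.1 hz
  obtain ⟨u, -, hu⟩ := hsurj hb
  exact ⟨a, u, by simpa [hT] using ha, by rw [← hu, hT, LieAlgebra.ad_apply]⟩

omit [FiniteDimensional k L] in
/-- invariance of the Killing form, in the form used below -/
theorem killing_lie_left (x y z : L) : killingForm k L ⁅x, y⁆ z = -killingForm k L y ⁅x, z⁆ := by
  rw [← lie_skew, map_neg, LinearMap.neg_apply, LieModule.traceForm_apply_lie_apply]

omit [FiniteDimensional k L] in
theorem killing_comm (x y : L) : killingForm k L x y = killingForm k L y x :=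
  LieModule.traceForm_comm k L L x y

/-- The Killing form is nondegenerate on the centraliser. -/
theorem killing_nondeg_cen [LieAlgebra.IsKilling k L] {s : L}
    (hs : (LieAlgebra.ad k L s : Module.End k L).IsSemisimple) {x : L} (hx : ⁅s, x⁆ = 0)
    (h : ∀ y : L, ⁅s, y⁆ = 0 → killingForm k L x y = 0) : x = 0 := by
  have h1 : ∀ z : L, killingForm k L x z = 0 := by
    intro z
    obtain ⟨a, u, ha, rfl⟩ := exists_add_lie hs z
    rw [map_add, h a ha, zero_add]
    have := killing_lie_left (k := k) s x u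
    rw [hx, map_zero, LinearMap.zero_apply] at this
    rw [← neg_eq_zero, ← this]
  exact (LieAlgebra.IsKilling.killingForm_nondegenerate k L).1 x h1

/-- Functionals are represented on the centraliser of a semisimple element. -/
theorem exists_cen_repr [LieAlgebra.IsKilling k L] {s : L}
    (hs : (LieAlgebra.ad k L s : Module.End k L).IsSemisimple) (φ : Module.Dual k L) :
    ∃ z : L, ⁅s, z⁆ = 0 ∧ ∀ y : L, ⁅s, y⁆ = 0 → killingForm k L z y = φ y := by
  obtain ⟨z', hz'⟩ : ∃ z' : L, ∀ v, killingForm k L z' v = φ v :=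
    ⟨(LinearMap.BilinForm.toDual (killingForm k L)
      (LieAlgebra.IsKilling.killingForm_nondegenerate k L)).symm φ, fun v =>
      LinearMap.BilinForm.apply_toDual_symm_apply φ v⟩
  obtain ⟨a, u, ha, rfl⟩ := exists_add_lie hs z'
  refine ⟨a, ha, fun y hy => ?_⟩
  rw [← hz', map_add, LinearMap.add_apply, killing_lie_left, hy, map_zero, neg_zero, add_zero]

omit [FiniteDimensional k L] in
/-- `a^{i+1} b = b a^{i+1} + (i+1) (η - i) a^i` for `a = ad n`, `b = ad f`, `η = ad h`. -/
theorem pow_lie {n h f : L} (hn : ⁅h, n⁆ = (2 : k) • n) (nf : ⁅n, f⁆ = h) (i : ℕ) (v : L) :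
    ((LieAlgebra.ad k L n : Module.End k L) ^ (i + 1)) ⁅f, v⁆ =
      ⁅f, ((LieAlgebra.ad k L n : Module.End k L) ^ (i + 1)) v⁆ +
      ((i : k) + 1) • (⁅h, ((LieAlgebra.ad k L n : Module.End k L) ^ i) v⁆ -
        (i : k) • ((LieAlgebra.ad k L n : Module.End k L) ^ i) v) := by
  induction i with
  | zero =>
    simp only [zero_add, pow_one, pow_zero, LieAlgebra.ad_apply, Module.End.one_apply,
      Nat.cast_zero, one_smul, zero_smul, sub_zero]
    rw [leibniz_lie n f v, nf, add_comm]
  | succ i ih =>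
    have e0 : ∀ (j : ℕ) (Y : L), ((LieAlgebra.ad k L n : Module.End k L) ^ (j + 1)) Y =
        ⁅n, ((LieAlgebra.ad k L n : Module.End k L) ^ j) Y⁆ := by
      intro j Y
      rw [pow_succ' _ j, Module.End.mul_apply, LieAlgebra.ad_apply]
    set w := ((LieAlgebra.ad k L n : Module.End k L) ^ i) v with hw
    have e1 : ((LieAlgebra.ad k L n : Module.End k L) ^ (i + 1)) v = ⁅n, w⁆ := e0 i v
    have e2 : ((LieAlgebra.ad k L n : Module.End k L) ^ (i + 1 + 1)) v = ⁅n, ⁅n, w⁆⁆ := by
      rw [e0, e1]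
    rw [e0, ih, e1, e2, lie_add, lie_smul, lie_sub, lie_smul, leibniz_lie n f, nf]
    have e3 : ⁅n, ⁅h, w⁆⁆ = ⁅h, ⁅n, w⁆⁆ - (2 : k) • ⁅n, w⁆ := by
      rw [leibniz_lie n h w, ← lie_skew n h, hn, neg_lie, smul_lie]
      abel
    rw [e3]
    push_cast
    module

end

section
variable {k : Type*} [Field k] [CharZero k] {L : Type*} [LieRing L] [LieAlgebra k L]
  [FiniteDimensional k L]

/-- Jacobson-Morozov inside the centraliser of a semisimple element. -/
theorem exists_tri [LieAlgebra.IsKilling k L] {s n : L}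
    (hs : (LieAlgebra.ad k L s : Module.End k L).IsSemisimple) (hsn : ⁅s, n⁆ = 0)
    (hn : IsNilpotent (LieAlgebra.ad k L n : Module.End k L)) :
    ∃ h f : L, ⁅s, h⁆ = 0 ∧ ⁅s, f⁆ = 0 ∧ Tri k n h f := by
  have hsl : ∀ x y : L, ⁅s, x⁆ = 0 → ⁅s, y⁆ = 0 → ⁅s, ⁅x, y⁆⁆ = 0 := by
    intro x y hx hy
    rw [leibniz_lie, hx, hy, zero_lie, lie_zero, add_zero]
  -- step 1
  obtain ⟨g, hg, hgn⟩ : ∃ g : L, ⁅s, g⁆ = 0 ∧ ⁅n, ⁅n, g⁆⁆ = n := by
    by_contra hcon
    push Not at hcon
    set A : Module.End k L := LieAlgebra.ad k L n with hA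
    have hnot : n ∉ (cen k s).map (A * A) := by
      rintro ⟨g, hg, hgn⟩
      exact hcon g ((mem_cen k).1 hg) (by simpa [hA] using hgn)
    obtain ⟨φ, hφ, hle⟩ := Submodule.exists_le_ker_of_notMem hnot
    obtain ⟨z, hz, hzφ⟩ := exists_cen_repr hs φ
    have h1 : ⁅n, ⁅n, z⁆⁆ = 0 := by
      refine killing_nondeg_cen hs (hsl _ _ hsn (hsl _ _ hsn hz)) fun y hy => ?_
      rw [killing_lie_left, killing_lie_left, neg_neg, hzφ _ (hsl _ _ hsn (hsl _ _ hsn hy))]
      have := hle (Submodule.mem_map_of_mem (f := A * A) ((mem_cen k).2 hy))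
      simpa [hA] using this
    have h2 := killing_eq_zero_of_lie_lie hn h1
    rw [killing_comm, hzφ n hsn] at h2
    exact hφ h2
  set f0 : L := -((2 : k) • g) with hf0
  set h : L := ⁅n, f0⁆ with hh
  have hsf0 : ⁅s, f0⁆ = 0 := by rw [hf0, lie_neg, lie_smul, hg, smul_zero, neg_zero]
  have hsh : ⁅s, h⁆ = 0 := hsl _ _ hsn hsf0
  have hnh : ⁅n, h⁆ = -((2 : k) • n) := by
    rw [hh, hf0, lie_neg, lie_neg, lie_smul, lie_smul, hgn]
  have hhn : ⁅h, n⁆ = (2 : k) • n := by
    rw [← lie_skew, hnh, neg_neg]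
  -- the subspace
  set C : Submodule k L := cen k s ⊓ cen k n with hC
  set T : Module.End k L := LieAlgebra.ad k L h + (2 : k) • LinearMap.id with hT
  have hTa : ∀ x, T x = ⁅h, x⁆ + (2 : k) • x := fun x => by simp [hT]
  have hTC : ∀ x ∈ C, T x ∈ C := by
    rintro x ⟨hx1, hx2⟩
    rw [SetLike.mem_coe, mem_cen] at hx1 hx2
    refine ⟨?_, ?_⟩
    · rw [SetLike.mem_coe, mem_cen, hTa, lie_add, lie_smul, hsl _ _ hsh hx1, hx1, smul_zero,
        add_zero]
    · rw [SetLike.mem_coe, mem_cen, hTa, lie_add, lie_smul, leibniz_lie, hx2, hnh, smul_zero,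
        lie_zero, add_zero, add_zero, neg_lie, smul_lie, hx2, smul_zero, neg_zero]
  have hinj : Set.InjOn T C := by
    have key : ∀ y ∈ C, T y = 0 → y = 0 := by
      intro y hy hTy
      have hyn : ⁅n, y⁆ = 0 := (mem_cen k).1 hy.2
      have hhy : ⁅h, y⁆ = -((2 : k) • y) := by
        rw [hTa] at hTy
        exact eq_neg_of_add_eq_zero_left hTy
      have hi : ∀ i : ℕ, ∃ z, ((LieAlgebra.ad k L n : Module.End k L) ^ i) z = y := by
        intro i
        induction i with
        | zero => exact ⟨y, by simp⟩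
        | succ i ih =>
          obtain ⟨z, hz⟩ := ih
          have h1 := pow_lie hhn hh.symm i z
          have h2 : ((LieAlgebra.ad k L n : Module.End k L) ^ (i + 1)) z = 0 := by
            rw [pow_succ', Module.End.mul_apply, hz, LieAlgebra.ad_apply, hyn]
          rw [h2, lie_zero, zero_add, hz, hhy] at h1
          have hne : (-(((i : k) + 1) * ((i : k) + 2))) ≠ 0 := by
            have h3 : ((i : k) + 1) ≠ 0 := by exact_mod_cast (Nat.succ_ne_zero i)
            have h4 : ((i : k) + 2) ≠ 0 := by exact_mod_cast (Nat.succ_ne_zero (i + 1))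
            exact neg_ne_zero.2 (mul_ne_zero h3 h4)
          refine ⟨(-(((i : k) + 1) * ((i : k) + 2)))⁻¹ • ⁅f0, z⁆, ?_⟩
          rw [map_smul, h1]
          have e : ((i : k) + 1) • (-((2 : k) • y) - (i : k) • y) =
              (-(((i : k) + 1) * ((i : k) + 2))) • y := by module
          rw [e, smul_smul, inv_mul_cancel₀ hne, one_smul]
      obtain ⟨N, hN⟩ := hn
      obtain ⟨z, hz⟩ := hi N
      rw [← hz, hN, LinearMap.zero_apply]
    intro x hx y hy hxy
    exact sub_eq_zero.1 (key _ (sub_mem hx hy) (by rw [map_sub, hxy, sub_self]))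
  have hsurj := (LinearMap.injOn_iff_surjOn (f := T) (p := C) hTC).1 hinj
  have hg0 : ⁅h, f0⁆ + (2 : k) • f0 ∈ C := by
    refine ⟨?_, ?_⟩
    · rw [SetLike.mem_coe, mem_cen, lie_add, lie_smul, hsl _ _ hsh hsf0, hsf0, smul_zero, add_zero]
    · rw [SetLike.mem_coe, mem_cen, lie_add, lie_smul, leibniz_lie, hnh, ← hh, lie_self, add_zero,
        neg_lie, smul_lie, ← hh, neg_add_cancel]
  obtain ⟨y, hy, hTy⟩ := hsurj hg0
  have hy1 : ⁅s, y⁆ = 0 := (mem_cen k).1 hy.1
  have hy2 : ⁅n, y⁆ = 0 := (mem_cen k).1 hy.2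
  rw [hTa] at hTy
  refine ⟨h, f0 - y, hsh, by rw [lie_sub, hsf0, hy1, sub_zero], hhn, ?_, ?_⟩
  · rw [lie_sub, hy2, sub_zero]
  · rw [lie_sub]
    have : ⁅h, y⁆ = ⁅h, f0⁆ + (2 : k) • f0 - (2 : k) • y := eq_sub_of_add_eq hTy
    rw [this]
    module

end

section trace
variable {k : Type*} [Field k] {V : Type*} [AddCommGroup V] [Module k V] [FiniteDimensional k V]

theorem trace_restrict_gen (T : Module.End k V) (μ : k) :
    LinearMap.trace k (T.maxGenEigenspace μ)
      (T.restrict (T.mapsTo_maxGenEigenspace_of_comm (Commute.refl _) μ)) =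
      finrank k (T.maxGenEigenspace μ) * μ := by
  have h := (LinearMap.isNilpotent_trace_of_isNilpotent
    (T.isNilpotent_restrict_maxGenEigenspace_sub_algebraMap μ)).eq_zero
  have e : T.restrict (T.mapsTo_maxGenEigenspace_of_comm (Commute.refl _) μ) =
      (T - algebraMap k (Module.End k V) μ).restrict
        (T.mapsTo_maxGenEigenspace_of_comm (Algebra.mul_sub_algebraMap_commutes T μ) μ) +
        μ • (1 : Module.End k (T.maxGenEigenspace μ)) := by
    refine LinearMap.ext fun x => Subtype.ext ?_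
    change T (x : V) = (T - algebraMap k (Module.End k V) μ) (x : V) + μ • (x : V)
    rw [LinearMap.sub_apply, Module.algebraMap_end_apply, sub_add_cancel]
  rw [e, map_add, h, zero_add, map_smul, LinearMap.trace_one, smul_eq_mul, mul_comm]

theorem trace_restrict_gen_mul (T : Module.End k V) (μ : k)
    (h2 : Set.MapsTo (T ∘ₗ T) (T.maxGenEigenspace μ) (T.maxGenEigenspace μ)) :
    LinearMap.trace k (T.maxGenEigenspace μ) ((T ∘ₗ T).restrict h2) =
      finrank k (T.maxGenEigenspace μ) * μ ^ 2 := by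
  have h1 := T.mapsTo_maxGenEigenspace_of_comm (Commute.refl T) μ
  rw [LinearMap.restrict_comp h1 h1, LinearMap.trace_comp_eq_mul_of_commute_of_isNilpotent μ
    (Commute.refl _) (T.isNilpotent_restrict_maxGenEigenspace_sub_algebraMap μ),
    trace_restrict_gen]
  ring

theorem finite_gen_ne_bot (T : Module.End k V) : {μ | T.maxGenEigenspace μ ≠ ⊥}.Finite :=
  WellFoundedGT.finite_ne_bot_of_iSupIndep T.independent_maxGenEigenspace

theorem trace_eq_sum_gen (T : Module.End k V) (hT : ⨆ μ, T.maxGenEigenspace μ = ⊤) :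
    LinearMap.trace k V T =
      ∑ μ ∈ (finite_gen_ne_bot T).toFinset, (finrank k (T.maxGenEigenspace μ) : k) * μ := by
  classical
  have hds := DirectSum.isInternal_submodule_of_iSupIndep_of_iSup_eq_top
    T.independent_maxGenEigenspace hT
  rw [LinearMap.trace_eq_sum_trace_restrict' hds (finite_gen_ne_bot T)
    (fun μ => T.mapsTo_maxGenEigenspace_of_comm (Commute.refl _) μ)]
  exact Finset.sum_congr rfl fun μ _ => trace_restrict_gen T μ

theorem trace_comp_eq_sum_gen (T : Module.End k V) (hT : ⨆ μ, T.maxGenEigenspace μ = ⊤) :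
    LinearMap.trace k V (T ∘ₗ T) =
      ∑ μ ∈ (finite_gen_ne_bot T).toFinset, (finrank k (T.maxGenEigenspace μ) : k) * μ ^ 2 := by
  classical
  have hds := DirectSum.isInternal_submodule_of_iSupIndep_of_iSup_eq_top
    T.independent_maxGenEigenspace hT
  have h2 : ∀ μ, Set.MapsTo (T ∘ₗ T) (T.maxGenEigenspace μ) (T.maxGenEigenspace μ) := fun μ =>
    (T.mapsTo_maxGenEigenspace_of_comm (Commute.refl _) μ).comp
      (T.mapsTo_maxGenEigenspace_of_comm (Commute.refl _) μ)
  rw [LinearMap.trace_eq_sum_trace_restrict' hds (finite_gen_ne_bot T) h2]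
  exact Finset.sum_congr rfl fun μ _ => trace_restrict_gen_mul T μ _

omit [FiniteDimensional k V] in
/-- A nonzero vector of a generalised eigenspace, in a stable subspace, gives an eigenvector in
the same stable subspace. -/
theorem exists_eigenvector_of_gen {T : Module.End k V} {c : k} {W : Submodule k V}
    (hW : ∀ x ∈ W, T x ∈ W) {v : V} (hv : v ∈ T.maxGenEigenspace c) (hvW : v ∈ W) (h0 : v ≠ 0) :
    ∃ u ∈ W, u ≠ 0 ∧ T u = c • u := by
  obtain ⟨N, hN⟩ := Module.End.mem_maxGenEigenspace T c v |>.1 hv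
  clear hv
  induction N generalizing v with
  | zero => exact absurd (by simpa using hN) h0
  | succ N ih =>
    by_cases h1 : (T - c • 1) v = 0
    · refine ⟨v, hvW, h0, ?_⟩
      simpa [sub_eq_zero] using h1
    · refine ih (v := (T - c • 1) v) ?_ h1 ?_
      · simpa using sub_mem (hW v hvW) (W.smul_mem c hvW)
      · rw [← Module.End.mul_apply, ← pow_succ, hN]

end trace

section
variable {k : Type*} [Field k] {L : Type*} [LieRing L] [LieAlgebra k L]

theorem lie_pow_ad {n h : L} (hn : ⁅h, n⁆ = (2 : k) • n) (i : ℕ) (v : L) :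
    ⁅h, ((LieAlgebra.ad k L n : Module.End k L) ^ i) v⁆ =
      ((LieAlgebra.ad k L n : Module.End k L) ^ i) ⁅h, v⁆ +
        (2 * (i : k)) • ((LieAlgebra.ad k L n : Module.End k L) ^ i) v := by
  induction i with
  | zero => simp
  | succ i ih =>
    have e0 : ∀ (j : ℕ) (Y : L), ((LieAlgebra.ad k L n : Module.End k L) ^ (j + 1)) Y =
        ⁅n, ((LieAlgebra.ad k L n : Module.End k L) ^ j) Y⁆ := by
      intro j Y
      rw [pow_succ' _ j, Module.End.mul_apply, LieAlgebra.ad_apply]
    rw [e0, e0, leibniz_lie, hn, ih, smul_lie, lie_add, lie_smul]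
    push_cast
    module

/-- No infinite arithmetic progression of eigenvalues. -/
theorem exists_not_eigen [CharZero k] [FiniteDimensional k L] (h : L) (c d : k) (hd : d ≠ 0)
    (v : ℕ → L) (hv : ∀ i, ⁅h, v i⁆ = (c + d * i) • v i) : ∃ i, v i = 0 := by
  by_contra hcon
  push Not at hcon
  have hfin := Module.End.finite_hasEigenvalue (LieAlgebra.ad k L h : Module.End k L)
  have hsub : Set.range (fun i : ℕ => c + d * (i : k)) ⊆
      {μ | (LieAlgebra.ad k L h : Module.End k L).HasEigenvalue μ} := by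
    rintro _ ⟨i, rfl⟩
    refine Module.End.hasEigenvalue_of_hasEigenvector (x := v i) ?_
    rw [Module.End.hasEigenvector_iff, Module.End.mem_eigenspace_iff]
    exact ⟨by rw [LieAlgebra.ad_apply, hv], hcon i⟩
  refine Set.infinite_range_of_injective ?_ (hfin.subset hsub)
  intro a b hab
  have : d * ((a : k) - b) = 0 := by
    simp only at hab
    linear_combination hab
  rcases mul_eq_zero.1 this with h1 | h1
  · exact absurd h1 hd
  · exact_mod_cast sub_eq_zero.1 h1

end

section
variable {k : Type*} [Field k] [CharZero k] {L : Type*} [LieRing L] [LieAlgebra k L]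
  [FiniteDimensional k L]

/-- The eigenvalues of `ad h` are integers. -/
theorem Tri.exists_int {n h f : L} (t : Tri k n h f) {μ : k}
    (hμ : (LieAlgebra.ad k L h : Module.End k L).HasEigenvalue μ) : ∃ z : ℤ, μ = z := by
  obtain ⟨v, hv⟩ := hμ.exists_hasEigenvector
  rw [Module.End.hasEigenvector_iff, Module.End.mem_eigenspace_iff, LieAlgebra.ad_apply] at hv
  obtain ⟨hv, hv0⟩ := hv
  by_cases h0 : h = 0
  · refine ⟨0, ?_⟩
    rw [h0, zero_lie] at hv
    rcases smul_eq_zero.1 hv.symm with h1 | h1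
    · simpa using h1
    · exact absurd h1 hv0
  · have t' : IsSl2Triple h n f := ⟨h0, t.nf, by rw [t.hn, ofNat_smul_eq_nsmul],
      by rw [t.hf, ofNat_smul_eq_nsmul]⟩
    have hex : ∃ i : ℕ, ((LieAlgebra.ad k L n : Module.End k L) ^ i) v = 0 :=
      exists_not_eigen h μ 2 two_ne_zero
        (fun i => ((LieAlgebra.ad k L n : Module.End k L) ^ i) v) (fun i => by
          rw [lie_pow_ad t.hn, hv, map_smul, add_smul])
    obtain ⟨i, hi1, hi2⟩ := Nat.exists_not_and_succ_of_not_zero_of_exists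
      (p := fun i => ((LieAlgebra.ad k L n : Module.End k L) ^ i) v = 0) (by simpa using hv0) hex
    have P : t'.HasPrimitiveVectorWith (((LieAlgebra.ad k L n : Module.End k L) ^ i) v)
        (μ + 2 * (i : k)) :=
      ⟨hi1, by rw [lie_pow_ad t.hn, hv, map_smul, add_smul], by
        have h3 := hi2
        rwa [pow_succ', Module.End.mul_apply, LieAlgebra.ad_apply] at h3⟩
    obtain ⟨N, hN⟩ := P.exists_nat
    exact ⟨(N : ℤ) - 2 * i, by push_cast; linear_combination hN⟩

/-- `(ad n)^j` is injective on the generalised `(-j)`-eigenspace of `ad h`. -/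
theorem Tri.pow_injective [IsAlgClosed k] {n h f : L} (t : Tri k n h f) {j : ℕ} {v : L}
    (hv : v ∈ Module.End.maxGenEigenspace (LieAlgebra.ad k L h : Module.End k L) (-(j : k)))
    (h0 : ((LieAlgebra.ad k L n : Module.End k L) ^ j) v = 0) : v = 0 := by
  by_contra hv0
  set a : Module.End k L := LieAlgebra.ad k L n with ha
  obtain ⟨u, hu, hu0, hhu⟩ := exists_eigenvector_of_gen (W := LinearMap.ker (a ^ j))
    (T := (LieAlgebra.ad k L h : Module.End k L)) (c := -(j : k)) (v := v) (by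
      intro x hx
      rw [LinearMap.mem_ker] at hx ⊢
      have := lie_pow_ad t.hn j x
      rw [← ha, hx, lie_zero, smul_zero, add_zero] at this
      rw [LieAlgebra.ad_apply, ← this]) hv (LinearMap.mem_ker.2 h0) hv0
  rw [LieAlgebra.ad_apply] at hhu
  rw [LinearMap.mem_ker] at hu
  have hex : ∃ i : ℕ, (a ^ i) u = 0 := ⟨j, hu⟩
  obtain ⟨m, hm1, hm2⟩ : ∃ m, (a ^ m) u ≠ 0 ∧ (a ^ (m + 1)) u = 0 :=
    Nat.exists_not_and_succ_of_not_zero_of_exists (p := fun i => (a ^ i) u = 0)
      (by simpa using hu0) hex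
  have hmj : m < j := by
    by_contra hcon
    push Not at hcon
    apply hm1
    obtain ⟨q, rfl⟩ := Nat.exists_eq_add_of_le hcon
    rw [add_comm, pow_add, Module.End.mul_apply, hu, map_zero]
  -- the sequence
  have key : ∀ i : ℕ, ⁅h, (((LieAlgebra.ad k L f : Module.End k L)) ^ i) u⁆ =
        (-(j : k) + (-2) * i) • (((LieAlgebra.ad k L f : Module.End k L)) ^ i) u ∧
      (a ^ (m + i)) ((((LieAlgebra.ad k L f : Module.End k L)) ^ i) u) ≠ 0 ∧
      (a ^ (m + i + 1)) ((((LieAlgebra.ad k L f : Module.End k L)) ^ i) u) = 0 := by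
    intro i
    induction i with
    | zero => exact ⟨by simpa using hhu, by simpa using hm1, by simpa using hm2⟩
    | succ i ih =>
      obtain ⟨i1, i2, i3⟩ := ih
      set w := (((LieAlgebra.ad k L f : Module.End k L)) ^ i) u with hw
      have e0 : (((LieAlgebra.ad k L f : Module.End k L)) ^ (i + 1)) u = ⁅f, w⁆ := by
        rw [pow_succ', Module.End.mul_apply, LieAlgebra.ad_apply]
      rw [e0]
      have e1 : (a ^ (m + (i + 1))) ⁅f, w⁆ =
          (((m + i : ℕ) : k) + 1) • ((((m : k) - j - i)) • (a ^ (m + i)) w) := by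
        have := pow_lie t.hn t.nf (m + i) w
        rw [← ha] at this
        rw [show m + (i + 1) = m + i + 1 by ring, this, i3, lie_zero, zero_add,
          lie_pow_ad t.hn, i1, ← ha, map_smul]
        push_cast
        module
      refine ⟨?_, ?_, ?_⟩
      · rw [leibniz_lie, t.hf, i1, neg_lie, smul_lie, lie_smul]
        push_cast
        module
      · rw [e1]
        have c1 : (((m + i : ℕ) : k) + 1) ≠ 0 := by exact_mod_cast Nat.succ_ne_zero (m + i)
        have c2 : ((m : k) - j - i) ≠ 0 := by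
          have h2 : ((m : ℤ) - j - i) ≠ 0 := by omega
          exact_mod_cast h2
        exact smul_ne_zero c1 (smul_ne_zero c2 i2)
      · rw [pow_succ', Module.End.mul_apply, e1, map_smul, map_smul, ← Module.End.mul_apply,
          ← pow_succ', i3, smul_zero, smul_zero]
  obtain ⟨i, hi⟩ := exists_not_eigen h (-(j : k)) (-2) (neg_ne_zero.2 two_ne_zero)
    (fun i => (((LieAlgebra.ad k L f : Module.End k L)) ^ i) u) (fun i => (key i).1)
  apply (key i).2.1
  rw [hi, map_zero]

/-- `κ(n, f) ≠ 0` for a nonzero triple. -/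
theorem Tri.killing_ne_zero [IsAlgClosed k] {n h f : L} (t : Tri k n h f) (hn : n ≠ 0) :
    killingForm k L n f ≠ 0 := by
  set T : Module.End k L := LieAlgebra.ad k L h with hT
  have h1 : killingForm k L h h = 2 * killingForm k L n f := by
    have e : killingForm k L h h = killingForm k L ⁅n, f⁆ h := by rw [t.nf]
    have e2 : ⁅n, h⁆ = -((2 : k) • n) := by rw [← lie_skew, t.hn]
    rw [e, killing_lie_left, e2, map_neg, neg_neg, map_smul, smul_eq_mul,
      LieModule.traceForm_comm k L L f n]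
  intro hcon
  rw [hcon, mul_zero, killingForm_apply_apply, ← hT,
    trace_comp_eq_sum_gen T (Module.End.iSup_maxGenEigenspace_eq_top T)] at h1
  have hint : ∀ μ ∈ (finite_gen_ne_bot T).toFinset, ∃ z : ℤ, μ = z := by
    intro μ hμ
    rw [Set.Finite.mem_toFinset, Set.mem_ofPred_eq] at hμ
    obtain ⟨v, hv, hv0⟩ := Submodule.exists_mem_ne_zero_of_ne_bot hμ
    obtain ⟨u, -, hu0, hu⟩ := exists_eigenvector_of_gen (W := ⊤) (T := T) (by simp) hv
      Submodule.mem_top hv0
    exact t.exists_int (Module.End.hasEigenvalue_of_hasEigenvector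
      (Module.End.hasEigenvector_iff.2 ⟨Module.End.mem_eigenspace_iff.2 hu, hu0⟩))
  choose! z hz using hint
  have h2 : ((∑ μ ∈ (finite_gen_ne_bot T).toFinset,
      (finrank k (T.maxGenEigenspace μ) : ℤ) * (z μ) ^ 2 : ℤ) : k) = 0 := by
    rw [← h1]
    push_cast
    exact Finset.sum_congr rfl fun μ hμ => by rw [← hz μ hμ]
  rw [Int.cast_eq_zero, Finset.sum_eq_zero_iff_of_nonneg (fun μ _ => by positivity)] at h2
  have hmem : n ∈ T.maxGenEigenspace 2 := by
    rw [Module.End.mem_maxGenEigenspace]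
    refine ⟨1, ?_⟩
    rw [pow_one, LinearMap.sub_apply, LinearMap.smul_apply, Module.End.one_apply, hT,
      LieAlgebra.ad_apply, t.hn, sub_self]
  have hne : T.maxGenEigenspace 2 ≠ ⊥ := by
    intro h
    rw [h, Submodule.mem_bot] at hmem
    exact hn hmem
  have hS : (2 : k) ∈ (finite_gen_ne_bot T).toFinset := by
    rw [Set.Finite.mem_toFinset]; exact hne
  have h3 := h2 2 hS
  have hz2 := hz 2 hS
  have h4 : z 2 ≠ 0 := by
    intro h
    rw [h, Int.cast_zero] at hz2
    exact two_ne_zero hz2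
  rcases mul_eq_zero.1 h3 with h5 | h5
  · have : finrank k (T.maxGenEigenspace 2) = 0 := by exact_mod_cast h5
    rw [Submodule.finrank_eq_zero] at this
    exact hne this
  · exact h4 (pow_eq_zero_iff (two_ne_zero)|>.1 h5)

end
end F80
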