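import Pool.Agent.H42.C80.Defs
/-! Part C, module SP: from a good element to a Borel complement (greedy choice and generation). -/
open Module
universe u
namespace F80

theorem exists_RR_of_goodX {k : Type u} [Field k] [CharZero k] [IsAlgClosed k] {L : Type u}
    [LieRing L] [LieAlgebra k L] [FiniteDimensional k L] [LieAlgebra.IsKilling k L]
    (r : LieSubalgebra k L) {x : L} (hx : GoodX k r x) :
    ∃ w : L, RR k w ∧ r.toSubmodule ⊔ bor k w = ⊤ := by
  sorry

end F80
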