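import Pool.Agent.H45.F80.A2
import Pool.Agent.H45.F80.A5
import Pool.Agent.H45.F80.FD
/-! Part C, module TH: the theta form along a line of nilpotent endomorphisms. -/
open Module Polynomial TensorProduct
namespace F80

namespace THA

/-- The derivation `d/dt` of the field of rational functions. -/
theorem exists_der {k E : Type*} [Field k] [Field E] [Algebra k[X] E] [IsFractionRing k[X] E] :
    ∃ D : Derivation ℤ E E,
      ∀ p : k[X], D (algebraMap k[X] E p) = algebraMap k[X] E (derivative p) := by
  have : Algebra.FormallySmooth k[X] E :=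
    Algebra.FormallySmooth.of_isLocalization (nonZeroDivisors k[X])
  refine ext_of_smooth (((algebraMap k[X] E).toAddMonoidHom).comp
    (derivative (R := k)).toAddMonoidHom) ?_
  intro a b
  change algebraMap k[X] E (derivative (a * b)) =
    algebraMap k[X] E a * algebraMap k[X] E (derivative b) +
    algebraMap k[X] E b * algebraMap k[X] E (derivative a)
  rw [derivative_mul, map_add, map_mul, map_mul]
  ring

section

variable {k E V : Type*} [Field k] [Field E] [Algebra k E] [AddCommGroup V] [Module k V] {n : ℕ}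

theorem sut_baseChange (e : Basis (Fin n) k V) (A : Module.End k V) (h : SUT e A) :
    SUT (e.baseChange E) (A.baseChange E) := by
  intro i j hij
  have h1 := h i j hij
  rw [Basis.coord_apply] at h1
  rw [Basis.baseChange_apply, LinearMap.baseChange_tmul, Basis.coord_apply,
    Basis.baseChange_repr_tmul, h1, zero_smul]

theorem sut_smul {V' : Type*} [AddCommGroup V'] [Module E V'] (e : Basis (Fin n) E V')
    (A : Module.End E V') (h : SUT e A) (c : E) : SUT e (c • A) := by
  intro i j hij
  rw [LinearMap.smul_apply, map_smul, h i j hij, smul_zero]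

theorem theta_const (δ : SDer E (E ⊗[k] V)) (h : ∀ v : V, δ.D ((1 : E) ⊗ₜ[k] v) = 0)
    (e : Basis (Fin n) k V) (X : Module.End E (E ⊗[k] V)) :
    theta δ (e.baseChange E) X = 0 := by
  unfold theta
  refine Finset.sum_eq_zero fun i _ => ?_
  rw [Basis.baseChange_apply, h, map_zero, map_zero]

theorem ext_one {f g : Module.End E (E ⊗[k] V)}
    (h : ∀ v : V, f ((1 : E) ⊗ₜ[k] v) = g ((1 : E) ⊗ₜ[k] v)) : f = g := by
  refine LinearMap.ext fun m => ?_
  induction m using TensorProduct.induction_on with
  | zero => rw [map_zero, map_zero]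
  | tmul a v =>
    have : a ⊗ₜ[k] v = a • ((1 : E) ⊗ₜ[k] v) := by
      rw [TensorProduct.smul_tmul', smul_eq_mul, mul_one]
    rw [this, map_smul, map_smul, h]
  | add x y hx hy => rw [map_add, map_add, hx, hy]

theorem nil_baseChange {A : Module.End k V} (h : IsNilpotent A) :
    IsNilpotent (A.baseChange E) := by
  obtain ⟨N, hN⟩ := h
  refine ⟨N, ?_⟩
  rw [← LinearMap.baseChange_pow, hN, LinearMap.baseChange_zero]

end

theorem aux {k E V : Type*} [Field k] [AddCommGroup V] [Module k V]
    [FiniteDimensional k V] [Field E] [CharZero E] [Algebra k E] [Algebra k[X] E]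
    [IsScalarTower k k[X] E]
    [IsFractionRing k[X] E] (A B : Module.End k V)
    (hnil : {t : k | IsNilpotent (A + t • B)}.Infinite)
    {M : ℕ} (H : Fin M → Module.End k V) (d : k[X]) (hd : d ≠ 0)
    (hH : {t : k | (∑ i : Fin M, t ^ (i : ℕ) • H i) * (A + t • B) -
      (A + t • B) * (∑ i : Fin M, t ^ (i : ℕ) • H i) = (2 * d.eval t) • (A + t • B)}.Infinite)
    (t : k) :
    LinearMap.trace k V ((∑ i : Fin M, t ^ (i : ℕ) • H i) * B) = 0 := by
  classical
  obtain ⟨D, hD⟩ := exists_der (k := k) (E := E)
  let φ : k[X] →+* E := algebraMap k[X] E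
  have hφ : Function.Injective φ := IsFractionRing.injective k[X] E
  have hφC : ∀ r : k, algebraMap k E r = φ (C r) := fun r => by
    rw [IsScalarTower.algebraMap_apply k k[X] E]; rfl
  let T : E := φ X
  have hT0 : T ≠ 0 := by
    intro h
    exact X_ne_zero (hφ (h.trans (map_zero φ).symm))
  have hT : D T = 1 := by
    change D (algebraMap k[X] E X) = 1
    rw [hD, derivative_X, map_one]
  have hDk : ∀ r : k, D (algebraMap k E r) = algebraMap k E ((SDer.zero : SDer k V).d r) := by
    intro r
    rw [hφC]
    change D (algebraMap k[X] E (C r)) = _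
    rw [hD, derivative_C, map_zero]
    simp
  let δ : SDer E (E ⊗[k] V) := (SDer.zero : SDer k V).baseChange D hDk
  have hδ : ∀ v : V, δ.D ((1 : E) ⊗ₜ[k] v) = 0 := by
    intro v
    simp [δ]
  let AE : Module.End E (E ⊗[k] V) := A.baseChange E
  let BE : Module.End E (E ⊗[k] V) := B.baseChange E
  let XE : Module.End E (E ⊗[k] V) := AE + T • BE
  have hcomm : δ.comm XE = BE := by
    refine ext_one fun v => ?_
    rw [SDer.comm_apply, hδ, map_zero, sub_zero]
    change δ.D ((A.baseChange E + T • B.baseChange E) ((1 : E) ⊗ₜ[k] v)) =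
      (B.baseChange E) ((1 : E) ⊗ₜ[k] v)
    rw [LinearMap.add_apply, LinearMap.smul_apply, LinearMap.baseChange_tmul,
      LinearMap.baseChange_tmul, map_add, hδ, zero_add, δ.leib, hδ, smul_zero, add_zero]
    change D T • ((1 : E) ⊗ₜ[k] B v) = _
    rw [hT, one_smul]
  -- nilpotency
  have hnilE : {c : E | IsNilpotent (AE + c • (T • BE))}.Infinite := by
    refine (hnil.image (f := fun s : k => algebraMap k E s * T⁻¹) ?_).mono ?_
    · intro a _ b _ hab
      have h1 : algebraMap k E a = algebraMap k E b := mul_right_cancel₀ (inv_ne_zero hT0) hab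
      exact (algebraMap k E).injective h1
    · rintro _ ⟨s, hs, rfl⟩
      have h1 : AE + (algebraMap k E s * T⁻¹) • (T • BE) = (A + s • B).baseChange E := by
        rw [smul_smul, mul_assoc, inv_mul_cancel₀ hT0, mul_one, LinearMap.baseChange_add,
          LinearMap.baseChange_smul, algebraMap_smul]
      change IsNilpotent (AE + (algebraMap k E s * T⁻¹) • (T • BE))
      rw [h1]
      exact nil_baseChange hs
  obtain ⟨hAn, hBn⟩ := isNilpotent_line A B hnil
  have hAn0 : IsNilpotent A := by simpa using hAn 0
  obtain ⟨eA, heA⟩ := exists_SUT A hAn0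
  obtain ⟨eB, heB⟩ := exists_SUT B hBn
  obtain ⟨hXn, -⟩ := isNilpotent_line AE (T • BE) hnilE
  have hXn1 : IsNilpotent XE := by simpa using hXn 1
  obtain ⟨b, hb⟩ := exists_SUT XE hXn1
  have hn : finrank E (E ⊗[k] V) = finrank k V := Module.finrank_baseChange
  let eY : Basis (Fin (finrank k V)) E (E ⊗[k] V) := b.reindex (finCongr hn)
  have heY : SUT eY XE := by
    intro i j hij
    have := hb ((finCongr hn).symm i) ((finCongr hn).symm j) hij
    simpa [eY] using this
  have hth : theta δ eY XE = 0 := by
    have h1 := theta_add δ AE (T • BE) hnilE (eA.baseChange E) (eB.baseChange E) eY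
      (sut_baseChange eA A heA) (sut_smul _ _ (sut_baseChange eB B heB) T) heY
    rw [theta_const δ hδ, theta_const δ hδ, add_zero] at h1
    exact h1
  -- the identity over `E`
  let NE : Module.End E (E ⊗[k] V) := ∑ i : Fin M, T ^ (i : ℕ) • (H i).baseChange E
  let e := finBasis k V
  let N : Matrix (Fin (finrank k V)) (Fin (finrank k V)) k[X] :=
    ∑ i : Fin M, (X : k[X]) ^ (i : ℕ) • (LinearMap.toMatrix e e (H i)).map C
  have hNev : ∀ t : k, (evalRingHom t).mapMatrix N =
      LinearMap.toMatrix e e (∑ i : Fin M, t ^ (i : ℕ) • H i) := by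
    intro t
    rw [map_sum, map_sum]
    refine Finset.sum_congr rfl fun i _ => ?_
    ext a c
    simp only [RingHom.mapMatrix_apply, Matrix.map_apply, Matrix.smul_apply, smul_eq_mul,
      map_smul, coe_evalRingHom, eval_mul, eval_pow, eval_X, eval_C]
  have hid : N * A2.pen e A B - A2.pen e A B * N = (2 * d) • A2.pen e A B := by
    ext1 i j
    refine Polynomial.eq_of_infinite_eval_eq _ _ (hH.mono fun s hs => ?_)
    have h1 : (evalRingHom s).mapMatrix (N * A2.pen e A B - A2.pen e A B * N) =
        (evalRingHom s).mapMatrix ((2 * d) • A2.pen e A B) := by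
      have h2 : (evalRingHom s).mapMatrix ((2 * d) • A2.pen e A B) =
          (2 * d.eval s) • (evalRingHom s).mapMatrix (A2.pen e A B) := by
        ext a c
        simp only [RingHom.mapMatrix_apply, Matrix.map_apply, Matrix.smul_apply, smul_eq_mul,
          coe_evalRingHom, eval_mul, eval_ofNat]
      rw [h2, map_sub, map_mul, map_mul, hNev, A2.map_pen, ← LinearMap.toMatrix_mul,
        ← LinearMap.toMatrix_mul, ← map_sub, ← map_smul]
      exact congrArg _ hs
    have h3 := congrFun (congrFun h1 i) j
    simpa using h3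
  let eE : Basis (Fin (finrank k V)) E (E ⊗[k] V) := Algebra.TensorProduct.basis E e
  have hmat : ∀ f : Module.End k V, LinearMap.toMatrix eE eE (f.baseChange E) =
      φ.mapMatrix ((LinearMap.toMatrix e e f).map C) := by
    intro f
    have h1 := LinearMap.toMatrix_baseChange (A := E) f e e
    change LinearMap.toMatrix (Algebra.TensorProduct.basis E e)
      (Algebra.TensorProduct.basis E e) (f.baseChange E) = _
    rw [h1]
    ext a c
    simp only [Matrix.map_apply, RingHom.mapMatrix_apply]
    exact hφC _
  have hX : LinearMap.toMatrix eE eE XE = φ.mapMatrix (A2.pen e A B) := by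
    change LinearMap.toMatrix eE eE (A.baseChange E + T • B.baseChange E) = _
    rw [map_add, map_smul, hmat, hmat, A2.pen, map_add]
    congr 1
    ext a c
    simp only [RingHom.mapMatrix_apply, Matrix.map_apply, Matrix.smul_apply, smul_eq_mul,
      map_mul]
    rfl
  have hN : LinearMap.toMatrix eE eE NE = φ.mapMatrix N := by
    change LinearMap.toMatrix eE eE (∑ i : Fin M, T ^ (i : ℕ) • (H i).baseChange E) = _
    rw [map_sum, map_sum]
    refine Finset.sum_congr rfl fun i _ => ?_
    rw [map_smul, hmat]
    ext a c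
    simp only [RingHom.mapMatrix_apply, Matrix.map_apply, Matrix.smul_apply, smul_eq_mul,
      map_mul, map_pow]
    rfl
  have hidE : NE * XE - XE * NE = (2 * φ d) • XE := by
    have h1 : LinearMap.toMatrix eE eE (NE * XE - XE * NE) =
        LinearMap.toMatrix eE eE ((2 * φ d) • XE) := by
      have h2 : LinearMap.toMatrix eE eE (NE * XE - XE * NE) =
          LinearMap.toMatrix eE eE (NE * XE) - LinearMap.toMatrix eE eE (XE * NE) :=
        map_sub (LinearMap.toMatrix eE eE) _ _
      rw [h2, LinearMap.toMatrix_mul, LinearMap.toMatrix_mul, map_smul, hX, hN, ← map_mul,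
        ← map_mul, ← map_sub, hid]
      ext a c
      simp only [RingHom.mapMatrix_apply, Matrix.map_apply, Matrix.smul_apply, smul_eq_mul,
        map_mul, map_ofNat]
    exact (LinearMap.toMatrix eE eE).injective h1
  have hd0 : φ d ≠ 0 := fun h => hd (hφ (h.trans (map_zero φ).symm))
  have hH' : ((φ d)⁻¹ • NE) * XE - XE * ((φ d)⁻¹ • NE) = (2 : E) • XE := by
    have h1 : ((φ d)⁻¹ • NE) * XE - XE * ((φ d)⁻¹ • NE) =
        (φ d)⁻¹ • (NE * XE - XE * NE) := by
      refine LinearMap.ext fun m => ?_
      simp only [LinearMap.sub_apply, LinearMap.smul_apply, Module.End.mul_apply, map_smul,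
        smul_sub]
    rw [h1, hidE, smul_smul]
    congr 1
    field_simp
  have htr := trace_mul_comm_of_sl2 δ eY XE ((φ d)⁻¹ • NE) heY hH'
  rw [hth, hcomm, mul_zero, neg_zero, smul_mul_assoc, map_smul, smul_eq_mul] at htr
  have htr2 : LinearMap.trace E (E ⊗[k] V) (NE * BE) = 0 :=
    (mul_eq_zero.mp htr).resolve_left (inv_ne_zero hd0)
  -- descent
  have hb2 : ∀ i, LinearMap.trace E (E ⊗[k] V) ((H i).baseChange E * BE) =
      φ (C (LinearMap.trace k V (H i * B))) := by
    intro i
    rw [← hφC, ← LinearMap.trace_baseChange]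
    congr 1
    exact (LinearMap.baseChange_mul (A := E) (H i) B).symm
  have hq : (∑ i : Fin M, (X : k[X]) ^ (i : ℕ) * C (LinearMap.trace k V (H i * B))) = 0 := by
    apply hφ
    rw [map_zero, ← htr2]
    change _ = LinearMap.trace E (E ⊗[k] V)
      ((∑ i : Fin M, T ^ (i : ℕ) • (H i).baseChange E) * BE)
    rw [Finset.sum_mul, map_sum, map_sum]
    refine Finset.sum_congr rfl fun i _ => ?_
    rw [smul_mul_assoc, map_smul, hb2, map_mul, map_pow, smul_eq_mul]
  have h5 := congrArg (eval t) hq
  rw [eval_finsetSum, eval_zero] at h5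
  rw [Finset.sum_mul, map_sum, ← h5]
  refine Finset.sum_congr rfl fun i _ => ?_
  rw [smul_mul_assoc, map_smul, eval_mul, eval_pow, eval_X, eval_C, smul_eq_mul]

end THA

open THA in
/-- If `A + t B` is nilpotent for infinitely many `t` and `H(t)` is polynomial in `t` with
`[H(t), A + t B] = 2 d(t) (A + t B)`, then `tr (H(t) B) = 0` for all `t`.
Proof: over `E = k(t)`, `theta(A + t B; d/dt) = theta(A) + theta(t B) = 0` (constant bases for `A`
and `B`), and `tr (H/d * B) = - 2 theta(A + tB)` by `trace_mul_comm_of_sl2`. -/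
theorem trace_line_eq_zero {k V : Type*} [Field k] [CharZero k] [AddCommGroup V] [Module k V]
    [FiniteDimensional k V] (A B : Module.End k V)
    (hnil : {t : k | IsNilpotent (A + t • B)}.Infinite)
    {M : ℕ} (H : Fin M → Module.End k V) (d : k[X]) (hd : d ≠ 0)
    (hH : {t : k | (∑ i : Fin M, t ^ (i : ℕ) • H i) * (A + t • B) -
      (A + t • B) * (∑ i : Fin M, t ^ (i : ℕ) • H i) = (2 * d.eval t) • (A + t • B)}.Infinite)
    (t : k) :
    LinearMap.trace k V ((∑ i : Fin M, t ^ (i : ℕ) • H i) * B) = 0 := by
  have : CharZero (FractionRing k[X]) :=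
    charZero_of_injective_algebraMap (algebraMap k (FractionRing k[X])).injective
  exact aux (E := FractionRing k[X]) A B hnil H d hd hH t

end F80
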