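import Pool.Agent.H42.C80.TR
import Pool.Agent.H42.C80.TH
import Pool.Agent.H42.C80.RK
/-! Part C, module SS: generic elements of `[r,r]^⊥` are semisimple. -/
open Module
namespace F80

section
variable {k : Type*} [Field k] [CharZero k] [IsAlgClosed k] {L : Type*} [LieRing L]
  [LieAlgebra k L] [FiniteDimensional k L]

/-- The `N`-th power of `ad y` kills exactly the generalised null space. -/
theorem SS.pow_eq_zero_iff {V : Type*} [AddCommGroup V] [Module k V] [FiniteDimensional k V]
    (A : Module.End k V) (N : ℕ) (hN : finrank k V ≤ N) (v : V) :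
    (A ^ N) v = 0 ↔ v ∈ A.maxGenEigenspace 0 := by
  rw [Module.End.mem_maxGenEigenspace]
  constructor
  · intro h
    exact ⟨N, by simpa using h⟩
  · rintro ⟨j, hj⟩
    have h1 : v ∈ A.genEigenspace 0 (finrank k V : ℕ∞) := by
      rw [← Module.End.maxGenEigenspace_eq_genEigenspace_finrank, Module.End.mem_maxGenEigenspace]
      exact ⟨j, hj⟩
    rw [Module.End.mem_genEigenspace_nat, LinearMap.mem_ker] at h1
    simp only [zero_smul, sub_zero] at h1
    exact Module.End.pow_map_zero_of_le hN h1

/-- For almost all `t` the generalised null space of `ad (x + t m)` is `gr w 0`. -/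
theorem SS.cofinite {x m w : L} (hw : Diag k w) (hx0 : x ∈ gr k w 0) (hm : m ∈ gr k w 0) (N : ℕ)
    (hker : ∀ v : L, ((LieAlgebra.ad k L x : Module.End k L) ^ N) v = 0 ↔ v ∈ gr k w 0)
    (hrk : ∀ t : k,
      finrank k (LinearMap.range ((LieAlgebra.ad k L (x + t • m) : Module.End k L) ^ N)) ≤
        finrank k (LinearMap.range ((LieAlgebra.ad k L x : Module.End k L) ^ N))) :
    {t : k | ¬ ∀ v : L, ((LieAlgebra.ad k L (x + t • m) : Module.End k L) ^ N) v = 0 ↔
      v ∈ gr k w 0}.Finite := by
  set Y : Submodule k L := ⨆ q ∈ ({0}ᶜ : Set ℚ), gr k w q with hY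
  have hdis : Disjoint (gr k w 0) Y := by
    have := disjoint_biSup_gr (E := k) w (S := {0}) (T := {0}ᶜ) disjoint_compl_right
    simpa [hY] using this
  have hsup : gr k w 0 ⊔ Y = ⊤ := by
    rw [eq_top_iff, ← (hw : (⨆ q : ℚ, gr k w q) = ⊤)]
    refine iSup_le fun q => ?_
    rcases eq_or_ne q 0 with rfl | hq
    · exact le_sup_left
    · have h1 : gr k w q ≤ Y := le_iSup₂_of_le q (by simpa using hq) le_rfl
      exact h1.trans le_sup_right
  have hYst : ∀ a ∈ gr k w 0, ∀ y ∈ Y, ⁅a, y⁆ ∈ Y := by
    intro a ha y hy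
    have ha' : a ∈ ⨆ q ∈ ({0} : Set ℚ), gr k w q := by simpa using ha
    exact lie_mem_biSup (S := {0}) (T := {0}ᶜ) (U := {0}ᶜ) (fun s hs t ht => by
      simp only [Set.mem_singleton_iff, Set.mem_compl_iff] at *
      rw [hs, zero_add]; exact ht) ha' hy
  have hYpow : ∀ a ∈ gr k w 0, ∀ (j : ℕ), ∀ y ∈ Y,
      ((LieAlgebra.ad k L a : Module.End k L) ^ j) y ∈ Y := by
    intro a ha j
    induction j with
    | zero => intro y hy; simpa using hy
    | succ j ih =>
      intro y hy
      rw [pow_succ', Module.End.mul_apply]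
      exact hYst a ha _ (ih y hy)
  have h0pow : ∀ a ∈ gr k w 0, ∀ (j : ℕ), ∀ y ∈ gr k w 0,
      ((LieAlgebra.ad k L a : Module.End k L) ^ j) y ∈ gr k w 0 := by
    intro a ha j
    induction j with
    | zero => intro y hy; simpa using hy
    | succ j ih =>
      intro y hy
      rw [pow_succ', Module.End.mul_apply]
      have := lie_gr ha (ih y hy)
      rwa [zero_add] at this
  -- the polynomial family
  have hfam : PolyFam (fun t : k =>
      ((LieAlgebra.ad k L (x + t • m) : Module.End k L) ^ N) ∘ₗ Y.subtype) := by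
    have h1 : PolyFam (fun t : k => (LieAlgebra.ad k L x : Module.End k L) +
        t • (LieAlgebra.ad k L m : Module.End k L)) := PolyFam.line _ _
    have h2 := (h1.pow N).comp_right Y.subtype
    simpa only [map_add, map_smul] using h2
  have hopen := hfam.rank_open 0
  refine hopen.subset fun t ht => ?_
  by_contra hcon
  apply ht
  -- rank at `0`
  have hrk0 : finrank k (LinearMap.range
      (((LieAlgebra.ad k L (x + (0 : k) • m) : Module.End k L) ^ N) ∘ₗ Y.subtype)) =
      finrank k Y := by
    rw [zero_smul, add_zero]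
    apply LinearMap.finrank_range_of_inj
    rw [injective_iff_map_eq_zero]
    intro y hy
    have h1 := (hker y).mp hy
    exact Subtype.ext ((Submodule.disjoint_def.mp hdis) _ h1 y.2)
  have hrkt : finrank k Y ≤ finrank k (LinearMap.range
      (((LieAlgebra.ad k L (x + t • m) : Module.End k L) ^ N) ∘ₗ Y.subtype)) := by
    rw [← hrk0]
    by_contra h
    exact hcon (by simpa using h)
  set K : Module.End k L := (LieAlgebra.ad k L (x + t • m) : Module.End k L) ^ N with hK
  have hxt : x + t • m ∈ gr k w 0 := add_mem hx0 ((gr k w 0).smul_mem t hm)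
  have hmapY : (Y.map K) = Y := by
    have h1 : Y.map K ≤ Y := by
      rintro _ ⟨y, hy, rfl⟩
      exact hYpow _ hxt N y hy
    refine Submodule.eq_of_le_of_finrank_le h1 ?_
    rw [← LinearMap.range_domRestrict]
    exact hrkt
  have hrkx : finrank k (LinearMap.range ((LieAlgebra.ad k L x : Module.End k L) ^ N)) =
      finrank k Y := by
    have h1 := LinearMap.finrank_range_add_finrank_ker
      ((LieAlgebra.ad k L x : Module.End k L) ^ N)
    have h2 : LinearMap.ker ((LieAlgebra.ad k L x : Module.End k L) ^ N) = gr k w 0 := by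
      ext v; rw [LinearMap.mem_ker]; exact hker v
    have h3 := Submodule.finrank_add_eq_of_isCompl (⟨hdis, codisjoint_iff.mpr hsup⟩ :
      IsCompl (gr k w 0) Y)
    rw [h2] at h1
    omega
  have hrange : LinearMap.range K = Y := by
    symm
    refine Submodule.eq_of_le_of_finrank_le ?_ ?_
    · rw [← hmapY]; exact LinearMap.map_le_range
    · rw [← hrkx]; exact hrk t
  intro v
  constructor
  · intro hv
    have hvt : v ∈ gr k w 0 ⊔ Y := by rw [hsup]; trivial
    obtain ⟨a, ha, y, hy, rfl⟩ := Submodule.mem_sup.mp hvt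
    have h1 : K a ∈ gr k w 0 := h0pow _ hxt N a ha
    have h2 : K y ∈ Y := hYpow _ hxt N y hy
    have h3 : K a = 0 := by
      have h4 : K a = -K y := by rw [map_add] at hv; exact eq_neg_of_add_eq_zero_left hv
      exact (Submodule.disjoint_def.mp hdis) _ h1 (by rw [h4]; exact neg_mem h2)
    have h5 : K y = 0 := by rw [map_add, h3, zero_add] at hv; exact hv
    have h6 : Function.Injective (K.domRestrict Y) := by
      rw [← LinearMap.ker_eq_bot]
      have h7 := LinearMap.finrank_range_add_finrank_ker (K.domRestrict Y)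
      have h8 : finrank k (LinearMap.range (K.domRestrict Y)) = finrank k Y := by
        rw [LinearMap.range_domRestrict, hmapY]
      apply Submodule.finrank_eq_zero.mp
      omega
    have h9 : (⟨y, hy⟩ : Y) = 0 := h6 (by rw [map_zero]; exact h5)
    have h10 : y = 0 := congrArg Subtype.val h9
    rw [h10, add_zero]; exact ha
  · intro hv
    have h1 : K v ∈ gr k w 0 := h0pow _ hxt N v hv
    have h2 : K v ∈ Y := by rw [← hrange]; exact LinearMap.mem_range_self _ _
    exact (Submodule.disjoint_def.mp hdis) _ h1 h2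

variable [LieAlgebra.IsKilling k L]

/-- Jordan parts of an element whose generalised null space is the centraliser of `s`. -/
theorem SS.jordan_part {s y : L} (N : ℕ) (hN : finrank k L ≤ N)
    (hker : ∀ v : L, ((LieAlgebra.ad k L y : Module.End k L) ^ N) v = 0 ↔ ⁅s, v⁆ = 0) :
    ∃ a b : L, y = a + b ∧ a ∈ bic k s ∧ IsNilpotent (LieAlgebra.ad k L b : Module.End k L) ∧
      ⁅s, b⁆ = 0 := by
  obtain ⟨a, b, hyab, hab, ha, hb, -, hgen⟩ := exists_jordan (E := k) y
  have h0 : ∀ v : L, ⁅a, v⁆ = 0 ↔ ⁅s, v⁆ = 0 := by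
    intro v
    rw [← hker, SS.pow_eq_zero_iff _ N hN, hgen, Module.End.mem_eigenspace_iff, zero_smul,
      LieAlgebra.ad_apply]
  exact ⟨a, b, hyab, fun v hv => (h0 v).mpr hv, hb, (h0 b).mp hab⟩

/-- The orthogonal projection to the bicentraliser. -/
theorem SS.exists_proj {s : L} (hs : (LieAlgebra.ad k L s : Module.End k L).IsSemisimple)
    (m : L) : ∃ ζ ∈ bic k s, ∀ z ∈ bic k s, killingForm k L (m - ζ) z = 0 := by
  let B : bic k s →ₗ[k] Module.Dual k (bic k s) :=
    (killingForm k L).domRestrict₁₂ (bic k s) (bic k s)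
  have hinj : Function.Injective B := by
    rw [injective_iff_map_eq_zero]
    intro z hz
    refine Subtype.ext (bic_nondeg hs z.2 fun z' hz' => ?_)
    exact LinearMap.congr_fun hz ⟨z', hz'⟩
  have hsurj : Function.Surjective B :=
    (LinearMap.injective_iff_surjective_of_finrank_eq_finrank
      (Subspace.dual_finrank_eq).symm).mp hinj
  obtain ⟨ζ, hζ⟩ := hsurj ((killingForm k L m) ∘ₗ (bic k s).subtype)
  refine ⟨ζ, ζ.2, fun z hz => ?_⟩
  have h1 := LinearMap.congr_fun hζ ⟨z, hz⟩
  have h2 : killingForm k L ζ z = killingForm k L m z := h1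
  rw [map_sub, LinearMap.sub_apply, h2, sub_self]

theorem SS.key {x s n w h f : L} (N : ℕ) (hN : finrank k L ≤ N)
    (hxs : x = s + n) (hsn : ⁅s, n⁆ = 0)
    (hs : (LieAlgebra.ad k L s : Module.End k L).IsSemisimple)
    (hn : IsNilpotent (LieAlgebra.ad k L n : Module.End k L)) (hn0 : n ≠ 0)
    (hker : ∀ v : L, ((LieAlgebra.ad k L x : Module.End k L) ^ N) v = 0 ↔ ⁅s, v⁆ = 0)
    (hw : Diag k w) (hw0 : gr k w 0 = cen k s)
    (hsh : ⁅s, h⁆ = 0) (hsf : ⁅s, f⁆ = 0) (tri : Tri k n h f) {m : L} (hm : ⁅s, m⁆ = 0)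
    (hr1 : ∀ t : k,
      finrank k (LinearMap.range (LieAlgebra.ad k L (x + t • m) : Module.End k L)) ≤
        finrank k (LinearMap.range (LieAlgebra.ad k L x : Module.End k L)))
    (hrN : ∀ t : k,
      finrank k (LinearMap.range ((LieAlgebra.ad k L (x + t • m) : Module.End k L) ^ N)) ≤
        finrank k (LinearMap.range ((LieAlgebra.ad k L x : Module.End k L) ^ N))) :
    killingForm k L h m = 0 ∧ killingForm k L n m = 0 := by
  classical
  have hmem : ∀ v : L, v ∈ gr k w 0 ↔ ⁅s, v⁆ = 0 := by
    intro v; rw [hw0, mem_cen]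
  have hsx : ⁅s, x⁆ = 0 := by rw [hxs, lie_add, lie_self, hsn, add_zero]
  have hfin := SS.cofinite hw ((hmem x).mpr hsx) ((hmem m).mpr hm) N
    (fun v => (hker v).trans (hmem v).symm) hrN
  set T : Set k := {t : k | ¬ ∀ v : L, ((LieAlgebra.ad k L (x + t • m) : Module.End k L) ^ N) v = 0 ↔
      v ∈ gr k w 0} with hT
  have hTc : Tᶜ.Infinite := hfin.infinite_compl
  have hgood : ∀ t ∈ Tᶜ, ∀ v : L,
      ((LieAlgebra.ad k L (x + t • m) : Module.End k L) ^ N) v = 0 ↔ ⁅s, v⁆ = 0 := by
    intro t ht v
    have h1 : ∀ v : L, ((LieAlgebra.ad k L (x + t • m) : Module.End k L) ^ N) v = 0 ↔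
      v ∈ gr k w 0 := by
      by_contra hcon
      exact ht hcon
    exact (h1 v).trans (hmem v)
  have hsbic : s ∈ bic k s := fun v hv => hv
  have hbic : ∀ z ∈ bic k s, ∀ v : L, ⁅s, v⁆ = 0 → ⁅v, z⁆ = 0 := by
    intro z hz v hv
    rw [← lie_skew, (mem_bic k).mp hz v hv, neg_zero]
  obtain ⟨ζ, hζ, hζm⟩ := SS.exists_proj hs m
  set ν : L := m - ζ with hν
  have hsζ : ⁅s, ζ⁆ = 0 := hbic ζ hζ s (lie_self s)
  have hsν : ⁅s, ν⁆ = 0 := by rw [hν, lie_sub, hm, hsζ, sub_zero]
  -- nilpotency of `n + t ν`
  have hnil : ∀ t ∈ Tᶜ, IsNilpotent (LieAlgebra.ad k L (n + t • ν) : Module.End k L) := by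
    intro t ht
    obtain ⟨a, b, hab, ha, hb, hsb⟩ := SS.jordan_part N hN (hgood t ht)
    have h1 : n + t • ν = (a - s - t • ζ) + b := by
      have h2 : x + t • m = a + b := hab
      rw [hxs] at h2
      have h3 : n + t • ν = (s + n + t • m) - s - t • ζ := by
        rw [hν, smul_sub]; abel
      rw [h3, h2]; abel
    have hc : a - s - t • ζ = 0 := by
      refine bic_nondeg hs (sub_mem (sub_mem ha hsbic) ((bic k s).smul_mem t hζ))
        fun z hz => ?_
      have h4 : killingForm k L (n + t • ν) z = 0 := by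
        rw [map_add, map_smul, LinearMap.add_apply, LinearMap.smul_apply,
          killing_eq_zero_of_nilpotent hn (hbic z hz n hsn), hζm z hz, smul_zero, add_zero]
      rw [h1, map_add, LinearMap.add_apply,
        killing_eq_zero_of_nilpotent hb (hbic z hz b hsb), add_zero] at h4
      exact h4
    rw [h1, hc, zero_add]; exact hb
  constructor
  · -- `κ(h, m) = 0`
    have hκζ : killingForm k L h ζ = 0 := by
      rw [← tri.nf, LieModule.traceForm_apply_lie_apply]
      rw [hbic ζ hζ f hsf, map_zero]
    suffices hmain : killingForm k L h ν = 0 by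
      have : m = ν + ζ := by rw [hν]; abel
      rw [this, map_add, hmain, hκζ, add_zero]
    -- the element `x + t m` acts on the centraliser of `s` as `n + t ν`
    have hact : ∀ (t : k) (y : L), ⁅s, y⁆ = 0 → ⁅x + t • m, y⁆ = ⁅n + t • ν, y⁆ := by
      intro t y hy
      have h1 : x + t • m = (s + t • ζ) + (n + t • ν) := by
        rw [hxs, hν, smul_sub]; abel
      rw [h1, add_lie, (mem_bic k).mp (add_mem hsbic ((bic k s).smul_mem t hζ)) y hy, zero_add]
    have hsN : ∀ t : k, ⁅s, n + t • ν⁆ = 0 := by
      intro t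
      rw [lie_add, lie_smul, hsn, hsν, smul_zero, add_zero]
    obtain ⟨M, c, d, hd0, hc0, hct⟩ := spec_solution (k := k)
      (A := (LieAlgebra.ad k L x : Module.End k L)) (B := (LieAlgebra.ad k L m : Module.End k L))
      (v := -((2 : k) • n)) (w := -((2 : k) • ν)) (h0 := h)
      (by
        refine hTc.mono fun t ht => ⟨?_, ?_⟩
        · have h1 := hr1 t
          have e : (LieAlgebra.ad k L (x + t • m) : Module.End k L) =
              (LieAlgebra.ad k L x : Module.End k L) + t • (LieAlgebra.ad k L m) := by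
            simp only [map_add, map_smul]
          rw [e] at h1
          exact h1
        · obtain ⟨ht', ft, hst, -, trit⟩ := exists_tri hs (hsN t) (hnil t ht)
          refine ⟨ht', ?_⟩
          have h1 : ((LieAlgebra.ad k L x : Module.End k L) +
              t • (LieAlgebra.ad k L m : Module.End k L)) ht' = ⁅x + t • m, ht'⁆ := by
            rw [LinearMap.add_apply, LinearMap.smul_apply, LieAlgebra.ad_apply,
              LieAlgebra.ad_apply, add_lie, smul_lie]
          rw [h1, hact t ht' hst, ← lie_skew, trit.hn]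
          simp only [smul_add, smul_neg]
          rw [smul_comm t (2 : k) ν]; abel)
      (by
        rw [LieAlgebra.ad_apply, hxs, add_lie, hsh, zero_add, ← lie_skew, tri.hn])
    have hct' : ∀ t : k, ⁅x + t • m, ∑ i : Fin M, t ^ (i : ℕ) • c i⁆ =
        -((2 * d.eval t) • (n + t • ν)) := by
      intro t
      have h1 := hct t
      rw [LinearMap.add_apply, LinearMap.smul_apply, LieAlgebra.ad_apply,
        LieAlgebra.ad_apply, ← smul_lie, ← add_lie] at h1
      rw [h1]
      module
    have hd : d ≠ 0 := by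
      rintro rfl
      exact hd0 (by simp)
    -- the polynomial solution lies in the centraliser of `s`
    have hcs : ∀ t ∈ Tᶜ, ⁅s, ∑ i : Fin M, t ^ (i : ℕ) • c i⁆ = 0 := by
      intro t ht
      rw [← hgood t ht]
      rcases N with _ | N
      · exfalso
        have h1 : (n : L) = 0 := by
          have h2 := (hgood t ht n).mpr hsn
          simpa using h2
        exact hn0 h1
      · have h1 : ⁅s, ⁅x + t • m, ∑ i : Fin M, t ^ (i : ℕ) • c i⁆⁆ = 0 := by
          rw [hct' t, lie_neg, lie_smul, hsN t, smul_zero, neg_zero]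
        have h2 := (hgood t ht _).mpr h1
        -- one more power
        have h3 : (∑ i : Fin M, t ^ (i : ℕ) • c i) ∈
            Module.End.maxGenEigenspace (LieAlgebra.ad k L (x + t • m) : Module.End k L) 0 := by
          rw [Module.End.mem_maxGenEigenspace]
          refine ⟨N + 1 + 1, ?_⟩
          rw [zero_smul, sub_zero, pow_succ, Module.End.mul_apply, LieAlgebra.ad_apply]
          exact h2
        exact (SS.pow_eq_zero_iff _ (N + 1) hN _).mpr h3
    have hTH := trace_line_eq_zero (k := k) (LieAlgebra.ad k L n : Module.End k L)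
      (LieAlgebra.ad k L ν : Module.End k L)
      (hTc.mono fun t ht => by
        have h1 := hnil t ht
        have e : (LieAlgebra.ad k L (n + t • ν) : Module.End k L) =
            (LieAlgebra.ad k L n : Module.End k L) + t • (LieAlgebra.ad k L ν) := by
          simp only [map_add, map_smul]
        rw [e] at h1
        exact h1)
      (fun i => (LieAlgebra.ad k L (c i) : Module.End k L)) d hd
      (hTc.mono fun t ht => by
        have h1 : (∑ i : Fin M, t ^ (i : ℕ) • (LieAlgebra.ad k L (c i) : Module.End k L)) =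
            (LieAlgebra.ad k L (∑ i : Fin M, t ^ (i : ℕ) • c i) : Module.End k L) := by
          simp only [map_sum, map_smul]
        have h2 : (LieAlgebra.ad k L n : Module.End k L) + t • (LieAlgebra.ad k L ν) =
            (LieAlgebra.ad k L (n + t • ν) : Module.End k L) := by
          simp only [map_add, map_smul]
        have h3 : ⁅∑ i : Fin M, t ^ (i : ℕ) • c i, n + t • ν⁆ =
            (2 * d.eval t) • (n + t • ν) := by
          have h4 := hct' t
          rw [hact t _ (hcs t ht), ← lie_skew] at h4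
          exact neg_injective h4
        change _ - _ = _
        rw [h1, h2]
        ext y
        rw [LinearMap.sub_apply, Module.End.mul_apply, Module.End.mul_apply, LinearMap.smul_apply]
        simp only [LieAlgebra.ad_apply]
        rw [← smul_lie, ← h3, lie_lie])
      0
    have h5 : (∑ i : Fin M, (0 : k) ^ (i : ℕ) • (LieAlgebra.ad k L (c i) : Module.End k L)) =
        d.eval 0 • (LieAlgebra.ad k L h : Module.End k L) := by
      rw [← map_smul, ← hc0]
      simp only [map_sum, map_smul]
    rw [h5, smul_mul_assoc, map_smul, smul_eq_mul] at hTH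
    rw [killingForm_apply_apply]
    exact (mul_eq_zero.mp hTH).resolve_left hd0
  · -- `κ(n, m) = 0`
    have hκζ : killingForm k L n ζ = 0 :=
      killing_eq_zero_of_nilpotent hn (hbic ζ hζ n hsn)
    suffices hmain : killingForm k L n ν = 0 by
      have : m = ν + ζ := by rw [hν]; abel
      rw [this, map_add, hmain, hκζ, add_zero]
    have hq : ∀ t ∈ Tᶜ, t * (2 * killingForm k L n ν + t * killingForm k L ν ν) = 0 := by
      intro t ht
      have h1 := killing_eq_zero_of_nilpotent (hnil t ht) (lie_self _)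
      have h2 : killingForm k L n n = 0 := killing_eq_zero_of_nilpotent hn (lie_self _)
      have h3 : killingForm k L ν n = killingForm k L n ν := LieModule.traceForm_comm k L L ν n
      simp only [map_add, map_smul, LinearMap.add_apply, LinearMap.smul_apply, smul_eq_mul] at h1
      rw [h2, h3] at h1
      linear_combination h1
    obtain ⟨t1, ht1, ht10⟩ := hTc.exists_notMem_finset {0}
    obtain ⟨t2, ht2, ht20⟩ := hTc.exists_notMem_finset {0, t1}
    simp only [Finset.mem_insert, Finset.mem_singleton, not_or] at ht10 ht20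
    have e1 := (mul_eq_zero.mp (hq t1 ht1)).resolve_left ht10
    have e2 := (mul_eq_zero.mp (hq t2 ht2)).resolve_left ht20.1
    have e3 : (t2 - t1) * (2 * killingForm k L n ν) = 0 := by
      linear_combination t2 * e1 - t1 * e2
    have e4 := (mul_eq_zero.mp e3).resolve_left (sub_ne_zero.mpr ht20.2)
    exact (mul_eq_zero.mp e4).resolve_left two_ne_zero

theorem isSemisimple_of_max (r : LieSubalgebra k L) {x : L} (hx : x ∈ perp k (der r)) (N : ℕ)
    (hN : finrank k L ≤ N)
    (h1 : ∀ y ∈ perp k (der r),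
      finrank k (LinearMap.range (LieAlgebra.ad k L y : Module.End k L)) ≤
      finrank k (LinearMap.range (LieAlgebra.ad k L x : Module.End k L)))
    (h2 : ∀ y ∈ perp k (der r),
      finrank k (LinearMap.range ((LieAlgebra.ad k L y : Module.End k L) ^ N)) ≤
      finrank k (LinearMap.range ((LieAlgebra.ad k L x : Module.End k L) ^ N))) :
    (LieAlgebra.ad k L x : Module.End k L).IsSemisimple := by
  obtain ⟨s, n, hxs, hsn, hs, hn, -, hgen⟩ := exists_jordan (E := k) x
  obtain ⟨w, hw, hw0, hsw⟩ := exists_grading hs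
  suffices hn0 : n = 0 by rw [hxs, hn0, add_zero]; exact hs
  by_contra hn0
  obtain ⟨h, f, hsh, hsf, tri⟩ := exists_tri hs hsn hn
  have hmem : ∀ v : L, v ∈ gr k w 0 ↔ ⁅s, v⁆ = 0 := by
    intro v; rw [hw0, mem_cen]
  have hker : ∀ v : L, ((LieAlgebra.ad k L x : Module.End k L) ^ N) v = 0 ↔ ⁅s, v⁆ = 0 := by
    intro v
    rw [SS.pow_eq_zero_iff _ N hN, hgen, Module.End.mem_eigenspace_iff, zero_smul,
      LieAlgebra.ad_apply]
  have hsx : ⁅s, x⁆ = 0 := by rw [hxs, lie_add, lie_self, hsn, add_zero]
  have hx0 : x ∈ gr k w 0 := (hmem x).mpr hsx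
  have key : ∀ m' ∈ perp k (der r), m' ∈ bor k w →
      killingForm k L h m' = 0 ∧ killingForm k L n m' = 0 := by
    intro m' hm' hmb
    rw [bor_eq, Submodule.mem_sup] at hmb
    obtain ⟨m, hm, u, hu, rfl⟩ := hmb
    have hper : ∀ t : k, x + t • (m + u) ∈ perp k (der r) := fun t =>
      add_mem hx ((perp k (der r)).smul_mem t hm')
    have hgr : ∀ (t : k) (j : ℕ), finrank k (LinearMap.range
        ((LieAlgebra.ad k L (x + t • m) : Module.End k L) ^ j)) ≤ finrank k (LinearMap.range
        ((LieAlgebra.ad k L (x + t • (m + u)) : Module.End k L) ^ j)) := by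
      intro t j
      have h3 := rank_gr_le hw (u0 := x + t • m) (u1 := t • u)
        (add_mem hx0 ((gr k w 0).smul_mem t hm)) ((nil k w).smul_mem t hu) j
      have h4 : x + t • m + t • u = x + t • (m + u) := by rw [smul_add]; abel
      rwa [h4] at h3
    have hk := SS.key N hN hxs hsn hs hn hn0 hker hw hw0 hsh hsf tri ((hmem m).mp hm)
      (fun t => by
        have h3 := hgr t 1
        rw [pow_one, pow_one] at h3
        exact h3.trans (h1 _ (hper t)))
      (fun t => (hgr t N).trans (h2 _ (hper t)))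
    have hzero : ∀ v : L, ⁅s, v⁆ = 0 → killingForm k L v u = 0 := by
      intro v hv
      rw [LieModule.traceForm_comm]
      exact killing_nil_bor hu (gr_le_bor w le_rfl ((hmem v).mpr hv))
    rw [map_add, map_add, hk.1, hk.2, hzero h hsh, hzero n hsn]
    simp
  obtain ⟨u, hu, hhu⟩ := exists_lift_der hw r ((hmem h).mpr hsh) (fun m hm hmb => (key m hm hmb).1)
  obtain ⟨u', hu', hnu⟩ := exists_lift_der hw r ((hmem n).mpr hsn)
    (fun m hm hmb => (key m hm hmb).2)
  have hder : der r ≤ r.toSubmodule := by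
    rw [der, Submodule.span_le]
    rintro _ ⟨a, ha, b, hb, rfl⟩
    exact r.lie_mem ha hb
  obtain ⟨u'', hu'', hfu⟩ := lift_f hw ((hmem n).mpr hsn) ((hmem h).mpr hsh) ((hmem f).mpr hsf) tri
    hu hu' hhu (hder hnu)
  have h3 : killingForm k L x ⁅h + u, f + u''⁆ = 0 :=
    hx _ (Submodule.subset_span ⟨h + u, hder hhu, f + u'', hfu, rfl⟩)
  have hnilz : ∀ v ∈ nil k w, killingForm k L x v = 0 := by
    intro v hv
    rw [LieModule.traceForm_comm]
    exact killing_nil_bor hv (gr_le_bor w le_rfl hx0)
  have hhb : h ∈ bor k w := gr_le_bor w le_rfl ((hmem h).mpr hsh)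
  have hfb : f ∈ bor k w := gr_le_bor w le_rfl ((hmem f).mpr hsf)
  have h4 : ⁅h + u, f + u''⁆ = ⁅h, f⁆ + (⁅h + u, u''⁆ - ⁅f, u⁆) := by
    rw [add_lie, lie_add, lie_add, add_lie, ← lie_skew f u]; abel
  have h5 : ⁅h + u, u''⁆ - ⁅f, u⁆ ∈ nil k w :=
    sub_mem (lie_mem_nil (add_mem hhb (nil_le_bor w hu)) hu'') (lie_mem_nil hfb hu)
  rw [h4, map_add, hnilz _ h5, add_zero, tri.hf, map_neg, map_smul, smul_eq_mul, hxs, map_add,
    LinearMap.add_apply] at h3
  have h6 : killingForm k L s f = 0 := by
    have h7 : killingForm k L s ⁅h, f⁆ = 0 := by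
      rw [← LieModule.traceForm_apply_lie_apply, hsh, map_zero, LinearMap.zero_apply]
    rw [tri.hf, map_neg, map_smul, smul_eq_mul] at h7
    exact (mul_eq_zero.mp (neg_eq_zero.mp h7)).resolve_left two_ne_zero
  rw [h6, zero_add] at h3
  exact tri.killing_ne_zero hn0 ((mul_eq_zero.mp (neg_eq_zero.mp h3)).resolve_left two_ne_zero)

theorem cent_of_max (r : LieSubalgebra k L) {x : L} (hx : x ∈ perp k (der r))
    (h1 : ∀ y ∈ perp k (der r),
      finrank k (LinearMap.range (LieAlgebra.ad k L y : Module.End k L)) ≤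
      finrank k (LinearMap.range (LieAlgebra.ad k L x : Module.End k L)))
    {a b : L} (ha : ⁅x, a⁆ = 0) (hb : ⁅x, b⁆ = 0) : ⁅a, b⁆ ∈ r := by
  have hder : der r ≤ r.toSubmodule := by
    rw [der, Submodule.span_le]
    rintro _ ⟨a, ha, b, hb, rfl⟩
    exact r.lie_mem ha hb
  apply hder
  have key : ∀ z ∈ perp k (der r), killingForm k L ⁅a, b⁆ z = 0 := by
    intro z hz
    have h2 : {t : k | finrank k (LinearMap.range ((LieAlgebra.ad k L x : Module.End k L) +
        t • (LieAlgebra.ad k L z : Module.End k L))) ≤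
        finrank k (LinearMap.range (LieAlgebra.ad k L x : Module.End k L))}.Infinite := by
      have h3 : {t : k | finrank k (LinearMap.range ((LieAlgebra.ad k L x : Module.End k L) +
        t • (LieAlgebra.ad k L z : Module.End k L))) ≤
        finrank k (LinearMap.range (LieAlgebra.ad k L x : Module.End k L))} = Set.univ := by
        refine Set.eq_univ_of_forall fun t => ?_
        have h4 := h1 (x + t • z) (add_mem hx ((perp k (der r)).smul_mem t hz))
        have e : (LieAlgebra.ad k L (x + t • z) : Module.End k L) =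
            (LieAlgebra.ad k L x : Module.End k L) + t • (LieAlgebra.ad k L z) := by
          simp only [map_add, map_smul]
        rw [e] at h4
        exact h4
      rw [h3]
      exact Set.infinite_univ
    obtain ⟨v, hv⟩ := constant_rank h2 (v := a) (by rw [LieAlgebra.ad_apply]; exact ha)
    rw [LieAlgebra.ad_apply, LieAlgebra.ad_apply] at hv
    -- κ([a,b], z) = κ(b, [z,a]) = κ(b, [x,v]) = κ([b,x], v) = 0
    have h5 : killingForm k L ⁅a, b⁆ z = killingForm k L b ⁅z, a⁆ := by
      rw [← lie_skew a b, map_neg, LinearMap.neg_apply, LieModule.traceForm_apply_lie_apply,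
        ← lie_skew z a, map_neg]
    rw [h5, ← hv, ← LieModule.traceForm_apply_lie_apply, ← lie_skew, hb, neg_zero, map_zero,
      LinearMap.zero_apply]
  exact GD.mem_of_perp_perp (W := der r) (fun z hz => key z hz)

end
end F80
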