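import Pool.Agent.H42.C80.SL
import Pool.Agent.H42.C80.GD
/-! Part C, module TR: the trace argument. -/
open Module
namespace F80

section low
variable {k : Type*} [Field k] [CharZero k] {L : Type*} [LieRing L] [LieAlgebra k L]

variable (k) in
/-- The sum of the graded pieces of degree larger than `q`. -/
def upp (w : L) (q : ℚ) : Submodule k L := ⨆ p ∈ {p : ℚ | q < p}, gr k w p

variable (k) in
/-- `x0` is the component of degree `q` of `x`, and `x` has no component of lower degree. -/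
def LowD (w : L) (q : ℚ) (x x0 : L) : Prop := x0 ∈ gr k w q ∧ x - x0 ∈ upp k w q

theorem gr_le_upp {w : L} {p q : ℚ} (h : q < p) : gr k w p ≤ upp k w q :=
  le_iSup₂_of_le p h le_rfl

theorem upp_mono {w : L} {p q : ℚ} (h : q ≤ p) : upp k w p ≤ upp k w q :=
  iSup₂_le fun _ hs => gr_le_upp (lt_of_le_of_lt h hs)

theorem disjoint_gr_upp (w : L) (q : ℚ) : Disjoint (gr k w q) (upp k w q) := by
  have h := disjoint_biSup_gr (E := k) w (S := {q}) (T := {p : ℚ | q < p}) (by simp)
  simpa [upp] using h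

theorem LowD.unique {w : L} {q : ℚ} {x a b : L} (ha : LowD k w q x a) (hb : LowD k w q x b) :
    a = b := by
  have h1 : a - b ∈ gr k w q := sub_mem ha.1 hb.1
  have h2 : a - b ∈ upp k w q := by
    have := sub_mem hb.2 ha.2
    have e : x - b - (x - a) = a - b := by abel
    rwa [e] at this
  have h3 := (Submodule.disjoint_def.1 (disjoint_gr_upp (k := k) w q)) _ h1 h2
  exact sub_eq_zero.1 h3

theorem exists_low {w : L} (hw : Diag k w) {x : L} (hx : x ≠ 0) :
    ∃ q x0, x0 ≠ 0 ∧ LowD k w q x x0 := by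
  classical
  have h1 : x ∈ ⨆ q ∈ (Set.univ : Set ℚ), gr k w q := by
    have : (⨆ q : ℚ, gr k w q) = ⊤ := hw
    simp [this]
  obtain ⟨s, f, -, hf, rfl⟩ := exists_sum_biSup h1
  set s' := s.filter (fun q => f q ≠ 0) with hs'
  have hsum : ∑ q ∈ s, f q = ∑ q ∈ s', f q := (Finset.sum_filter_ne_zero s).symm
  have hne : s'.Nonempty := by
    by_contra hcon
    rw [Finset.not_nonempty_iff_eq_empty] at hcon
    rw [hsum, hcon] at hx
    exact hx (by simp)
  have hall : ∀ q ∈ s', f q ≠ 0 := by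
    intro q hq
    rw [hs', Finset.mem_filter] at hq
    exact hq.2
  refine ⟨s'.min' hne, f (s'.min' hne), ?_, hf _, ?_⟩
  · exact hall _ (s'.min'_mem hne)
  · rw [hsum, ← Finset.add_sum_erase s' f (s'.min'_mem hne), add_sub_cancel_left]
    refine Submodule.sum_mem _ fun q hq => gr_le_upp ?_ (hf q)
    exact s'.min'_lt_of_mem_erase_min' hne hq

/-- `A0` is the part of degree `0` of `A`, and `A` has no part of negative degree. -/
structure Cmp (w : L) (A A0 : Module.End k L) : Prop where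
  deg : ∀ q, ∀ x ∈ gr k w q, A0 x ∈ gr k w q
  up : ∀ q, ∀ x ∈ gr k w q, A x - A0 x ∈ upp k w q

theorem Cmp.map_upp {w : L} {A A0 : Module.End k L} (h : Cmp w A A0) {q : ℚ} {x : L}
    (hx : x ∈ upp k w q) : A x ∈ upp k w q := by
  have h1 : upp k w q ≤ (upp k w q).comap A := by
    refine iSup₂_le fun p hp y hy => ?_
    rw [Submodule.mem_comap]
    have e : A y = A0 y + (A y - A0 y) := by abel
    rw [e]
    exact add_mem (gr_le_upp hp (h.deg p y hy)) (upp_mono (le_of_lt hp) (h.up p y hy))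
  exact h1 hx

theorem Cmp.low {w : L} {A A0 : Module.End k L} (h : Cmp w A A0) {q : ℚ} {x x0 : L}
    (hx : LowD k w q x x0) : LowD k w q (A x) (A0 x0) := by
  refine ⟨h.deg q x0 hx.1, ?_⟩
  have e : A x - A0 x0 = A (x - x0) + (A x0 - A0 x0) := by rw [map_sub]; abel
  rw [e]
  exact add_mem (h.map_upp hx.2) (h.up q x0 hx.1)

theorem Cmp.low_pow {w : L} {A A0 : Module.End k L} (h : Cmp w A A0) {q : ℚ} {x x0 : L}
    (hx : LowD k w q x x0) (j : ℕ) : LowD k w q ((A ^ j) x) ((A0 ^ j) x0) := by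
  induction j with
  | zero => simpa using hx
  | succ j ih =>
    rw [pow_succ', pow_succ', Module.End.mul_apply, Module.End.mul_apply]
    exact h.low ih

theorem cmp_ad {w x0 x1 : L} (h0 : x0 ∈ gr k w 0) (h1 : x1 ∈ nil k w) :
    Cmp w (LieAlgebra.ad k L (x0 + x1) : Module.End k L) (LieAlgebra.ad k L x0) := by
  refine ⟨fun q x hx => ?_, fun q x hx => ?_⟩
  · have := lie_gr h0 hx
    rwa [zero_add] at this
  · rw [LieAlgebra.ad_apply, LieAlgebra.ad_apply, add_lie, add_sub_cancel_left]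
    have hx' : x ∈ ⨆ p ∈ ({q} : Set ℚ), gr k w p := by simpa using hx
    exact lie_mem_biSup (S := {p : ℚ | 0 < p}) (T := {q}) (U := {p : ℚ | q < p})
      (fun s hs t ht => by
        rw [Set.mem_singleton_iff] at ht
        have hs' : 0 < s := hs
        change q < s + t
        rw [ht]; linarith) h1 hx'

theorem Cmp.sub {w : L} {A A0 : Module.End k L} (h : Cmp w A A0) (c : k) :
    Cmp w (A - c • 1) (A0 - c • 1) := by
  refine ⟨fun q x hx => ?_, fun q x hx => ?_⟩
  · simpa using sub_mem (h.deg q x hx) (Submodule.smul_mem _ c hx)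
  · have e : (A - c • 1) x - (A0 - c • 1) x = A x - A0 x := by simp
    rw [e]
    exact h.up q x hx

theorem low_zero {w : L} {q : ℚ} : LowD k w q 0 0 := ⟨zero_mem _, by simp⟩

theorem Cmp.low_gen {w : L} {A A0 : Module.End k L} (h : Cmp w A A0) {q : ℚ} {x x0 : L}
    (hx : LowD k w q x x0) {c : k} (hg : x ∈ A.maxGenEigenspace c) :
    x0 ∈ A0.maxGenEigenspace c := by
  rw [Module.End.mem_maxGenEigenspace] at hg ⊢
  obtain ⟨N, hN⟩ := hg
  refine ⟨N, ?_⟩
  have h1 := (h.sub c).low_pow hx N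
  rw [hN] at h1
  exact h1.unique low_zero

end low

section
variable {k : Type*} [Field k] [CharZero k] [IsAlgClosed k] {L : Type*} [LieRing L]
  [LieAlgebra k L] [FiniteDimensional k L]

omit [CharZero k] [IsAlgClosed k] [FiniteDimensional k L] in
theorem der_le (r : LieSubalgebra k L) : der r ≤ r.toSubmodule := by
  refine Submodule.span_le.2 ?_
  rintro _ ⟨a, ha, b, hb, rfl⟩
  exact r.lie_mem ha hb

attribute [local instance 100] LieRing.ofAssociativeRing in
omit [CharZero k] [IsAlgClosed k] [FiniteDimensional k L] in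
theorem trace_ad_lie (a b : L) :
    LinearMap.trace k L (LieAlgebra.ad k L ⁅a, b⁆ : Module.End k L) = 0 := by
  rw [LieHom.map_lie, LieRing.of_associative_ring_bracket, map_sub, LinearMap.trace_mul_comm,
    sub_self]

/-- The trace of the action of an element of `[r,r]` on `r` vanishes. -/
theorem trace_der {r : LieSubalgebra k L} {ρ : L} (hρ : ρ ∈ der r) (hr : ρ ∈ r) :
    LinearMap.trace k r (LieAlgebra.ad k r ⟨ρ, hr⟩ : Module.End k r) = 0 := by
  have key : ∀ x (_ : x ∈ der r), ∃ hr : x ∈ r,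
      LinearMap.trace k r (LieAlgebra.ad k r ⟨x, hr⟩ : Module.End k r) = 0 := by
    intro x hx
    refine Submodule.span_induction ?_ ?_ ?_ ?_ hx
    · rintro _ ⟨a, ha, b, hb, rfl⟩
      refine ⟨r.lie_mem ha hb, ?_⟩
      have e : (⟨⁅a, b⁆, r.lie_mem ha hb⟩ : r) = ⁅(⟨a, ha⟩ : r), (⟨b, hb⟩ : r)⁆ := rfl
      rw [e, trace_ad_lie]
    · exact ⟨r.zero_mem, by
        have e : (⟨0, r.zero_mem⟩ : r) = 0 := rfl
        rw [e, map_zero, map_zero]⟩
    · rintro x y _ _ ⟨hx, hx'⟩ ⟨hy, hy'⟩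
      refine ⟨r.add_mem hx hy, ?_⟩
      have e : (⟨x + y, r.add_mem hx hy⟩ : r) = ⟨x, hx⟩ + ⟨y, hy⟩ := rfl
      rw [e, map_add, map_add, hx', hy', add_zero]
    · rintro c x _ ⟨hx, hx'⟩
      refine ⟨r.smul_mem c hx, ?_⟩
      have e : (⟨c • x, r.smul_mem c hx⟩ : r) = c • ⟨x, hx⟩ := rfl
      rw [e, map_smul, map_smul, hx', smul_zero]
  obtain ⟨_, h⟩ := key ρ hρ
  exact h

/-- Injectivity on `L`. -/
theorem pow_injective_of_low {w : L} (hw : Diag k w) {n h f u e : L}
    (hn : n ∈ gr k w 0) (hh : h ∈ gr k w 0) (tri : Tri k n h f)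
    (hu : u ∈ nil k w) (he : e ∈ nil k w) {j : ℕ} {v : L}
    (hv : v ∈ Module.End.maxGenEigenspace (LieAlgebra.ad k L (h + u) : Module.End k L)
      (-(j : k)))
    (h0 : ((LieAlgebra.ad k L (n + e) : Module.End k L) ^ j) v = 0) : v = 0 := by
  by_contra hv0
  obtain ⟨q, v0, hv00, hlow⟩ := exists_low hw hv0
  have h1 := (cmp_ad hh hu).low_gen hlow hv
  have h2 := (cmp_ad hn he).low_pow hlow j
  rw [h0] at h2
  exact hv00 (tri.pow_injective h1 (h2.unique low_zero))

/-- The eigenvalues of `ad (h + u)` are integers. -/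
theorem exists_int_of_low {w : L} (hw : Diag k w) {n h f u : L}
    (hh : h ∈ gr k w 0) (tri : Tri k n h f) (hu : u ∈ nil k w) {v : L} {μ : k} (hv0 : v ≠ 0)
    (hv : ⁅h + u, v⁆ = μ • v) : ∃ z : ℤ, μ = z := by
  obtain ⟨q, v0, hv00, hlow⟩ := exists_low hw hv0
  have h1 := (cmp_ad hh hu).low hlow
  rw [LieAlgebra.ad_apply, LieAlgebra.ad_apply, hv] at h1
  have h2 : LowD k w q (μ • v) (μ • v0) := by
    refine ⟨Submodule.smul_mem _ _ hlow.1, ?_⟩
    rw [← smul_sub]
    exact Submodule.smul_mem _ _ hlow.2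
  have h3 := h1.unique h2
  exact tri.exists_int (Module.End.hasEigenvalue_of_hasEigenvector (x := v0)
    (Module.End.hasEigenvector_iff.2 ⟨Module.End.mem_eigenspace_iff.2 (by
      rw [LieAlgebra.ad_apply, h3]), hv00⟩))

omit [IsAlgClosed k] in
/-- Correcting a lift of `n` to a generalised eigenvector. -/
theorem exists_eps {B : Submodule k L} {w : L} {n h u u' : L}
    (hn : n ∈ gr k w 0) (hh : h ∈ gr k w 0) (hhn : ⁅h, n⁆ = (2 : k) • n)
    (hu : u ∈ nil k w) (hu' : u' ∈ nil k w)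
    (hB : ∀ x ∈ B, ⁅h + u, x⁆ ∈ B) (hBw : B ≤ bor k w) (hε : n + u' ∈ B) :
    ∃ e ∈ nil k w, n + e ∈ B ∧
      n + e ∈ Module.End.maxGenEigenspace (LieAlgebra.ad k L (h + u) : Module.End k L) 2 := by
  set T : Module.End k L := (LieAlgebra.ad k L (h + u) : Module.End k L) - (2 : k) • 1 with hT
  set T0 : Module.End k L := (LieAlgebra.ad k L h : Module.End k L) - (2 : k) • 1 with hT0
  have hcmp : Cmp w T T0 := (cmp_ad hh hu).sub 2
  have hTB : ∀ x ∈ B, T x ∈ B := by
    intro x hx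
    simpa [hT] using sub_mem (hB x hx) (B.smul_mem (2 : k) hx)
  obtain ⟨N, ⟨hN1, hN2⟩, hN3⟩ := (((T.restrict hTB).eventually_codisjoint_ker_pow_range_pow.and
    T0.eventually_disjoint_ker_pow_range_pow).and (Filter.eventually_ge_atTop 1)).exists
  have hmem : (⟨n + u', hε⟩ : B) ∈ LinearMap.ker ((T.restrict hTB) ^ N) ⊔
      LinearMap.range ((T.restrict hTB) ^ N) := by
    rw [hN1.eq_top]; trivial
  obtain ⟨a, ha, b', ⟨b, rfl⟩, hab⟩ := Submodule.mem_sup.1 hmem
  have hpow : ∀ (M : ℕ) (x : B), ((((T.restrict hTB) ^ M) x : B) : L) = (T ^ M) (x : L) := by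
    intro M x
    rw [Module.End.pow_restrict M]
    rfl
  have hab' : (a : L) + (T ^ N) (b : L) = n + u' := by
    rw [← hpow]
    exact congrArg Subtype.val hab
  have ha' : (T ^ N) (a : L) = 0 := by
    rw [← hpow, LinearMap.mem_ker.1 ha]; rfl
  have hdec : ∀ x ∈ B, ∃ x0, LowD k w 0 x x0 := by
    intro x hx
    have h1 := hBw hx
    rw [bor_eq, Submodule.mem_sup] at h1
    obtain ⟨x0, hx0, x1, hx1, rfl⟩ := h1
    exact ⟨x0, hx0, by rw [add_sub_cancel_left]; exact hx1⟩
  obtain ⟨a0, ha0⟩ := hdec a a.2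
  obtain ⟨b0, hb0⟩ := hdec b b.2
  have h1 := hcmp.low_pow ha0 N
  rw [ha'] at h1
  have h2 : (T0 ^ N) a0 = 0 := h1.unique low_zero
  have h3 := hcmp.low_pow hb0 N
  have h4 : LowD k w 0 ((a : L) + (T ^ N) (b : L)) (a0 + (T0 ^ N) b0) := by
    refine ⟨add_mem ha0.1 h3.1, ?_⟩
    rw [add_sub_add_comm]
    exact add_mem ha0.2 h3.2
  rw [hab'] at h4
  have h5 : LowD k w 0 (n + u') n := ⟨hn, by rw [add_sub_cancel_left]; exact hu'⟩
  have h6 := h5.unique h4
  have hTn : (T0 ^ N) n = 0 := by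
    obtain ⟨M, rfl⟩ := Nat.exists_eq_succ_of_ne_zero (by omega : N ≠ 0)
    rw [Nat.succ_eq_add_one, pow_succ, Module.End.mul_apply]
    have : T0 n = 0 := by simp [hT0, hhn]
    rw [this, map_zero]
  have h7 : (T0 ^ N) b0 = 0 := by
    have h8 : (T0 ^ N) b0 ∈ LinearMap.ker (T0 ^ N) := by
      have e : (T0 ^ N) b0 = n - a0 := eq_sub_of_add_eq' h6.symm
      rw [e, LinearMap.mem_ker, map_sub, hTn, h2, sub_zero]
    exact (Submodule.disjoint_def.1 hN2) _ h8 ⟨b0, rfl⟩
  rw [h7, add_zero] at h6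
  refine ⟨(a : L) - n, ?_, ?_, ?_⟩
  · rw [h6]; exact ha0.2
  · rw [add_sub_cancel]; exact a.2
  · rw [add_sub_cancel, Module.End.mem_maxGenEigenspace]
    exact ⟨N, ha'⟩

omit [CharZero k] [IsAlgClosed k] [FiniteDimensional k L] in
/-- Symmetry of the dimensions from the vanishing of a weighted sum. -/
theorem eq_of_sum_zero (d : ℤ → ℕ) (M : ℤ) (h : ∀ j : ℕ, d (-(j : ℤ)) ≤ d j)
    (hs : ∑ z ∈ Finset.Icc (-M) M, z * (d z : ℤ) = 0) (j : ℕ) (hj : (j : ℤ) ≤ M) (hj0 : j ≠ 0) :
    d (-(j : ℤ)) = d j := by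
  have h1 : ∑ z ∈ Finset.Icc (-M) M, z * (d (-z) : ℤ) =
      -∑ z ∈ Finset.Icc (-M) M, z * (d z : ℤ) := by
    rw [← Finset.sum_neg_distrib]
    refine Finset.sum_bij (fun z _ => -z) ?_ ?_ ?_ ?_
    · intro z hz
      rw [Finset.mem_Icc] at hz ⊢
      omega
    · intro a _ b _ hab
      omega
    · intro z hz
      rw [Finset.mem_Icc] at hz
      exact ⟨-z, by rw [Finset.mem_Icc]; omega, by ring⟩
    · intro z _
      ring
  have h2 : ∑ z ∈ Finset.Icc (-M) M, z * ((d z : ℤ) - d (-z)) = 0 := by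
    simp only [mul_sub, Finset.sum_sub_distrib, h1, hs]
    ring
  have hnn : ∀ z ∈ Finset.Icc (-M) M, 0 ≤ z * ((d z : ℤ) - d (-z)) := by
    intro z _
    rcases le_total 0 z with hz | hz
    · obtain ⟨m, rfl⟩ := Int.eq_ofNat_of_zero_le hz
      have := h m
      exact mul_nonneg hz (by omega)
    · obtain ⟨m, hm⟩ := Int.eq_ofNat_of_zero_le (neg_nonneg.2 hz)
      have := h m
      rw [← hm, neg_neg] at this
      exact mul_nonneg_of_nonpos_of_nonpos hz (by omega)
  rw [Finset.sum_eq_zero_iff_of_nonneg hnn] at h2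
  have h3 := h2 j (by rw [Finset.mem_Icc]; omega)
  rcases mul_eq_zero.1 h3 with h4 | h4
  · omega
  · omega

omit [FiniteDimensional k L] in
/-- The trace formula for an endomorphism with integral eigenvalues. -/
theorem sum_eq_zero_of_trace {V : Type*} [AddCommGroup V] [Module k V] [FiniteDimensional k V]
    (S : Module.End k V) (htr : LinearMap.trace k V S = 0)
    (hint : ∀ (μ : k) (v : V), v ≠ 0 → S v = μ • v → ∃ z : ℤ, μ = z) :
    ∃ M : ℤ, 2 ≤ M ∧ ∑ z ∈ Finset.Icc (-M) M,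
      z * ((finrank k (S.maxGenEigenspace (z : k)) : ℕ) : ℤ) = 0 := by
  classical
  set F := (finite_gen_ne_bot S).toFinset with hF
  have hint' : ∀ μ ∈ F, ∃ z : ℤ, μ = z := by
    intro μ hμ
    rw [hF, Set.Finite.mem_toFinset, Set.mem_ofPred_eq] at hμ
    obtain ⟨v, hv, hv0⟩ := Submodule.exists_mem_ne_zero_of_ne_bot hμ
    obtain ⟨u, -, hu0, hu⟩ := exists_eigenvector_of_gen (W := ⊤) (T := S) (by simp) hv
      Submodule.mem_top hv0
    exact hint μ u hu0 hu
  choose! z hz using hint'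
  refine ⟨2 + ∑ μ ∈ F, |z μ|, ?_, ?_⟩
  · have : 0 ≤ ∑ μ ∈ F, |z μ| := Finset.sum_nonneg fun _ _ => abs_nonneg _
    omega
  set M := 2 + ∑ μ ∈ F, |z μ| with hM
  have h1 := trace_eq_sum_gen S (Module.End.iSup_maxGenEigenspace_eq_top S)
  rw [htr] at h1
  have h2 : ((∑ z ∈ Finset.Icc (-M) M,
      z * ((finrank k (S.maxGenEigenspace (z : k)) : ℕ) : ℤ) : ℤ) : k) = 0 := by
    rw [h1]
    push_cast
    have hinj : Set.InjOn (fun z : ℤ => (z : k)) (Finset.Icc (-M) M) :=
      fun a _ b _ hab => Int.cast_injective hab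
    have h3 : ∑ z ∈ Finset.Icc (-M) M, (z : k) * (finrank k (S.maxGenEigenspace (z : k)) : k) =
        ∑ μ ∈ (Finset.Icc (-M) M).image (fun z : ℤ => (z : k)),
          (finrank k (S.maxGenEigenspace μ) : k) * μ := by
      rw [Finset.sum_image hinj]
      exact Finset.sum_congr rfl fun _ _ => mul_comm _ _
    rw [h3]
    refine (Finset.sum_subset ?_ ?_).symm
    · intro μ hμ
      rw [Finset.mem_image]
      refine ⟨z μ, ?_, (hz μ hμ).symm⟩
      rw [Finset.mem_Icc, ← abs_le]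
      have : |z μ| ≤ ∑ μ ∈ F, |z μ| :=
        Finset.single_le_sum (f := fun μ => |z μ|) (fun _ _ => abs_nonneg _) hμ
      omega
    · intro μ _ hμ
      rw [Set.Finite.mem_toFinset, Set.mem_ofPred_eq, not_not] at hμ
      rw [hμ, finrank_bot, Nat.cast_zero, zero_mul]
  exact_mod_cast h2

/-- If `h` lifts to `[r,r]` and `n` lifts to `r`, then `f` lifts to `r`. -/
theorem lift_f {r : LieSubalgebra k L} {w : L} (hw : Diag k w) {n h f : L}
    (hn : n ∈ gr k w 0) (hh : h ∈ gr k w 0) (hf : f ∈ gr k w 0) (tri : Tri k n h f)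
    {u u' : L} (hu : u ∈ nil k w) (hu' : u' ∈ nil k w) (hρ : h + u ∈ der r)
    (hε : n + u' ∈ r) : ∃ u'' ∈ nil k w, f + u'' ∈ r := by
  have hr : h + u ∈ r := der_le r hρ
  have hρB : h + u ∈ bor k w := add_mem (gr_le_bor w le_rfl hh) (nil_le_bor w hu)
  obtain ⟨e, he, heB, hegen⟩ := exists_eps (B := r.toSubmodule ⊓ bor k w) hn hh tri.hn hu hu'
    (fun x hx => ⟨r.lie_mem hr hx.1, lie_mem_bor hρB hx.2⟩) inf_le_right
    ⟨hε, add_mem (gr_le_bor w le_rfl hn) (nil_le_bor w hu')⟩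
  set ρ : r := ⟨h + u, hr⟩ with hρdef
  set ε : r := ⟨n + e, heB.1⟩ with hεdef
  set S : Module.End k r := LieAlgebra.ad k r ρ with hS
  set E : Module.End k r := LieAlgebra.ad k r ε with hE
  set T : Module.End k L := LieAlgebra.ad k L (h + u) with hT
  have hpow : ∀ (c : k) (N : ℕ) (x : r), (((S - c • 1) ^ N) x : L) = ((T - c • 1) ^ N) (x : L) := by
    intro c N x
    induction N with
    | zero => simp
    | succ N ih =>
      rw [pow_succ', pow_succ', Module.End.mul_apply, Module.End.mul_apply, ← ih]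
      rfl
  have hmem : ∀ (c : k) (x : r), x ∈ S.maxGenEigenspace c ↔ (x : L) ∈ T.maxGenEigenspace c := by
    intro c x
    rw [Module.End.mem_maxGenEigenspace, Module.End.mem_maxGenEigenspace]
    refine exists_congr fun N => ?_
    rw [← hpow, ZeroMemClass.coe_eq_zero]
  have hEpow : ∀ (j : ℕ) (x : r), ((E ^ j) x : L) =
      ((LieAlgebra.ad k L (n + e) : Module.End k L) ^ j) (x : L) := by
    intro j x
    induction j with
    | zero => simp
    | succ N ih =>
      rw [pow_succ', pow_succ', Module.End.mul_apply, Module.End.mul_apply, ← ih]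
      rfl
  have hεgen : ε ∈ S.maxGenEigenspace 2 := (hmem 2 ε).2 hegen
  have hEmap : ∀ (c : k) (x : r), x ∈ S.maxGenEigenspace c → E x ∈ S.maxGenEigenspace (2 + c) := by
    intro c x hx
    exact LieModule.lie_mem_maxGenEigenspace_toEnd hεgen hx
  have hEmapj : ∀ (j : ℕ) (c : k) (x : r), x ∈ S.maxGenEigenspace c →
      (E ^ j) x ∈ S.maxGenEigenspace (2 * j + c) := by
    intro j c x hx
    induction j with
    | zero => simpa using hx
    | succ j ih =>
      rw [pow_succ', Module.End.mul_apply]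
      have := hEmap _ _ ih
      have e1 : (2 : k) + (2 * j + c) = 2 * ((j + 1 : ℕ) : k) + c := by push_cast; ring
      rwa [e1] at this
  have hinj : ∀ (j : ℕ) (x : r), x ∈ S.maxGenEigenspace (-(j : k)) → (E ^ j) x = 0 → x = 0 := by
    intro j x hx h0
    have h1 := (hmem _ x).1 hx
    have h2 := hEpow j x
    rw [h0] at h2
    exact Subtype.ext (pow_injective_of_low hw hn hh tri hu he h1 h2.symm)
  have hmaps : ∀ j : ℕ, ∀ x ∈ S.maxGenEigenspace (-(j : k)),
      (E ^ j) x ∈ S.maxGenEigenspace (j : k) := by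
    intro j x hx
    have := hEmapj j _ x hx
    have e1 : 2 * (j : k) + -(j : k) = j := by ring
    rwa [e1] at this
  have hRinj : ∀ j : ℕ, Function.Injective ((E ^ j).restrict (hmaps j)) := by
    intro j
    rw [← LinearMap.ker_eq_bot, LinearMap.ker_eq_bot']
    intro x hx
    have h1 : (E ^ j) (x : r) = 0 := congrArg Subtype.val hx
    exact Subtype.ext (hinj j x x.2 h1)
  obtain ⟨M, hM2, hM⟩ := sum_eq_zero_of_trace S (trace_der hρ hr) (by
    intro μ v hv0 hv
    refine exists_int_of_low hw hh tri hu (v := (v : L)) (by simpa using hv0) ?_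
    have := congrArg Subtype.val hv
    exact this)
  have hdim : finrank k (S.maxGenEigenspace (-((2 : ℕ) : k))) =
      finrank k (S.maxGenEigenspace ((2 : ℕ) : k)) := by
    have h1 := eq_of_sum_zero (fun z : ℤ => finrank k (S.maxGenEigenspace (z : k))) M (by
      intro j
      have := LinearMap.finrank_le_finrank_of_injective (hRinj j)
      have e1 : ((-(j : ℤ) : ℤ) : k) = -(j : k) := by push_cast; rfl
      have e2 : (((j : ℕ) : ℤ) : k) = (j : k) := by push_cast; rfl
      change finrank k (S.maxGenEigenspace ((-(j : ℤ) : ℤ) : k)) ≤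
        finrank k (S.maxGenEigenspace (((j : ℕ) : ℤ) : k))
      rw [e1, e2]
      exact this) hM 2 (by exact_mod_cast hM2) two_ne_zero
    have e1 : ((-((2 : ℕ) : ℤ) : ℤ) : k) = -((2 : ℕ) : k) := by push_cast; rfl
    have e2 : ((((2 : ℕ) : ℕ) : ℤ) : k) = ((2 : ℕ) : k) := by push_cast; rfl
    change finrank k (S.maxGenEigenspace ((-((2 : ℕ) : ℤ) : ℤ) : k)) =
        finrank k (S.maxGenEigenspace ((((2 : ℕ) : ℕ) : ℤ) : k)) at h1
    rwa [e1, e2] at h1
  have hsurj := (LinearMap.injective_iff_surjective_of_finrank_eq_finrank hdim).1 (hRinj 2)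
  obtain ⟨⟨v, hv⟩, hvε⟩ := hsurj ⟨ε, by simpa using hεgen⟩
  have hvε' : (E ^ 2) v = ε := congrArg Subtype.val hvε
  have hvgen : (v : L) ∈ T.maxGenEigenspace (-((2 : ℕ) : k)) := (hmem _ v).1 hv
  have hv2 : ((LieAlgebra.ad k L (n + e) : Module.End k L) ^ 2) (v : L) = n + e := by
    rw [← hEpow, hvε']
  -- the degrees of `v`
  have hcn : Cmp w (LieAlgebra.ad k L (n + e) : Module.End k L) (LieAlgebra.ad k L n) :=
    cmp_ad hn he
  have hlow : ∃ v0, LowD k w 0 (v : L) v0 := by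
    by_cases hv0 : (v : L) = 0
    · exact ⟨0, by rw [hv0]; exact low_zero⟩
    · obtain ⟨q, v0, hv00, hlow⟩ := exists_low hw hv0
      rcases lt_trichotomy q 0 with hq | hq | hq
      · exfalso
        have h1 := hcn.low_pow hlow 2
        rw [hv2] at h1
        have h2 : LowD k w q (n + e) 0 := by
          refine ⟨zero_mem _, ?_⟩
          rw [sub_zero]
          exact add_mem (gr_le_upp hq hn) (upp_mono hq.le he)
        have h3 := h1.unique h2
        exact hv00 (tri.pow_injective ((cmp_ad hh hu).low_gen hlow hvgen) h3)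
      · exact ⟨v0, hq ▸ hlow⟩
      · refine ⟨0, zero_mem _, ?_⟩
        rw [sub_zero]
        have e1 : (v : L) = v0 + (v - v0) := by abel
        rw [e1]
        exact add_mem (gr_le_upp hq hlow.1) (upp_mono hq.le hlow.2)
  obtain ⟨v0, hv0⟩ := hlow
  have h1 := hcn.low_pow hv0 2
  rw [hv2] at h1
  have h2 : LowD k w 0 (n + e) n := ⟨hn, by rw [add_sub_cancel_left]; exact he⟩
  have h3 : ((LieAlgebra.ad k L n : Module.End k L) ^ 2) v0 = n := h1.unique h2
  have h4 := (cmp_ad hh hu).low_gen hv0 hvgen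
  have hf2 : f ∈ (LieAlgebra.ad k L h : Module.End k L).maxGenEigenspace (-((2 : ℕ) : k)) := by
    rw [Module.End.mem_maxGenEigenspace]
    refine ⟨1, ?_⟩
    rw [pow_one, LinearMap.sub_apply, LinearMap.smul_apply, Module.End.one_apply,
      LieAlgebra.ad_apply, tri.hf]
    push_cast
    module
  have h5 : (2 : k) • v0 + f ∈
      (LieAlgebra.ad k L h : Module.End k L).maxGenEigenspace (-((2 : ℕ) : k)) :=
    add_mem (Submodule.smul_mem _ _ h4) hf2
  have h6 : ((LieAlgebra.ad k L n : Module.End k L) ^ 2) ((2 : k) • v0 + f) = 0 := by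
    rw [map_add, map_smul, h3, pow_two, Module.End.mul_apply, LieAlgebra.ad_apply,
      LieAlgebra.ad_apply, tri.nf, ← lie_skew, tri.hn, add_neg_cancel]
  have h7 : (2 : k) • v0 + f = 0 := tri.pow_injective h5 h6
  refine ⟨-((2 : k) • ((v : L) - v0)), neg_mem (Submodule.smul_mem _ _ hv0.2), ?_⟩
  have e1 : f + -((2 : k) • ((v : L) - v0)) = -((2 : k) • (v : L)) := by
    have : f = -((2 : k) • v0) := eq_neg_of_add_eq_zero_right h7
    rw [this]
    module
  rw [e1]
  exact r.neg_mem (r.smul_mem _ v.2)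

end
end F80
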